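import Pool.Agent.Helper75.LQ.Sts

/-! The local version: no bound in the whole strip is assumed. -/

set_option autoImplicit false

open Complex MeasureTheory Filter Topology

namespace Pool.Agent.Helper75.LQ

/-- `TS` without the bound in the whole strip -/
structure TL (A : ℝ) (g : ℕ → ℂ → ℂ) (L : ℕ → ℝ) : Prop where
  A0 : 0 < A
  A1 : A ≤ 1 / 2
  lim : Tendsto L atTop atTop
  ent : ∀ j, Differentiable ℂ (g j)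
  re : ∀ j z, g j ((starRingEnd ℂ) z) = (starRingEnd ℂ) (g j z)
  up0 : ∀ η > 0, ∀ R : ℝ, ∀ᶠ j in atTop, ∀ z : ℂ, |z.re| ≤ R → |z.im| ≤ 2 * A →
    ‖g j z‖ ≤ Real.exp (L j * (A + η))
  up1 : ∀ η > 0, ∀ R : ℝ, ∀ᶠ j in atTop, ∀ z : ℂ, |z.re| ≤ R → 2 * A ≤ |z.im| → |z.im| ≤ 8 →
    ‖g j z‖ ≤ Real.exp (L j * (|z.im| / 2 + η))
  lo1 : ∀ η > 0, ∀ R : ℝ, ∀ᶠ j in atTop, ∀ z : ℂ, |z.re| ≤ R → 2 * A + η ≤ z.im → z.im ≤ 8 →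
    Real.exp (L j * (z.im / 2 - η)) ≤ ‖g j z‖
  big : ∀ η > 0, ∀ᶠ j in atTop, Real.exp (L j * (A - η)) ≤ ‖g j 0‖
  glob : ∀ δ > 0, ∃ B : ℝ, ∀ᶠ j in atTop, ∀ z : ℂ, ‖g j z‖ ≤ Real.exp (L j * (B + δ * ‖z‖ ^ 2))
  pos : ∀ κ > 0, ∀ R : ℝ, ∀ᶠ j in atTop, ∀ s : ℝ, |s| ≤ R → ∀ m : ℕ, κ * L j ≤ m → 0 ≤ Lag (g j) s m

/-- replacement of `TS.strip` -/
theorem TL.strip2 {A : ℝ} {g : ℕ → ℂ → ℂ} {L : ℕ → ℝ} (h : TL A g L) (R : ℝ) : ∀ᶠ j in atTop, ∀ z : ℂ,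
    |z.re| ≤ R → |z.im| ≤ 8 → ∀ w : ℝ, ‖g j (z + w)‖ ≤ Real.exp (L j * (5 + w ^ 2)) := by
  obtain ⟨B, hB⟩ := h.glob (1 / 4) (by norm_num)
  have hA1 := h.A1
  have hA0 := h.A0
  obtain ⟨Q, hQ⟩ : ∃ Q : ℝ, Q = 2 * (|B| + (|R| + 8) ^ 2) + 1 := ⟨_, rfl⟩
  have hQ1 : 1 ≤ Q := by rw [hQ]; nlinarith [abs_nonneg B, sq_nonneg (|R| + 8)]
  filter_upwards [hB, h.up0 1 one_pos (|R| + Q), h.up1 1 one_pos (|R| + Q), h.lim.eventually_ge_atTop 1]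
    with j f1 f2 f3 hL1 z hz1 hz2 w
  have hL0 : 0 < L j := by linarith
  have hR := hz1.trans (le_abs_self R)
  have hre : (z + (w : ℂ)).re = z.re + w := by simp
  have him : (z + (w : ℂ)).im = z.im := by simp
  rcases le_or_gt |w| Q with hw | hw
  · have h1 : |(z + (w : ℂ)).re| ≤ |R| + Q := by
      rw [hre]; exact (abs_add_le _ _).trans (by linarith)
    rcases le_total |z.im| (2 * A) with h2 | h2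
    · refine (f2 _ h1 (by rw [him]; exact h2)).trans (Real.exp_le_exp.2 ?_)
      exact mul_le_mul_of_nonneg_left (by nlinarith [sq_nonneg w]) hL0.le
    · refine (f3 _ h1 (by rw [him]; exact h2) (by rw [him]; exact hz2)).trans (Real.exp_le_exp.2 ?_)
      rw [him]
      exact mul_le_mul_of_nonneg_left (by nlinarith [sq_nonneg w]) hL0.le
  · refine (f1 _).trans (Real.exp_le_exp.2 (mul_le_mul_of_nonneg_left ?_ hL0.le))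
    have h1 : ‖z + (w : ℂ)‖ ^ 2 ≤ 2 * (|R| + 8) ^ 2 + 2 * w ^ 2 := by
      rw [Complex.sq_norm, Complex.normSq_apply, hre, him]
      have a1 : z.re ^ 2 ≤ |R| ^ 2 := by rw [← sq_abs z.re]; gcongr
      have a2 : z.im ^ 2 ≤ 8 ^ 2 := by rw [← sq_abs z.im]; gcongr
      nlinarith [sq_nonneg (z.re - w), abs_nonneg R]
    have h2 : Q ≤ w ^ 2 := by
      rw [← sq_abs w]
      nlinarith
    have h3 := le_abs_self B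
    nlinarith [sq_nonneg (|R| + 8), abs_nonneg B]

/-! ## Package C: lower bounds for `nn` (positivity of the Laguerre coefficients) -/

/-- number of terms of the Taylor polynomial -/
noncomputable def ML (L : ℕ → ℝ) (j : ℕ) : ℕ := ⌈10 * L j⌉₊

/-- Taylor polynomial of `nn` -/
def Sl_C0a : Prop := ∀ (A : ℝ) (g : ℕ → ℂ → ℂ) (L : ℕ → ℝ), TL A g L → ∃ c0 : ℝ, ∀ c ≥ c0,
  ∀ R : ℝ, ∀ᶠ j in atTop, ∀ s y : ℝ, |s| ≤ R → |y| ≤ 2 →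
    |(nn (g j) (vv c L j / 2) s y).re -
      ∑ m ∈ Finset.range (ML L j), Lag (g j) s m * (hn (vv c L j / 2) y (2 * m)).re| ≤ 1

/-- Taylor polynomial of `|g(s + iY)|²` -/
def Sl_C0b : Prop := ∀ (A : ℝ) (g : ℕ → ℂ → ℂ) (L : ℕ → ℝ), TL A g L →
  ∀ R : ℝ, ∀ᶠ j in atTop, ∀ s Y : ℝ, |s| ≤ R → |Y| ≤ 3 →
    |‖g j (s + I * Y)‖ ^ 2 - ∑ m ∈ Finset.range (ML L j), Lag (g j) s m * Y ^ (2 * m)| ≤ 1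

/-- Cauchy's estimate on the circle of radius `2A` -/
def Sl_C0c : Prop := ∀ (A : ℝ) (g : ℕ → ℂ → ℂ) (L : ℕ → ℝ), TL A g L →
  ∀ η > 0, ∀ R : ℝ, ∀ᶠ j in atTop, ∀ (s : ℝ) (m : ℕ), |s| ≤ R →
    |Lag (g j) s m| ≤ Real.exp (L j * (2 * A + η)) / (2 * A) ^ (2 * m)

/-- `nn ≥ - e^{(2A+η)L}` -/
def Sl_C1 : Prop := ∀ (A : ℝ) (g : ℕ → ℂ → ℂ) (L : ℕ → ℝ), TL A g L → ∃ c0 : ℝ, ∀ c ≥ c0,
  ∀ η > 0, ∀ R : ℝ, ∀ᶠ j in atTop, ∀ s y : ℝ, |s| ≤ R → 2 * A ≤ y → y ≤ 2 →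
    -Real.exp (L j * (2 * A + η)) ≤ (nn (g j) (vv c L j / 2) s y).re

/-- lower bound of the size of the plane wave -/
def Sl_C2 : Prop := ∀ (A : ℝ) (g : ℕ → ℂ → ℂ) (L : ℕ → ℝ), TL A g L → ∀ τ > 0, ∃ c0 : ℝ, ∀ c ≥ c0,
  ∀ R : ℝ, ∀ᶠ j in atTop, ∀ s y : ℝ, |s| ≤ R → 2 * A + (1 / 2 + τ) / c ≤ y → y ≤ 2 →
    Real.exp (L j * (y - (1 / 4 + τ) / c)) ≤ (nn (g j) (vv c L j / 2) s y).re

/-- the tail of the integral in the product formula -/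
def Sl_C3 : Prop := ∀ (A : ℝ) (g : ℕ → ℂ → ℂ) (L : ℕ → ℝ), TL A g L → ∃ c0 : ℝ, ∀ c ≥ c0,
  ∀ R : ℝ, ∀ᶠ j in atTop, ∀ s y b σ : ℝ, |s| ≤ R → |y| ≤ 2 → |b| ≤ 1 / 4 → |σ| ≤ 1 / 4 →
    ∫ a in {a : ℝ | 1 < |a|}, ‖nn (g j) (vv c L j / 2) (s - a) y * ga (vv c L j / 2) (a + b + I * σ)‖ ≤ 1

/-! ## Package D: bounds for `F` -/

def Sl_D1 : Prop := ∀ (A : ℝ) (g : ℕ → ℂ → ℂ) (L : ℕ → ℝ), TL A g L → ∃ c0 : ℝ, ∀ c ≥ c0,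
  ∀ η > 0, ∀ R : ℝ, ∀ᶠ j in atTop, ∀ z : ℂ, |z.re| ≤ R → |z.im| ≤ 2 * A →
    ‖F (g j) (vv c L j) z‖ ≤ Real.exp (L j * (A + η))

def Sl_D2 : Prop := ∀ (A : ℝ) (g : ℕ → ℂ → ℂ) (L : ℕ → ℝ), TL A g L → ∃ c0 : ℝ, ∀ c ≥ c0,
  ∀ η > 0, ∀ R : ℝ, ∀ᶠ j in atTop, ∀ z : ℂ, |z.re| ≤ R → 2 * A + 1 / (2 * c) ≤ z.im → z.im ≤ 3 →
    ‖F (g j) (vv c L j) z‖ ≤ Real.exp (L j * (z.im / 2 - 1 / (8 * c) + η))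

def Sl_D3 : Prop := ∀ (A : ℝ) (g : ℕ → ℂ → ℂ) (L : ℕ → ℝ), TL A g L → ∀ τ > 0, ∃ c0 : ℝ, ∀ c ≥ c0,
  ∀ R : ℝ, ∀ᶠ j in atTop, ∀ z : ℂ, |z.re| ≤ R → 2 * A + (1 / 2 + τ) / c ≤ z.im → z.im ≤ 2 →
    Real.exp (L j * (z.im / 2 - (1 / 8 + τ) / c)) ≤ ‖F (g j) (vv c L j) z‖

/-- the two point inequality -/
def Sl_D4 : Prop := ∀ (A : ℝ) (g : ℕ → ℂ → ℂ) (L : ℕ → ℝ), TL A g L → ∃ c0 : ℝ, ∀ c ≥ c0,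
  ∀ η > 0, ∀ R : ℝ, ∀ᶠ j in atTop, ∀ s y b σ : ℝ, |s| ≤ R → 2 * A ≤ y → y ≤ 2 → |b| ≤ 1 / 4 → |σ| ≤ 1 / 4 →
    ‖F (g j) (vv c L j) (s + b + I * (σ + y))‖ * ‖F (g j) (vv c L j) (s + b + I * (σ - y))‖ ≤
      Real.exp (L j * (c * σ ^ 2 + 2 * c * |b|)) *
        (‖F (g j) (vv c L j) (s + I * y)‖ ^ 2 + Real.exp (L j * (2 * A + η)))

/-! ## Package E: propagation of smallness, and a point where `F` is large -/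

/-- `F` is large at a point close to `0` -/
def Sl_E2 : Prop := ∀ (A : ℝ) (g : ℕ → ℂ → ℂ) (L : ℕ → ℝ), TL A g L → ∃ c0 : ℝ, ∀ c ≥ c0,
  ∀ η > 0, ∀ᶠ j in atTop, ∃ z : ℂ, ‖z‖ ≤ η ∧ Real.exp (L j * (A - η)) ≤ ‖F (g j) (vv c L j) z‖

/-- `F` is large in every disc -/
def Sl_E3 : Prop := ∀ (A : ℝ) (g : ℕ → ℂ → ℂ) (L : ℕ → ℝ), TL A g L → ∃ c0 : ℝ, ∀ c ≥ c0,
  ∀ R β b η : ℝ, 0 < R → 0 < β → β < 2 * A → 0 < b → 0 < η → ∀ᶠ j in atTop, ∀ p : ℂ, |p.re| ≤ R →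
    |p.im| ≤ 2 * A - β → ∃ z : ℂ, ‖z - p‖ ≤ b ∧ Real.exp (L j * (A - η)) ≤ ‖F (g j) (vv c L j) z‖

/-! ## Package G: the contradiction -/

/-- lower bound for `F` above the height `2A + 0.2/c` -/
def Sl_G2 : Prop := ∀ (A : ℝ) (g : ℕ → ℂ → ℂ) (L : ℕ → ℝ), TL A g L → ∃ c0 : ℝ, ∀ c ≥ c0,
  ∀ R : ℝ, ∀ᶠ j in atTop, ∀ s y : ℝ, |s| ≤ R → 2 * A + 1 / (5 * c) ≤ y → y ≤ 2 →
    Real.exp (L j * (A + 1 / (80 * c))) ≤ ‖F (g j) (vv c L j) (s + I * y)‖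

def Sl_fin : Prop := ∀ (A : ℝ) (g : ℕ → ℂ → ℂ) (L : ℕ → ℝ), ¬ TL A g L



end Pool.Agent.Helper75.LQ
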