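import Pool.Agent.Helper75.LQ.C2
import Pool.Agent.Helper75.LQ.Stl

/-! Package C2, local version. -/

set_option autoImplicit false
set_option maxHeartbeats 2000000

open Complex MeasureTheory Filter Topology

namespace Pool.Agent.Helper75.LQ

lemma ML_le {L : ℕ → ℝ} {j : ℕ} (hL : 1 ≤ L j) : (ML L j : ℝ) ≤ 11 * L j := by
  have h1 : (ML L j : ℝ) < 10 * L j + 1 := by
    rw [ML]
    exact Nat.ceil_lt_add_one (by positivity)
  nlinarith

lemma ML_le3 {L : ℕ → ℝ} {j : ℕ} (hL : 1 ≤ L j) : (ML L j : ℝ) ≤ 3 * (11 / 3 : ℝ) * L j := by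
  have := ML_le hL
  linarith

/-- terms of low order are at most `e^((2A+η)L)` -/
theorem low_suml (h0c : Sl_C0c) {A : ℝ} {g : ℕ → ℂ → ℂ} {L : ℕ → ℝ} (h : TL A g L) {η : ℝ} (hη : 0 < η)
    (R : ℝ) : ∃ κ : ℝ, 0 < κ ∧ ∀ᶠ j in atTop, ∀ s : ℝ, |s| ≤ R → ∀ a : ℕ → ℝ, (∀ m, m < ML L j → |a m| ≤ 3 ^ (2 * m)) →
      ∑ m ∈ (Finset.range (ML L j)).filter (fun m : ℕ => ¬ κ * L j ≤ (m : ℝ)), |Lag (g j) s m * a m| ≤
        Real.exp (L j * (2 * A + η)) := by
  have hA0 := h.A0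
  have hA1 := h.A1
  have hq : 3 ≤ 3 / (2 * A) := by
    rw [le_div_iff₀ (by linarith)]; linarith
  set b : ℝ := Real.log (3 / (2 * A)) with hb
  have hb0 : 0 < b := Real.log_pos (by linarith)
  refine ⟨η / (8 * b), by positivity, ?_⟩
  filter_upwards [h0c A g L h (η / 4) (by positivity) R, h.lim.eventually_ge_atTop 1,
    lin_le_exp (a := η / 4) (b := 11) (by positivity) L h.lim] with j hj hL1 hlin s hs a ha
  have hterm : ∀ m ∈ (Finset.range (ML L j)).filter (fun m : ℕ => ¬ η / (8 * b) * L j ≤ (m : ℝ)),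
      |Lag (g j) s m * a m| ≤ Real.exp (L j * (2 * A + η / 2)) := by
    intro m hm
    rw [Finset.mem_filter, not_le, Finset.mem_range] at hm
    have h1 := hj s m hs
    rw [abs_mul]
    have e1 : Real.exp (L j * (2 * A + η / 4)) / (2 * A) ^ (2 * m) * 3 ^ (2 * m) =
        Real.exp (L j * (2 * A + η / 4)) * (3 / (2 * A)) ^ (2 * m) := by
      rw [div_pow]
      field_simp
    have e2 : (3 / (2 * A)) ^ (2 * m) = Real.exp ((2 * m : ℝ) * b) := by
      have h9 := Real.exp_nat_mul b (2 * m)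
      rw [hb, Real.exp_log (by linarith)] at h9
      rw [← h9, hb]
      push_cast
      rfl
    have h2 : (2 * m : ℝ) * b ≤ L j * (η / 4) := by
      have : (m : ℝ) * (8 * b) ≤ η * L j := by
        have := hm.2.le
        rw [div_mul_eq_mul_div, le_div_iff₀ (by positivity)] at this
        linarith
      linarith
    calc |Lag (g j) s m| * |a m| ≤ Real.exp (L j * (2 * A + η / 4)) / (2 * A) ^ (2 * m) * 3 ^ (2 * m) :=
          mul_le_mul h1 (ha m hm.1) (abs_nonneg _) (by positivity)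
      _ = Real.exp (L j * (2 * A + η / 4)) * Real.exp ((2 * m : ℝ) * b) := by rw [e1, e2]
      _ ≤ Real.exp (L j * (2 * A + η / 4)) * Real.exp (L j * (η / 4)) := by gcongr
      _ = _ := by rw [← Real.exp_add]; congr 1; ring
  have hcard : (((Finset.range (ML L j)).filter (fun m : ℕ => ¬ η / (8 * b) * L j ≤ (m : ℝ))).card : ℝ) ≤
      11 * L j := by
    refine le_trans ?_ (ML_le hL1)
    exact_mod_cast (Finset.card_filter_le _ _).trans (by simp)
  calc _ ≤ ∑ m ∈ (Finset.range (ML L j)).filter (fun m : ℕ => ¬ η / (8 * b) * L j ≤ (m : ℝ)),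
        Real.exp (L j * (2 * A + η / 2)) := Finset.sum_le_sum hterm
    _ = (((Finset.range (ML L j)).filter (fun m : ℕ => ¬ η / (8 * b) * L j ≤ (m : ℝ))).card : ℝ) *
        Real.exp (L j * (2 * A + η / 2)) := by rw [Finset.sum_const, nsmul_eq_mul]
    _ ≤ Real.exp (L j * (η / 4)) * Real.exp (L j * (2 * A + η / 2)) := by
        gcongr
        exact hcard.trans hlin
    _ ≤ _ := by
        rw [← Real.exp_add]
        apply Real.exp_le_exp.2
        nlinarith

theorem sl_c2 (hB2 : St_B2) (hB3 : St_B3) (h0a : Sl_C0a) (h0b : Sl_C0b) (h0c : Sl_C0c) : Sl_C2 := by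
  intro A g L h τ₀ hτ₀
  have hA0 := h.A0
  have hA1 := h.A1
  obtain ⟨ca, hca⟩ := h0a A g L h
  obtain ⟨τ, hτdef⟩ : ∃ τ : ℝ, τ = min τ₀ 1 := ⟨_, rfl⟩
  have hτ : 0 < τ := by rw [hτdef]; exact lt_min hτ₀ one_pos
  have hτ1 : τ ≤ 1 := by rw [hτdef]; exact min_le_right _ _
  have hττ : τ ≤ τ₀ := by rw [hτdef]; exact min_le_left _ _
  refine ⟨max ca (max (40 / (A * τ)) (max (11 / A ^ 2) 1)), fun c hc R => ?_⟩
  have hc1 : ca ≤ c := (le_max_left _ _).trans hc
  have hc2 : 40 / (A * τ) ≤ c := ((le_max_left _ _).trans (le_max_right _ _)).trans hc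
  have hc3 : 11 / A ^ 2 ≤ c :=
    (((le_max_left _ _).trans (le_max_right _ _)).trans (le_max_right _ _)).trans hc
  have hc4 : 1 ≤ c := (((le_max_right _ _).trans (le_max_right _ _)).trans (le_max_right _ _)).trans hc
  have hc0 : 0 < c := by linarith
  have hcA : 3 * (11 / 3 : ℝ) ≤ c * A ^ 2 := by
    rw [div_le_iff₀ (by positivity)] at hc3
    linarith
  have hcτ : 40 ≤ c * (A * τ) := by rwa [div_le_iff₀ (by positivity)] at hc2
  obtain ⟨h0, hh0def⟩ : ∃ h0 : ℝ, h0 = min (τ * A / 20) (τ / (2 * c)) := ⟨_, rfl⟩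
  have hh0 : 0 < h0 := by rw [hh0def]; exact lt_min (by positivity) (by positivity)
  have hh1 : h0 ≤ τ * A / 20 := by rw [hh0def]; exact min_le_left _ _
  have hh2 : h0 ≤ τ / (2 * c) := by rw [hh0def]; exact min_le_right _ _
  obtain ⟨η, hηdef⟩ : ∃ η : ℝ, η = h0 ^ 2 / 16 := ⟨_, rfl⟩
  have hη : 0 < η := by rw [hηdef]; positivity
  have hh3 : h0 ≤ 1 := by nlinarith
  have hη1 : η ≤ h0 / 16 := by rw [hηdef]; nlinarith
  have hη2 : η ≤ τ / (32 * c) := by
    have : τ / (2 * c) / 16 = τ / (32 * c) := by field_simp; norm_num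
    linarith
  obtain ⟨κ, hκ, hlow⟩ := low_suml h0c h (η := η / 4) (by positivity) R
  have h2c : 0 < 1 / (2 * c) := by positivity
  have hτc : 0 < τ / c := by positivity
  have e32 : τ / (32 * c) = τ / c / 32 := by field_simp
  have e2 : τ / (2 * c) = τ / c / 2 := by field_simp
  filter_upwards [hca c hc1 R, h0b A g L h R, hlow, h.pos κ hκ R, h.up1 (η / 8) (by positivity) R,
    h.lo1 (η / 8) (by positivity) R, h.lim.eventually_ge_atTop 1,
    exp_big (a := η / 2) (b := 3) (by positivity) L h.lim,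
    exp_big (a := τ / c / 2 / 2) (b := 12) (by positivity) L h.lim,
    exp_big (a := h0 ^ 2 / 2 - 2 * η) (b := 8) (by rw [hηdef]; nlinarith [sq_pos_of_pos hh0]) L h.lim]
    with j f1 f2 f3 f4 f5 f6 hL1 g1 g2 g3 s y hs hy1 hy2
  have hL0 : 0 < L j := by linarith
  have hN := ML_le3 hL1
  set N := ML L j with hNdef
  obtain ⟨Y, hYdef⟩ : ∃ Y : ℝ, Y = y - 1 / (2 * c) := ⟨_, rfl⟩
  have hyY : y = Y + 1 / (2 * c) := by rw [hYdef]; ring
  have e3 : (1 / 2 + τ₀) / c = 1 / (2 * c) + τ₀ / c := by field_simp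
  have hY1 : 2 * A + τ / c ≤ Y := by
    have : τ / c ≤ τ₀ / c := by gcongr
    rw [e3] at hy1
    linarith
  have hYA : 2 * A ≤ Y := by linarith
  have hY0 : 0 < Y := by linarith
  have hY2 : Y ≤ 2 := by linarith
  have hhY : h0 ≤ τ / 40 * Y := by nlinarith
  have hhY2 : h0 ≤ Y / 2 := by nlinarith
  set T := (Finset.range N).filter (fun m : ℕ => κ * L j ≤ (m : ℝ)) with hT
  have hsplit : ∀ a : ℕ → ℝ, ∑ m ∈ Finset.range N, Lag (g j) s m * a m =
      ∑ m ∈ T, Lag (g j) s m * a m +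
      ∑ m ∈ (Finset.range N).filter (fun m : ℕ => ¬ κ * L j ≤ (m : ℝ)), Lag (g j) s m * a m :=
    fun a => (Finset.sum_filter_add_sum_filter_not _ _ _).symm
  have hlowb : ∀ a : ℕ → ℝ, (∀ m, m < N → |a m| ≤ 3 ^ (2 * m)) →
      |∑ m ∈ (Finset.range N).filter (fun m : ℕ => ¬ κ * L j ≤ (m : ℝ)), Lag (g j) s m * a m| ≤
        Real.exp (L j * (2 * A + η / 4)) :=
    fun a ha => (Finset.abs_sum_le_sum_abs _ _).trans (f3 s hs a ha)
  have hpow : ∀ Z : ℝ, 0 ≤ Z → Z ≤ 3 → ∀ m, m < N → |Z ^ (2 * m)| ≤ 3 ^ (2 * m) := by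
    intro Z h1 h2 m _
    rw [abs_of_nonneg (by positivity)]
    gcongr
  -- the part of high order
  have hQ : ∀ Z : ℝ, 2 * A ≤ Z → Z ≤ 3 → |∑ m ∈ T, Lag (g j) s m * Z ^ (2 * m) - ‖g j (s + I * Z)‖ ^ 2| ≤
      1 + Real.exp (L j * (2 * A + η / 4)) := by
    intro Z h1 h2
    have h3 := f2 s Z hs (by rw [abs_of_nonneg (by linarith)]; exact h2)
    have h4 := hlowb (fun m => Z ^ (2 * m)) (hpow Z (by linarith) h2)
    have h5 := hsplit (fun m => Z ^ (2 * m))
    rw [h5] at h3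
    rw [abs_le] at h3 h4 ⊢
    constructor <;> linarith [h3.1, h3.2, h4.1, h4.2]
  have him : ∀ Z : ℝ, ((s : ℂ) + I * Z).im = Z := by intro Z; simp
  have hre : ∀ Z : ℝ, ((s : ℂ) + I * Z).re = s := by intro Z; simp
  have hup : ∀ Z : ℝ, 2 * A ≤ Z → Z ≤ 3 → ∑ m ∈ T, Lag (g j) s m * Z ^ (2 * m) ≤
      Real.exp (L j * (Z + η)) := by
    intro Z h1 h2
    have h3 := (abs_le.1 (hQ Z h1 h2)).2
    have h4 := f5 (s + I * Z) (by rw [hre]; exact hs) (by rw [him, abs_of_nonneg (by linarith)]; exact h1)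
      (by rw [him, abs_of_nonneg (by linarith)]; linarith)
    rw [him, abs_of_nonneg (by linarith)] at h4
    have h5 : ‖g j (s + I * Z)‖ ^ 2 ≤ Real.exp (L j * (Z + η / 4)) := by
      calc ‖g j (s + I * Z)‖ ^ 2 ≤ Real.exp (L j * (Z / 2 + η / 8)) ^ 2 := by gcongr
        _ = _ := by rw [← Real.exp_nat_mul]; congr 1; push_cast; ring
    have h6 : Real.exp (L j * (2 * A + η / 4)) ≤ Real.exp (L j * (Z + η / 4)) := by gcongr
    have h7 : 1 ≤ Real.exp (L j * (Z + η / 4)) := Real.one_le_exp (mul_nonneg hL0.le (by linarith))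
    have h8 : 3 * Real.exp (L j * (Z + η / 4)) ≤ Real.exp (L j * (Z + η)) := by
      calc 3 * Real.exp (L j * (Z + η / 4)) ≤ Real.exp (L j * (η / 2)) * Real.exp (L j * (Z + η / 4)) := by gcongr
        _ ≤ _ := by
          rw [← Real.exp_add]
          apply Real.exp_le_exp.2
          nlinarith
    linarith
  have hlo : Real.exp (L j * (Y - η)) / 2 ≤ ∑ m ∈ T, Lag (g j) s m * Y ^ (2 * m) := by
    have h3 := (abs_le.1 (hQ Y hYA (by linarith))).1
    have h4 := f6 (s + I * Y) (by rw [hre]; exact hs) (by rw [him]; linarith) (by rw [him]; linarith)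
    rw [him] at h4
    have h5 : Real.exp (L j * (Y - η / 4)) ≤ ‖g j (s + I * Y)‖ ^ 2 := by
      calc Real.exp (L j * (Y - η / 4)) = Real.exp (L j * (Y / 2 - η / 8)) ^ 2 := by
            rw [← Real.exp_nat_mul]; congr 1; push_cast; ring
        _ ≤ _ := by gcongr
    have h6 : 12 * Real.exp (L j * (2 * A + η / 4)) ≤ Real.exp (L j * (Y - η / 4)) := by
      calc 12 * Real.exp (L j * (2 * A + η / 4)) ≤
            Real.exp (L j * (τ / c / 2 / 2)) * Real.exp (L j * (2 * A + η / 4)) := by gcongr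
        _ ≤ _ := by
          rw [← Real.exp_add]
          apply Real.exp_le_exp.2
          have : τ / c / 2 / 2 + (2 * A + η / 4) ≤ Y - η / 4 := by linarith
          nlinarith
    have h7 : 1 ≤ Real.exp (L j * (2 * A + η / 4)) := Real.one_le_exp (by positivity)
    have h8 : Real.exp (L j * (Y - η)) ≤ Real.exp (L j * (Y - η / 4)) := by
      apply Real.exp_le_exp.2
      nlinarith
    linarith
  have hnear := near_sum (L := L j) (Y := Y) (h := h0) (η := η) (k := κ * L j) (N := N)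
    (q := fun m => Lag (g j) s m) hL0 hY0 hh0 hhY2 (fun m _ hm => f4 s hs m hm)
    (hup (Y + h0) (by linarith) (by linarith))
    (hup (Y - h0) (by linarith) (by linarith)) hlo (by
      have h1 : 2 * η - h0 ^ 2 / Y ≤ -(h0 ^ 2 / 2 - 2 * η) := by
        have : h0 ^ 2 / 2 ≤ h0 ^ 2 / Y := by gcongr
        linarith
      calc 8 * Real.exp (L j * (2 * η - h0 ^ 2 / Y)) ≤
            Real.exp (L j * (h0 ^ 2 / 2 - 2 * η)) * Real.exp (L j * (-(h0 ^ 2 / 2 - 2 * η))) := by gcongr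
        _ = 1 := by rw [← Real.exp_add]; ring_nf; exact Real.exp_zero)
  set Ne := T.filter (fun m : ℕ => |2 * (m : ℝ) - L j * Y| ≤ 2 * h0 * L j) with hNe
  -- positivity of the Hermite numbers
  have hvv : vv c L j / 2 = 1 / (c * L j) / 2 := rfl
  have hh : ∀ m, m < N → 0 < (hn (vv c L j / 2) y (2 * m)).re ∧
      (hn (vv c L j / 2) y (2 * m)).re ≤ y ^ (2 * m) := by
    intro m hm
    rw [hvv]
    exact hn_ok hB2 hA0 hc0 hL0 hcA hN hm (by linarith)
  have h10 : ∑ m ∈ Ne, Lag (g j) s m * (hn (vv c L j / 2) y (2 * m)).re ≤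
      ∑ m ∈ T, Lag (g j) s m * (hn (vv c L j / 2) y (2 * m)).re := by
    refine Finset.sum_le_sum_of_subset_of_nonneg (Finset.filter_subset _ _) fun m hm _ => ?_
    rw [hT, Finset.mem_filter, Finset.mem_range] at hm
    exact mul_nonneg (f4 s hs m hm.2) (hh m hm.1).1.le
  have h11 : (∑ m ∈ Ne, Lag (g j) s m * Y ^ (2 * m)) * Real.exp (L j * ((1 / 4 - τ / 4) / c)) ≤
      ∑ m ∈ Ne, Lag (g j) s m * (hn (vv c L j / 2) y (2 * m)).re := by
    rw [Finset.sum_mul]
    refine Finset.sum_le_sum fun m hm => ?_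
    rw [hNe, Finset.mem_filter, hT, Finset.mem_filter, Finset.mem_range] at hm
    rw [mul_assoc]
    refine mul_le_mul_of_nonneg_left ?_ (f4 s hs m hm.1.2)
    rw [hvv]
    refine near_hn hB3 hL0 hc0 hY0 hyY hh0 hhY hτ hτ1 ?_ hm.2
    nlinarith [mul_pos hc0 hτ]
  have h12 := hlowb (fun m => (hn (vv c L j / 2) y (2 * m)).re) (by
    intro m hm
    obtain ⟨a1, a2⟩ := hh m hm
    rw [abs_of_pos a1]
    refine a2.trans ?_
    have : 0 ≤ y := by linarith
    gcongr
    linarith)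
  have h13 := f1 s y hs (by rw [abs_of_nonneg (by linarith)]; exact hy2)
  rw [hsplit] at h13
  have h14 := (abs_le.1 h13).1
  have h15 := (abs_le.1 h12).1
  have h16 : Real.exp (L j * (Y - η)) / 4 * Real.exp (L j * ((1 / 4 - τ / 4) / c)) ≤
      ∑ m ∈ Ne, Lag (g j) s m * (hn (vv c L j / 2) y (2 * m)).re :=
    le_trans (mul_le_mul_of_nonneg_right hnear (Real.exp_pos _).le) h11
  -- the final comparison
  obtain ⟨X, hX⟩ : ∃ X : ℝ, X = y - (1 / 4 + τ) / c := ⟨_, rfl⟩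
  have e4 : (1 / 4 + τ) / c = 1 / (4 * c) + τ / c := by field_simp
  have e5 : (1 / 4 - τ / 4) / c = 1 / (4 * c) - τ / c / 4 := by field_simp
  have e6 : 1 / (2 * c) = 2 * (1 / (4 * c)) := by field_simp; norm_num
  have h4c : 0 < 1 / (4 * c) := by positivity
  have hX1 : 2 * A + 1 / (4 * c) ≤ X := by
    rw [hX, e4]
    rw [hyY]
    linarith
  have h17 : 12 * Real.exp (L j * X) ≤
      Real.exp (L j * (Y - η)) * Real.exp (L j * ((1 / 4 - τ / 4) / c)) := by
    calc 12 * Real.exp (L j * X) ≤ Real.exp (L j * (τ / c / 2 / 2)) * Real.exp (L j * X) := by gcongr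
      _ ≤ _ := by
        rw [← Real.exp_add, ← Real.exp_add]
        apply Real.exp_le_exp.2
        have : τ / c / 2 / 2 + X ≤ (Y - η) + (1 / 4 - τ / 4) / c := by
          rw [hX, e4, e5, hYdef, e6]
          linarith
        nlinarith
  have h18 : Real.exp (L j * (2 * A + η / 4)) ≤ Real.exp (L j * X) := by
    apply Real.exp_le_exp.2
    have h1 : η / 4 ≤ 1 / (4 * c) := by
      have : τ / (32 * c) ≤ 1 / (4 * c) := by
        rw [div_le_div_iff₀ (by positivity) (by positivity)]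
        nlinarith
      linarith
    have : 2 * A + η / 4 ≤ X := by linarith
    exact mul_le_mul_of_nonneg_left this hL0.le
  have h19 : 1 ≤ Real.exp (L j * X) := Real.one_le_exp (mul_nonneg hL0.le (by linarith))
  have h20 : Real.exp (L j * (y - (1 / 4 + τ₀) / c)) ≤ Real.exp (L j * X) := by
    apply Real.exp_le_exp.2
    refine mul_le_mul_of_nonneg_left ?_ hL0.le
    rw [hX]
    have : (1 / 4 + τ) / c ≤ (1 / 4 + τ₀) / c := by gcongr
    linarith
  linarith

end Pool.Agent.Helper75.LQ
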