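import Pool.Agent.Helper75.LQ.Sts
import Pool.Agent.Helper75.JE.Mas
import Pool.Agent.Helper85.LG.Fin

/-! Statements of the zeta part. -/

set_option autoImplicit false

open Complex MeasureTheory Filter Topology

namespace Pool.Agent.Helper75.LQ

open Pool.Agent.Helper75.JE Pool.Agent.Helper85.LG

/-- `ζ(1/2 + it) = O(t^(A + ε))` for every `ε > 0` -/
def UpA (A : ℝ) : Prop := ∀ ε > 0, ∃ C : ℝ, ∀ t : ℝ, 1 ≤ t → ‖riemannZeta (1 / 2 + t * I)‖ ≤ C * t ^ (A + ε)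

/-- all Laguerre inequalities of order `≥ κ log x` hold for large `x`, for every `κ > 0` -/
def LagH : Prop := ∀ κ > 0, ∃ X : ℝ, ∀ x : ℝ, X ≤ x → ∀ m : ℕ, κ * Real.log x ≤ m → 0 ≤ Lm x m

/-- the size of `xi (1/2 + ix)` without the zeta factor -/
noncomputable def Nx (x : ℝ) : ℝ := x * ‖Pg (1 / 2 + x * I)‖

/-- the exponent of the zeta function on the critical line is attained -/
def St_Z1 : Prop := ¬ LHyp → ∃ A : ℝ, 0 < A ∧ A ≤ 1 / 2 ∧ UpA A ∧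
  ∀ ε > 0, ∀ T : ℝ, ∃ t : ℝ, T ≤ t ∧ t ^ (A - ε) ≤ ‖riemannZeta (1 / 2 + t * I)‖

/-- zeros are at distance at most `2A` from the line if the Laguerre inequalities hold -/
def St_Z2 : Prop := ∀ A : ℝ, 0 ≤ A → A ≤ 1 / 2 → UpA A → LagH → ∀ δ > 0, Few (1 / 2 + (2 * A + δ))

/-- to the right of the zeros the zeta function is `t^(±ε)` -/
def St_Z3 : Prop := ∀ θ : ℝ, 1 / 2 ≤ θ → (∀ ε > 0, Few (θ + ε)) → ∀ σ > θ, ∀ ε : ℝ, 0 < ε → ∃ T : ℝ, ∀ s : ℂ,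
  σ ≤ s.re → s.re ≤ 10 → T ≤ s.im → s.im ^ (-ε) ≤ ‖riemannZeta s‖ ∧ ‖riemannZeta s‖ ≤ s.im ^ ε

/-- convexity -/
def St_Z4 : Prop := ∀ A : ℝ, 0 < A → A ≤ 1 / 2 → UpA A → (∀ ε > 0, Few (1 / 2 + (2 * A + ε))) → ∀ ε > 0,
  ∃ T : ℝ, ∀ s : ℂ, 1 / 2 ≤ s.re → s.re ≤ 1 / 2 + 2 * A → T ≤ s.im →
    ‖riemannZeta s‖ ≤ s.im ^ (A - (s.re - 1 / 2) / 2 + ε)

/-- the factor between `xi` and `ζ`, locally -/
def St_Z5 : Prop := ∀ R : ℝ, ∃ C X : ℝ, ∀ x : ℝ, X ≤ x → ∀ s y : ℝ, |s| ≤ R → 0 ≤ y → y ≤ 8 →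
  ‖xi (1 / 2 + y + (x + s) * I)‖ ≤ Real.exp C * x ^ (y / 2) * Nx x * ‖riemannZeta (1 / 2 + y + (x + s) * I)‖ ∧
  Real.exp (-C) * x ^ (y / 2) * Nx x * ‖riemannZeta (1 / 2 + y + (x + s) * I)‖ ≤
    ‖xi (1 / 2 + y + (x + s) * I)‖

/-- in the whole strip -/
def St_Z6 : Prop := ∃ C X : ℝ, ∀ x : ℝ, X ≤ x → ∀ s y : ℝ, |y| ≤ 8 →
  ‖xi (1 / 2 + y + (x + s) * I)‖ ≤ Nx x * Real.exp (C * Real.log x + C * |s|)

/-- in the whole plane -/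
def St_Z7 : Prop := ∀ δ > 0, ∃ B X : ℝ, ∀ x : ℝ, X ≤ x → ∀ w : ℂ,
  ‖xi (1 / 2 + w + x * I)‖ ≤ Nx x * Real.exp (Real.log x * (B + δ * ‖w‖ ^ 2))

/-- the direct part: few zeros give the Laguerre inequalities -/
def St_Z8 : Prop := (∀ ε > 0, Few (1 / 2 + ε)) → ∀ κ > 0, ∃ X : ℝ, ∀ x : ℝ, X ≤ x → ∀ m : ℕ,
  κ * Real.log x ≤ m → 0 < Lm x m

/-- the local sequences -/
def St_Z9 : Prop := LagH → ¬ LHyp → ∃ (A C : ℝ) (g : ℕ → ℂ → ℂ) (L : ℕ → ℝ), TS A C g L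

/-- the final theorem -/
def St_end : Prop := LagH ↔ ∀ ε > 0, Few (1 / 2 + ε)

theorem end_of (h9 : St_Z9) (hf : St_fin) (h2 : St_Z2) (h8 : St_Z8) : St_end := by
  constructor
  · intro hL
    have hLH : LHyp := by
      by_contra hn
      obtain ⟨A, C, g, L, h⟩ := h9 hL hn
      exact hf A C g L h
    intro ε hε
    have hU : UpA 0 := by
      intro δ hδ
      obtain ⟨C, hC⟩ := hLH δ hδ
      exact ⟨C, fun t ht => by rw [zero_add]; exact hC t ht⟩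
    have := h2 0 le_rfl (by norm_num) hU hL ε hε
    simpa using this
  · intro hF κ hκ
    obtain ⟨X, hX⟩ := h8 hF κ hκ
    exact ⟨X, fun x hx m hm => (hX x hx m hm).le⟩

end Pool.Agent.Helper75.LQ
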