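import Pool.Agent.Helper75.LQ.Fin
import Pool.Agent.Helper75.LQ.C2
import Pool.Agent.Helper75.LQ.Zs
import Pool.Agent.Helper82.LQ.A
import Pool.Agent.Helper82.LQ.D
import Pool.Agent.Helper8.LQ.B
import Pool.Agent.Helper8.LQ.A4
import Pool.Agent.Helper36.LQ.C0a
import Pool.Agent.Helper36.LQ.C1
import Pool.Agent.Helper36.LQ.C3
import Pool.Agent.Helper41.LQ.E1
import Pool.Agent.Helper41.LQ.G1
import Pool.Agent.Helper59.LQ.E23
import Pool.Agent.Helper59.LQ.Z9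
import Pool.Agent.Helper68.LQ.Z1
import Pool.Agent.Helper68.LQ.Z4
import Pool.Agent.Helper85.LQ.Z2
import Pool.Agent.Helper85.LQ.Z8

/-! Assembly of the base theorem. -/

set_option autoImplicit false

open Complex MeasureTheory Filter Topology

namespace Pool.Agent.Helper75.LQ

theorem hb1 : St_B1 := Pool.Agent.Helper8.LQ.st_b1
theorem hb2 : St_B2 := Pool.Agent.Helper8.LQ.st_b2
theorem hb3 : St_B3 := Pool.Agent.Helper8.LQ.st_b3
theorem hc0a : St_C0a := Pool.Agent.Helper36.LQ.st_c0a hb1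
theorem hc1 : St_C1 := Pool.Agent.Helper36.LQ.st_c1 hb1 hb2
theorem hc2 : St_C2 := st_c2 hb2 hb3 hc0a Pool.Agent.Helper36.LQ.st_c0b Pool.Agent.Helper36.LQ.st_c0c
theorem hc3 : St_C3 := Pool.Agent.Helper36.LQ.st_c3
theorem ha1 : St_A1 := Pool.Agent.Helper82.LQ.st_a1
theorem ha2 : St_A2 := Pool.Agent.Helper82.LQ.st_a2
theorem hd1 : St_D1 := Pool.Agent.Helper59.LQ.st_D1
theorem hd2 : St_D2 := Pool.Agent.Helper59.LQ.st_D2 ha2
theorem hd3 : St_D3 := Pool.Agent.Helper82.LQ.st_d3 hc2 hc3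
theorem hd4 : St_D4 := Pool.Agent.Helper82.LQ.st_d4 hc1 hc3
theorem he2 : St_E2 := Pool.Agent.Helper59.LQ.st_E2 Pool.Agent.Helper8.LQ.st_a4 hd1
theorem he3 : St_E3 := Pool.Agent.Helper59.LQ.st_E3 ha1 hd1 st_e1 he2
theorem hg2 : St_G2 := st_g2 hd3 hd4 he3

theorem fin_all : St_fin := fin_of ha1
  (fun A C g L h c hc => (Pool.Agent.Helper59.LQ.gr_of_TS h c hc).mono fun _ hj => hj.2) hd2 hd3 st_g1 hg2

theorem hz2 : St_Z2 := Pool.Agent.Helper85.LQ.st_z2 Pool.Agent.Helper68.LQ.st_Z3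

theorem hz9 : St_Z9 := Pool.Agent.Helper59.LQ.st_Z9 Pool.Agent.Helper68.LQ.st_Z1 hz2
  Pool.Agent.Helper68.LQ.st_Z3 Pool.Agent.Helper68.LQ.st_Z4

theorem end_all : St_end := end_of hz9 fin_all hz2 Pool.Agent.Helper85.LQ.st_z8


end Pool.Agent.Helper75.LQ
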