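import Pool.Agent.Helper75.LQ.Fin
import Pool.Agent.Helper75.LQ.Stl

/-! Package G2 and the contradiction, local version. -/

set_option autoImplicit false
set_option maxHeartbeats 2000000

open Complex MeasureTheory Filter Topology

namespace Pool.Agent.Helper75.LQ

theorem gr_of_TL {A : ℝ} {g : ℕ → ℂ → ℂ} {L : ℕ → ℝ} (h : TL A g L) (c : ℝ) (hc : 32 ≤ c) :
    ∀ᶠ j in atTop, Gr (g j) (vv c L j) := by
  obtain ⟨B, hB⟩ := h.glob 1 one_pos
  filter_upwards [hB, h.lim.eventually_gt_atTop 0] with j hj hL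
  have hc0 : 0 < c := by linarith
  refine ⟨Real.exp (L j * B), L j, (Real.exp_pos _).le, hL.le, ?_, fun z => ?_⟩
  · rw [vv]
    have e : 32 * L j * (1 / (c * L j)) = 32 / c := by field_simp
    rw [e, div_le_one hc0]
    exact hc
  · refine (hj z).trans (le_of_eq ?_)
    rw [← Real.exp_add]
    congr 1
    ring

theorem sl_g2 (hD3 : Sl_D3) (hD4 : Sl_D4) (hE3 : Sl_E3) : Sl_G2 := by
  intro A g L h
  have hA0 := h.A0
  have hA1 := h.A1
  obtain ⟨c3, hc3⟩ := hD3 A g L h (1 / 1000) (by norm_num)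
  obtain ⟨c4, hc4⟩ := hD4 A g L h
  obtain ⟨c5, hc5⟩ := hE3 A g L h
  refine ⟨max c3 (max c4 (max c5 (max (1 / A) 10))), fun c hc R => ?_⟩
  have k3 : c3 ≤ c := (le_max_left _ _).trans hc
  have k4 : c4 ≤ c := ((le_max_left _ _).trans (le_max_right _ _)).trans hc
  have k5 : c5 ≤ c := (((le_max_left _ _).trans (le_max_right _ _)).trans (le_max_right _ _)).trans hc
  have k6 : 1 / A ≤ c :=
    ((((le_max_left _ _).trans (le_max_right _ _)).trans (le_max_right _ _)).trans (le_max_right _ _)).trans hc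
  have k7 : 10 ≤ c :=
    ((((le_max_right _ _).trans (le_max_right _ _)).trans (le_max_right _ _)).trans (le_max_right _ _)).trans hc
  have hc0 : 0 < c := by linarith
  have hcA : 1 ≤ c * A := by rwa [div_le_iff₀ hA0] at k6
  -- `u = 1 / c`
  obtain ⟨u, hu⟩ : ∃ u : ℝ, u = 1 / c := ⟨_, rfl⟩
  have hu0 : 0 < u := by rw [hu]; positivity
  have huc : u * c = 1 := by rw [hu]; field_simp
  have hu1 : u ≤ 1 / 10 := by rw [hu]; apply one_div_le_one_div_of_le <;> linarith
  have huA : u ≤ A := by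
    have : u * 1 ≤ u * (c * A) := by gcongr
    nlinarith
  obtain ⟨b0, hb0⟩ : ∃ b0 : ℝ, b0 = u ^ 2 / 4000 := ⟨_, rfl⟩
  have hb00 : 0 < b0 := by rw [hb0]; positivity
  have hb1 : b0 ≤ u / 40000 := by rw [hb0]; nlinarith
  have hb2 : c * b0 = u / 4000 := by
    rw [hb0]
    calc c * (u ^ 2 / 4000) = (u * c) * u / 4000 := by ring
      _ = u / 4000 := by rw [huc]; ring
  filter_upwards [hc3 c k3 (|R| + 1), hc4 c k4 (u / 1000) (by positivity) (|R| + 1),
    hc5 c k5 (|R| + 1) (u / 500) b0 (u / 1000) (by positivity) (by positivity) (by linarith) hb00 (by positivity),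
    h.lim.eventually_ge_atTop 1, exp_big (a := u / 200) (b := 2) (by positivity) L h.lim]
    with j d3 d4 e3 hL1 g1 s y hs hy1 hy2
  have hL0 : 0 < L j := by linarith
  have hRR : |s| ≤ |R| := hs.trans (le_abs_self R)
  have e5 : 1 / (5 * c) = u / 5 := by rw [hu]; field_simp
  have e80 : 1 / (80 * c) = u / 80 := by rw [hu]; field_simp
  rw [e5] at hy1
  rw [e80]
  have hdiv : ∀ x : ℝ, x / c = x * u := by intro x; rw [hu]; field_simp
  have hsre : ∀ Z : ℝ, ((s : ℂ) + I * Z).re = s := by intro Z; simp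
  have hsim : ∀ Z : ℝ, ((s : ℂ) + I * Z).im = Z := by intro Z; simp
  rcases le_or_gt (2 * A + (1 / 2 + 1 / 1000) / c) y with hy3 | hy3
  · -- the plane wave
    have h1 := d3 (s + I * y) (by rw [hsre]; linarith) (by rw [hsim]; exact hy3) (by rw [hsim]; exact hy2)
    rw [hsim] at h1
    refine le_trans (Real.exp_le_exp.2 (mul_le_mul_of_nonneg_left ?_ hL0.le)) h1
    rw [hdiv] at hy3 ⊢
    linarith
  · rw [hdiv] at hy3
    obtain ⟨e, he⟩ : ∃ e : ℝ, e = y - 2 * A := ⟨_, rfl⟩
    have he1 : u / 5 ≤ e := by linarith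
    have he2 : e ≤ u * (501 / 1000) := by linarith
    obtain ⟨σ0, hσ0⟩ : ∃ σ0 : ℝ, σ0 = max (u * (502 / 1000) - e) (e + u / 500) := ⟨_, rfl⟩
    have hσa : u * (502 / 1000) - e ≤ σ0 := by rw [hσ0]; exact le_max_left _ _
    have hσb : e + u / 500 ≤ σ0 := by rw [hσ0]; exact le_max_right _ _
    have hσc : σ0 ≤ u * (503 / 1000) := by
      rw [hσ0]; exact max_le (by linarith) (by linarith)
    have hσpos : 0 < σ0 := by linarith
    -- the main inequality
    have hmain : u * (346 / 10000) ≤ (σ0 + e) / 2 - u / 8 - c * σ0 ^ 2 := by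
      have key : ∀ x : ℝ, c * (u * x) ^ 2 = u * x ^ 2 := by
        intro x
        calc c * (u * x) ^ 2 = (u * c) * (u * x ^ 2) := by ring
          _ = _ := by rw [huc]; ring
      obtain ⟨t, ht⟩ : ∃ t : ℝ, e = u * t := ⟨e * c, by rw [mul_comm e c, ← mul_assoc, huc, one_mul]⟩
      have ht1 : 1 / 5 ≤ t := by
        rw [ht] at he1
        have : u * (1 / 5) ≤ u * t := by linarith
        exact le_of_mul_le_mul_left this hu0
      have ht2 : t ≤ 501 / 1000 := by
        rw [ht] at he2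
        exact le_of_mul_le_mul_left he2 hu0
      rcases le_total (e + u / 500) (u * (502 / 1000) - e) with hh | hh
      · have e1 : σ0 = u * (502 / 1000 - t) := by rw [hσ0, max_eq_left hh, ht]; ring
        rw [e1, key, ht]
        have : u * (346 / 10000) ≤ u * ((502 / 1000) / 2 - 1 / 8 - (502 / 1000 - t) ^ 2) := by
          refine mul_le_mul_of_nonneg_left ?_ hu0.le
          rw [ht] at hh
          have h5 : t ≤ 1 / 4 := by
            have : u * (2 * t) ≤ u * (1 / 2) := by linarith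
            have := le_of_mul_le_mul_left this hu0
            linarith
          nlinarith
        linarith
      · have e1 : σ0 = u * (t + 1 / 500) := by rw [hσ0, max_eq_right hh, ht]; ring
        rw [e1, key, ht]
        have : u * (346 / 10000) ≤ u * ((2 * t + 1 / 500) / 2 - 1 / 8 - (t + 1 / 500) ^ 2) := by
          refine mul_le_mul_of_nonneg_left ?_ hu0.le
          rw [ht] at hh
          have h5 : 1 / 4 ≤ t := by
            have : u * (1 / 2) ≤ u * (2 * t) := by linarith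
            have := le_of_mul_le_mul_left this hu0
            linarith
          nlinarith
        linarith
    -- a point where `F` is large
    obtain ⟨z, hz1, hz2⟩ := e3 ((s : ℂ) + I * ((y - σ0 : ℝ) : ℂ)) (by rw [hsre]; linarith) (by
      rw [hsim, abs_le]
      constructor
      · linarith
      · linarith)
    obtain ⟨b, hb⟩ : ∃ b : ℝ, b = z.re - s := ⟨_, rfl⟩
    obtain ⟨σ, hσ⟩ : ∃ σ : ℝ, σ = y - z.im := ⟨_, rfl⟩
    have hbabs : |b| ≤ b0 := by
      have h1 := Complex.abs_re_le_norm (z - ((s : ℂ) + I * ((y - σ0 : ℝ) : ℂ)))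
      rw [sub_re, hsre] at h1
      rw [hb]
      linarith
    have hσabs : |σ - σ0| ≤ b0 := by
      have h1 := Complex.abs_im_le_norm (z - ((s : ℂ) + I * ((y - σ0 : ℝ) : ℂ)))
      rw [sub_im, hsim] at h1
      have e1 : σ - σ0 = -(z.im - (y - σ0)) := by rw [hσ]; ring
      rw [e1, abs_neg]
      linarith
    obtain ⟨hσ1, hσ2⟩ := abs_le.1 hσabs
    have hσ0' : 0 ≤ σ := by linarith
    have hD := d4 s y b σ (by linarith) (by linarith) hy2 (by linarith) (by rw [abs_of_nonneg hσ0']; linarith)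
    -- the two factors
    have hz3 : z = (starRingEnd ℂ) ((s : ℂ) + b + I * (σ - y)) := by
      apply Complex.ext
      · simp [hb]
      · simp [hσ]
    have hf2 : Real.exp (L j * (A - u / 1000)) ≤ ‖F (g j) (vv c L j) ((s : ℂ) + b + I * (σ - y))‖ := by
      rw [← norm_F_conj (h.re j), ← hz3]
      exact hz2
    have hre1 : ((s : ℂ) + b + I * (σ + y)).re = s + b := by simp
    have him1 : ((s : ℂ) + b + I * (σ + y)).im = σ + y := by simp
    have hsb : |s + b| ≤ |R| + 1 := (abs_add_le _ _).trans (by linarith)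
    have hf1 := d3 ((s : ℂ) + b + I * (σ + y)) (by rw [hre1]; exact hsb)
      (by rw [him1, hdiv]; linarith) (by rw [him1]; linarith)
    rw [him1, hdiv] at hf1
    have hprod : Real.exp (L j * ((σ + y) / 2 - (1 / 8 + 1 / 1000) * u)) * Real.exp (L j * (A - u / 1000)) ≤
        Real.exp (L j * (c * σ ^ 2 + 2 * c * |b|)) *
          (‖F (g j) (vv c L j) (s + I * y)‖ ^ 2 + Real.exp (L j * (2 * A + u / 1000))) :=
      (mul_le_mul hf1 hf2 (Real.exp_pos _).le (norm_nonneg _)).trans hD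
    -- exponents
    have hcσ : c * σ ^ 2 ≤ c * σ0 ^ 2 + u / 2000 := by
      have h1 : σ ^ 2 ≤ (σ0 + b0) ^ 2 := by
        apply pow_le_pow_left₀ hσ0'
        linarith
      have h2 : c * σ ^ 2 ≤ c * (σ0 + b0) ^ 2 := by gcongr
      have h3 : c * (σ0 + b0) ^ 2 = c * σ0 ^ 2 + (c * b0) * (2 * σ0 + b0) := by ring
      rw [h3, hb2] at h2
      have h4 : 2 * σ0 + b0 ≤ 1 := by linarith
      nlinarith
    have hcb : 2 * c * |b| ≤ u / 2000 := by
      have : 2 * c * |b| ≤ 2 * c * b0 := by gcongr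
      nlinarith
    have hexp : 2 * A + u * (3 / 100) ≤ ((σ + y) / 2 - (1 / 8 + 1 / 1000) * u) + (A - u / 1000) -
        (c * σ ^ 2 + 2 * c * |b|) := by
      have : y = 2 * A + e := by rw [he]; ring
      rw [this]
      linarith
    have h20 : Real.exp (L j * (2 * A + u * (3 / 100))) ≤
        ‖F (g j) (vv c L j) (s + I * y)‖ ^ 2 + Real.exp (L j * (2 * A + u / 1000)) := by
      have hp := Real.exp_pos (L j * (c * σ ^ 2 + 2 * c * |b|))
      refine le_of_mul_le_mul_left (le_trans ?_ hprod) hp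
      rw [← Real.exp_add, ← Real.exp_add]
      apply Real.exp_le_exp.2
      nlinarith
    have h21 : 2 * Real.exp (L j * (2 * A + u / 40)) ≤ Real.exp (L j * (2 * A + u * (3 / 100))) := by
      calc 2 * Real.exp (L j * (2 * A + u / 40)) ≤ Real.exp (L j * (u / 200)) * Real.exp (L j * (2 * A + u / 40)) := by
            gcongr
        _ = _ := by rw [← Real.exp_add]; congr 1; ring
    have h22 : Real.exp (L j * (2 * A + u / 1000)) ≤ Real.exp (L j * (2 * A + u / 40)) := by
      apply Real.exp_le_exp.2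
      refine mul_le_mul_of_nonneg_left ?_ hL0.le
      linarith
    have h23 : Real.exp (L j * (A + u / 80)) ^ 2 ≤ ‖F (g j) (vv c L j) (s + I * y)‖ ^ 2 := by
      have : Real.exp (L j * (A + u / 80)) ^ 2 = Real.exp (L j * (2 * A + u / 40)) := by
        rw [← Real.exp_nat_mul]; congr 1; push_cast; ring
      rw [this]
      linarith
    exact (pow_le_pow_iff_left₀ (Real.exp_pos _).le (norm_nonneg _) two_ne_zero).1 h23

theorem finl_of (hA1 : St_A1) (hgr : ∀ (A : ℝ) (g : ℕ → ℂ → ℂ) (L : ℕ → ℝ), TL A g L → ∀ c : ℝ, 32 ≤ c →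
      ∀ᶠ j in atTop, Gr (g j) (vv c L j))
    (hD2 : Sl_D2) (hD3 : Sl_D3) (hG1 : St_G1) (hG2 : Sl_G2) : Sl_fin := by
  intro A g L h
  have hA0 := h.A0
  have hAh := h.A1
  obtain ⟨c2, hc2⟩ := hD2 A g L h
  obtain ⟨c3, hc3⟩ := hD3 A g L h (1 / 1000) (by norm_num)
  obtain ⟨c4, hc4⟩ := hG2 A g L h
  obtain ⟨c, hcdef⟩ : ∃ c : ℝ, c = max c2 (max c3 (max c4 (max (1 / A) 32))) := ⟨_, rfl⟩
  have k2 : c2 ≤ c := by rw [hcdef]; exact le_max_left _ _
  have k3 : c3 ≤ c := by rw [hcdef]; exact (le_max_left _ _).trans (le_max_right _ _)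
  have k4 : c4 ≤ c := by
    rw [hcdef]; exact ((le_max_left _ _).trans (le_max_right _ _)).trans (le_max_right _ _)
  have k7 : 32 ≤ c := by
    rw [hcdef]
    exact (((le_max_right _ _).trans (le_max_right _ _)).trans (le_max_right _ _)).trans (le_max_right _ _)
  have hc0 : 0 < c := by linarith
  obtain ⟨u, hu⟩ : ∃ u : ℝ, u = 1 / c := ⟨_, rfl⟩
  have hu0 : 0 < u := by rw [hu]; positivity
  have hu1 : u ≤ 1 / 10 := by rw [hu]; apply one_div_le_one_div_of_le <;> linarith
  have hdiv : ∀ x : ℝ, x / c = x * u := by intro x; rw [hu]; field_simp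
  have e5 : 1 / (5 * c) = u / 5 := by rw [hu]; field_simp
  have e80 : 1 / (80 * c) = u / 80 := by rw [hu]; field_simp
  have e8 : 1 / (8 * c) = u / 8 := by rw [hu]; field_simp
  have e2 : 1 / (2 * c) = u / 2 := by rw [hu]; field_simp
  obtain ⟨R, hR0, hR⟩ := hG1 (2 * A + u / 5) (2 * A + u * (501 / 1000)) 2 (A + u / 80)
    (1 - u * (126 / 1000)) 0 (u / 1000) (by linarith) (by linarith) (by positivity)
  have hev := (hgr A g L h c k7).and ((hc2 c k2 (u / 1000) (by positivity) 0).and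
    ((hc3 c k3 R).and ((hc4 c k4 R).and (h.lim.eventually_ge_atTop 1))))
  obtain ⟨j, jgr, j2, j3, j4, hL1⟩ := hev.exists
  have hL0 : 0 < L j := by linarith
  have hv : 0 < vv c L j := by rw [vv]; positivity
  have hdiff : Differentiable ℂ (F (g j) (vv c L j)) := hA1 (g j) (vv c L j) (h.ent j) hv jgr
  have hform : ∀ z : ℂ, z = (z.re : ℂ) + I * (z.im : ℂ) := by
    intro z
    apply Complex.ext <;> simp
  have hlow : ∀ z : ℂ, |z.re| ≤ R → 2 * A + u / 5 ≤ z.im → z.im ≤ 2 →
      Real.exp (L j * (A + u / 80)) ≤ ‖F (g j) (vv c L j) z‖ := by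
    intro z h1 h2 h3
    have h4 := j4 z.re z.im h1 (by rw [e5]; exact h2) h3
    rw [← hform z, e80] at h4
    exact h4
  have hG := hR (F (g j) (vv c L j)) (L j) hL0 hdiff (fun z h1 h2 h3 => by
      refine le_trans ?_ (hlow z h1 h2 h3)
      apply Real.exp_le_exp.2
      have : 0 ≤ L j * (A + u / 80) := by positivity
      linarith) (fun z h1 h2 => hlow z h1 (by rw [h2]) (by rw [h2]; linarith)) (fun z h1 h2 => by
      have h3 := j3 z h1 (by rw [hdiv, h2]; linarith) (by rw [h2])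
      rw [hdiv, h2] at h3
      refine le_trans (Real.exp_le_exp.2 ?_) h3
      refine mul_le_mul_of_nonneg_left ?_ hL0.le
      linarith)
  have him : (I * ((2 * A + u * (501 / 1000) : ℝ) : ℂ)).im = 2 * A + u * (501 / 1000) := by simp
  have hre : (I * ((2 * A + u * (501 / 1000) : ℝ) : ℂ)).re = 0 := by simp
  have hU := j2 (I * ((2 * A + u * (501 / 1000) : ℝ) : ℂ)) (by rw [hre]; simp)
    (by rw [him, e2]; linarith) (by rw [him]; linarith)
  rw [him, e8] at hU
  have hcmp := Real.exp_le_exp.1 (hG.trans hU)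
  have hcmp2 := le_of_mul_le_mul_left hcmp hL0
  have hD : 0 < 2 - (2 * A + u / 5) := by linarith
  have key : (2 - (2 * A + u * (501 / 1000))) * (A + u / 80) +
      ((2 * A + u * (501 / 1000)) - (2 * A + u / 5)) * (1 - u * (126 / 1000)) ≤
      ((2 * A + u * (501 / 1000)) / 2 - u / 8 + u / 1000 + u / 1000) * (2 - (2 * A + u / 5)) := by
    have h1 : (2 - (2 * A + u * (501 / 1000))) / (2 - (2 * A + u / 5)) * (A + u / 80) +
        ((2 * A + u * (501 / 1000)) - (2 * A + u / 5)) / (2 - (2 * A + u / 5)) * (1 - u * (126 / 1000)) ≤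
        (2 * A + u * (501 / 1000)) / 2 - u / 8 + u / 1000 + u / 1000 := by linarith
    have h2 := mul_le_mul_of_nonneg_right h1 hD.le
    rwa [div_aux _ _ _ _ hD.ne'] at h2
  nlinarith [mul_pos hu0 (show 0 < 1 - A by linarith)]

end Pool.Agent.Helper75.LQ
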