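import Pool.Agent.Helper75.LQ.Zs

/-! Statements for the linear law: the Laguerre threshold and the zero-free half-plane determine each other up
to a constant factor. -/

set_option autoImplicit false

open Complex MeasureTheory Filter Topology

namespace Pool.Agent.Helper75.LQ

open Pool.Agent.Helper75.JE Pool.Agent.Helper85.LG

/-- the Laguerre inequalities of order `≥ c log x` hold for large `x` -/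
def LagC (c : ℝ) : Prop := ∃ X : ℝ, ∀ x : ℝ, X ≤ x → ∀ m : ℕ, c * Real.log x ≤ m → 0 ≤ Lm x m

/-- `TS` up to an error `ε`; `B` controls the growth in the plane -/
structure TSe (A C : ℝ) (B : ℝ → ℝ) (ε : ℝ) (g : ℕ → ℂ → ℂ) (L : ℕ → ℝ) : Prop where
  lim : Tendsto L atTop atTop
  ent : ∀ j, Differentiable ℂ (g j)
  re : ∀ j z, g j ((starRingEnd ℂ) z) = (starRingEnd ℂ) (g j z)
  up0 : ∀ R : ℝ, ∀ᶠ j in atTop, ∀ z : ℂ, |z.re| ≤ R → |z.im| ≤ 2 * A → ‖g j z‖ ≤ Real.exp (L j * (A + ε))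
  up1 : ∀ R : ℝ, ∀ᶠ j in atTop, ∀ z : ℂ, |z.re| ≤ R → 2 * A ≤ |z.im| → |z.im| ≤ 8 →
    ‖g j z‖ ≤ Real.exp (L j * (|z.im| / 2 + ε))
  lo1 : ∀ R : ℝ, ∀ᶠ j in atTop, ∀ z : ℂ, |z.re| ≤ R → 2 * A + ε ≤ z.im → z.im ≤ 8 →
    Real.exp (L j * (z.im / 2 - ε)) ≤ ‖g j z‖
  big : ∀ᶠ j in atTop, Real.exp (L j * (A - ε)) ≤ ‖g j 0‖
  strip : ∀ᶠ j in atTop, ∀ z : ℂ, |z.im| ≤ 8 → ‖g j z‖ ≤ Real.exp (C * L j + C * |z.re|)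
  glob : ∀ δ > 0, ∀ᶠ j in atTop, ∀ z : ℂ, ‖g j z‖ ≤ Real.exp (L j * (B δ + δ * ‖z‖ ^ 2))
  pos : ∀ R : ℝ, ∀ᶠ j in atTop, ∀ s : ℝ, |s| ≤ R → ∀ m : ℕ, ε * L j ≤ m → 0 ≤ Lag (g j) s m

/-- direct part, general `θ` -/
def St_L0 : Prop := ∀ θ c : ℝ, Few θ → 0 < c → (θ - 1 / 2) / 2 < c → ∃ X : ℝ, ∀ x : ℝ, X ≤ x → ∀ m : ℕ,
  c * Real.log x ≤ m → 0 < Lm x m

/-- converse under the growth condition -/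
def St_L1 : Prop := ∀ θ : ℝ, 1 / 2 ≤ θ → θ ≤ 1 → Pool.Agent.Helper75.JE.Gr θ → (∀ c > (θ - 1 / 2) / 2, LagC c) → ∀ ε > 0, Few (θ + ε)

/-- Core of the argument of `Z2`, with `κ`: if the rightmost zeros are at distance `b` (in the limit), then
`b ≤ 2A + r + 2κ log (b/r)` for every `0 < r ≤ b`. -/
def St_L2 : Prop := ∀ A κ r b : ℝ, 0 ≤ A → A ≤ 1 / 2 → 0 ≤ κ → 0 < r → r ≤ b → b ≤ 1 / 2 → UpA A →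
  (∀ c > κ, LagC c) → (∀ ε > 0, Few (1 / 2 + (b + ε))) → 2 * A + r + 2 * κ * Real.log (b / r) < b →
    ∃ b' < b, Few (1 / 2 + b')

/-- the factor between `xi` and `ζ` in the plane, refined: `C` is absolute -/
def St_L5 : Prop := ∃ C : ℝ, 1 ≤ C ∧ ∀ A : ℝ, 0 ≤ A → A ≤ 1 / 2 → UpA A → ∀ ε : ℝ, 0 < ε → ∃ X : ℝ, ∀ x : ℝ, X ≤ x →
  ∀ w : ℂ, ‖xi (1 / 2 + w + x * I)‖ ≤ Nx x * Real.exp (Real.log x * (A + ε + |w.re| / 2) + C * ‖w‖ * Real.sqrt (1 + ‖w‖))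

/-- The rescaled local sequences: `g j z = xi (1/2 + i (x_j + 2 A z)) / Nx x_j`, `L j = 2 A log x_j`. -/
def St_L3 : Prop := ∃ (C : ℝ) (B : ℝ → ℝ), 10 ≤ C ∧ ∀ ε : ℝ, 0 < ε → ∃ ρ : ℝ, 0 < ρ ∧ ∀ A κ : ℝ, 0 < A → A ≤ 1 / 2 →
  0 ≤ κ → κ ≤ ρ * A → UpA A → (∀ δ > 0, ∀ T : ℝ, ∃ t : ℝ, T ≤ t ∧ t ^ (A - δ) ≤ ‖riemannZeta (1 / 2 + t * I)‖) →
    (∀ c > κ, LagC c) → ∃ (g : ℕ → ℂ → ℂ) (L : ℕ → ℝ), TSe (1 / 2) C B ε g L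

/-- no such sequence for small `ε` (diagonal argument from `St_fin`) -/
def St_L4 : Prop := ∀ (A C : ℝ) (B : ℝ → ℝ), 0 < A → A ≤ 1 / 2 → 10 ≤ C → ∃ ε : ℝ, 0 < ε ∧
  ∀ (g : ℕ → ℂ → ℂ) (L : ℕ → ℝ), ¬ TSe A C B ε g L

/-- the linear law -/
def St_lin : Prop := ∃ K : ℝ, 0 < K ∧ ∀ κ : ℝ, 0 ≤ κ → (∀ c > κ, LagC c) →
  UpA (K * κ) ∧ ∀ ε > 0, Few (1 / 2 + (K * κ + ε))

end Pool.Agent.Helper75.LQ
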