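import Pool.Agent.Helper75.LQ.Stl
import Pool.Agent.Helper75.LQ.Lin

/-! Statements for the LOCAL linear law: zero-free boxes and Laguerre inequalities near the same height. -/

set_option autoImplicit false

open Complex MeasureTheory Filter Topology

namespace Pool.Agent.Helper75.LQ

open Pool.Agent.Helper75.JE Pool.Agent.Helper85.LG

/-- bound on the critical line near the height `x` -/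
def LineB (A x R : ℝ) : Prop := ∀ t : ℝ, |t - x| ≤ R → ‖riemannZeta (1 / 2 + t * I)‖ ≤ x ^ A

/-- no zeros with `Re s > 1/2 + B` and `|Im s - x| ≤ R` -/
def NoZ (B x R : ℝ) : Prop := ∀ s : ℂ, riemannZeta s = 0 → |s.im - x| ≤ R → s.re ≤ 1 / 2 + B

/-- the Laguerre inequalities of order `≥ κ log x` near `x` -/
def LagX (κ x R : ℝ) : Prop := ∀ x' : ℝ, |x' - x| ≤ R → ∀ m : ℕ, κ * Real.log x ≤ m → 0 ≤ Lm x' m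

/-- growth to the right of the critical line -/
def St_Y1 : Prop := ∀ A r η : ℝ, 0 ≤ A → A ≤ 1 → 0 < η → ∃ R : ℝ, ∀ x : ℝ, R ≤ x → LineB A x R →
  ∀ s : ℂ, 1 / 2 ≤ s.re → |s.im - x| ≤ r → ‖riemannZeta s‖ ≤ x ^ (A + η)

/-- two-sided bounds to the right of the zeros -/
def St_Y2 : Prop := ∀ B r η : ℝ, 0 ≤ B → 0 < η → ∃ R : ℝ, ∀ x : ℝ, R ≤ x → NoZ B x R →
  ∀ s : ℂ, 1 / 2 + B + η ≤ s.re → s.re ≤ 10 → |s.im - x| ≤ r → x ^ (-η) ≤ ‖riemannZeta s‖ ∧ ‖riemannZeta s‖ ≤ x ^ η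

/-- convexity -/
def St_Y3 : Prop := ∀ A B r η : ℝ, 0 ≤ A → A ≤ 1 → 0 < B → 0 < η → ∃ R : ℝ, ∀ x : ℝ, R ≤ x →
  LineB A x R → NoZ B x R → ∀ s : ℂ, 1 / 2 ≤ s.re → s.re ≤ 1 / 2 + B → |s.im - x| ≤ r →
    ‖riemannZeta s‖ ≤ x ^ (A * (1 - (s.re - 1 / 2) / B) + η)

/-- the core: the Laguerre inequalities push the zeros to the left -/
def St_Y4 : Prop := ∀ A κ r B : ℝ, 0 ≤ A → A ≤ 1 / 2 → 0 ≤ κ → 0 < r → r ≤ B → B ≤ 1 / 2 →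
  2 * A + r + 2 * κ * Real.log (B / r) < B → ∃ τ : ℝ, 0 < τ ∧ τ < B ∧ ∃ R : ℝ, ∀ x : ℝ, R ≤ x →
    LineB (A + τ) x R → NoZ (B + τ) x R → LagX (κ + τ) x 2 → NoZ (B - τ) x 1

/-- the direct part: a zero-free box gives the Laguerre inequalities -/
def St_Y5 : Prop := ∀ B κ : ℝ, 0 < κ → B < 2 * κ → ∃ R : ℝ, ∀ x : ℝ, R ≤ x → NoZ B x R → ∀ m : ℕ,
  κ * Real.log x ≤ m → 0 < Lm x m

/-- sequences of windows -/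
def ULine (A : ℝ) (x : ℕ → ℝ) : Prop := ∀ η > 0, ∀ R : ℝ, ∀ᶠ j in atTop, LineB (A + η) (x j) R
def UNoZ (B : ℝ) (x : ℕ → ℝ) : Prop := ∀ η > 0, ∀ R : ℝ, ∀ᶠ j in atTop, NoZ (B + η) (x j) R
def ULag (κ : ℝ) (x : ℕ → ℝ) : Prop := ∀ η > 0, ∀ R : ℝ, ∀ᶠ j in atTop, LagX (κ + η) (x j) R

/-- `TL` up to an error `ε`; `B` controls the growth in the plane -/
structure TLe (A : ℝ) (B : ℝ → ℝ) (ε : ℝ) (g : ℕ → ℂ → ℂ) (L : ℕ → ℝ) : Prop where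
  lim : Tendsto L atTop atTop
  ent : ∀ j, Differentiable ℂ (g j)
  re : ∀ j z, g j ((starRingEnd ℂ) z) = (starRingEnd ℂ) (g j z)
  up0 : ∀ R : ℝ, ∀ᶠ j in atTop, ∀ z : ℂ, |z.re| ≤ R → |z.im| ≤ 2 * A → ‖g j z‖ ≤ Real.exp (L j * (A + ε))
  up1 : ∀ R : ℝ, ∀ᶠ j in atTop, ∀ z : ℂ, |z.re| ≤ R → 2 * A ≤ |z.im| → |z.im| ≤ 8 →
    ‖g j z‖ ≤ Real.exp (L j * (|z.im| / 2 + ε))
  lo1 : ∀ R : ℝ, ∀ᶠ j in atTop, ∀ z : ℂ, |z.re| ≤ R → 2 * A + ε ≤ z.im → z.im ≤ 8 →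
    Real.exp (L j * (z.im / 2 - ε)) ≤ ‖g j z‖
  big : ∀ᶠ j in atTop, Real.exp (L j * (A - ε)) ≤ ‖g j 0‖
  glob : ∀ δ > 0, ∀ᶠ j in atTop, ∀ z : ℂ, ‖g j z‖ ≤ Real.exp (L j * (B δ + δ * ‖z‖ ^ 2))
  pos : ∀ R : ℝ, ∀ᶠ j in atTop, ∀ s : ℝ, |s| ≤ R → ∀ m : ℕ, ε * L j ≤ m → 0 ≤ Lag (g j) s m

/-- diagonal argument from `Sl_fin` -/
def St_Y7 : Prop := ∀ (A : ℝ) (B : ℝ → ℝ), 0 < A → A ≤ 1 / 2 → ∃ ε : ℝ, 0 < ε ∧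
  ∀ (g : ℕ → ℂ → ℂ) (L : ℕ → ℝ), ¬ TLe A B ε g L

/-- The rescaled sequences: `g j z = xi (1/2 + i (t_j + 2 A z)) / Nx t_j`, `L j = 2 A log t_j`. -/
def St_Y6 : Prop := ∃ B : ℝ → ℝ, ∀ ε : ℝ, 0 < ε → ∃ ρ : ℝ, 0 < ρ ∧ ∀ (A κ : ℝ) (t : ℕ → ℝ), 0 < A → A ≤ 1 / 2 →
  0 ≤ κ → κ ≤ ρ * A → Tendsto t atTop atTop → ULine A t → UNoZ (2 * A * (1 + ρ)) t → ULag κ t →
    (∀ δ > 0, ∀ᶠ j in atTop, (t j) ^ (A - δ) ≤ ‖riemannZeta (1 / 2 + (t j) * I)‖) →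
      ∃ (g : ℕ → ℂ → ℂ) (L : ℕ → ℝ), TLe (1 / 2) B ε g L

/-- **The local linear law.** -/
def St_loc : Prop := ∃ K : ℝ, 0 < K ∧ ∀ κ : ℝ, 0 < κ → ∃ R : ℝ, ∀ x : ℝ, R ≤ x → LagX κ x R →
  NoZ (K * κ) x 1 ∧ LineB (K * κ) x 1

end Pool.Agent.Helper75.LQ
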