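import Pool.Agent.Helper75.LQ.LocFin
import Pool.Agent.Helper75.LQ.Finl
import Pool.Agent.Helper75.LQ.C2l
import Pool.Agent.Helper75.LQ.End
import Pool.Agent.Helper36.LQ.Sl
import Pool.Agent.Helper59.LQ.Dl
import Pool.Agent.Helper59.LQ.Y6
import Pool.Agent.Helper68.LQ.Y13
import Pool.Agent.Helper82.LQ.Y7
import Pool.Agent.Helper85.LQ.Y25
import Pool.Agent.Helper85.LQ.Y4
import Pool.Agent.Helper8.LQ.Dl

/-! The local linear law. -/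

set_option autoImplicit false

open Complex MeasureTheory Filter Topology

namespace Pool.Agent.Helper75.LQ

theorem hy1 : St_Y1 := Pool.Agent.Helper68.LQ.st_Y1
theorem hy2 : St_Y2 := Pool.Agent.Helper85.LQ.st_Y2
theorem hy3 : St_Y3 := Pool.Agent.Helper68.LQ.st_Y3 hy2
theorem hy4 : St_Y4 := Pool.Agent.Helper85.LQ.st_Y4 hy1
theorem hy5 : St_Y5 := Pool.Agent.Helper85.LQ.st_Y5
theorem hy6 : St_Y6 := Pool.Agent.Helper59.LQ.st_Y6 hy1 hy2 hy3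

theorem lc0a : Sl_C0a := Pool.Agent.Helper36.LQ.sl_c0a hb1
theorem lc1 : Sl_C1 := Pool.Agent.Helper36.LQ.sl_c1 hb1 hb2
theorem lc2 : Sl_C2 := sl_c2 hb2 hb3 lc0a Pool.Agent.Helper36.LQ.sl_c0b Pool.Agent.Helper36.LQ.sl_c0c
theorem lc3 : Sl_C3 := Pool.Agent.Helper36.LQ.sl_c3
theorem ld1 : Sl_D1 := Pool.Agent.Helper59.LQ.sl_D1
theorem ld2 : Sl_D2 := Pool.Agent.Helper59.LQ.sl_D2 ha2
theorem le2 : Sl_E2 := Pool.Agent.Helper59.LQ.sl_E2 Pool.Agent.Helper8.LQ.st_a4 ld1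
theorem le3 : Sl_E3 := Pool.Agent.Helper59.LQ.sl_E3 ha1 ld1 st_e1 le2

theorem finl_all' (hD3 : Sl_D3) (hD4 : Sl_D4) : Sl_fin :=
  finl_of ha1 (fun _ _ _ h c hc => gr_of_TL h c hc) ld2 hD3 st_g1 (sl_g2 hD3 hD4 le3)

theorem loc_all' (hD3 : Sl_D3) (hD4 : Sl_D4) : St_loc :=
  loc_of hy4 hy6 (Pool.Agent.Helper82.LQ.st_y7 (finl_all' hD3 hD4))

theorem ld3 : Sl_D3 := Pool.Agent.Helper8.LQ.sl_d3 lc2 lc3
theorem ld4 : Sl_D4 := Pool.Agent.Helper8.LQ.sl_d4 lc1 lc3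

/-- **The local linear law** -/
theorem loc_all : St_loc := loc_all' ld3 ld4


end Pool.Agent.Helper75.LQ
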