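import Pool.Agent.Helper75.LQ.LocAll
import Pool.Agent.Helper75.LQ.Dens

/-! The global law from the local law, and counting functions. -/

set_option autoImplicit false
set_option maxHeartbeats 1000000

open Complex MeasureTheory Filter Topology

namespace Pool.Agent.Helper75.LQ

open Pool.Agent.Helper75.JE Pool.Agent.Helper85.LG

/-- the local law with constant `K` -/
def LocK (K : ℝ) : Prop := ∀ κ : ℝ, 0 < κ → ∃ R : ℝ, ∀ x : ℝ, R ≤ x → LagX κ x R → NoZ (K * κ) x 1 ∧ LineB (K * κ) x 1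

lemma few_of_noZ {B X : ℝ} (h : ∀ x : ℝ, X ≤ x → NoZ B x 1) : Few (1 / 2 + B) := by
  refine ⟨X, fun s hs him => ?_⟩
  rcases le_total 0 s.im with h0 | h0
  · rw [abs_of_nonneg h0] at him
    exact h s.im him s hs (by simp)
  · rw [abs_of_nonpos h0] at him
    have h1 : riemannZeta ((starRingEnd ℂ) s) = 0 := by rw [riemannZeta_conj, hs, map_zero]
    have h2 := h (-s.im) him ((starRingEnd ℂ) s) h1 (by simp)
    simpa using h2

theorem lin_of_loc {K : ℝ} (hK : 0 < K) (h : LocK K) {κ : ℝ} (hκ : 0 ≤ κ) (hL : ∀ c > κ, LagC c) :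
    UpA (K * κ) ∧ ∀ ε > 0, Few (1 / 2 + (K * κ + ε)) := by
  have key : ∀ ε > 0, ∃ X : ℝ, ∀ x : ℝ, X ≤ x → NoZ (K * κ + ε) x 1 ∧ LineB (K * κ + ε) x 1 := by
    intro ε hε
    obtain ⟨κ2, hκ2⟩ : ∃ κ2 : ℝ, κ2 = κ + ε / K := ⟨_, rfl⟩
    have hεK : 0 < ε / K := by positivity
    have e1 : K * κ2 = K * κ + ε := by rw [hκ2]; field_simp
    obtain ⟨R, hR⟩ := h κ2 (by linarith)
    obtain ⟨X1, hX1⟩ := hL (κ + ε / K / 2) (by linarith)
    obtain ⟨X2, hX2⟩ := cmp (a := κ + ε / K / 2) (a' := κ2) (by positivity) (by linarith) R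
    refine ⟨max (max R X1) X2 + |R|, fun x hx => ?_⟩
    have hR0 := abs_nonneg R
    have hRa := le_abs_self R
    have b1 : R ≤ x := by linarith [(le_max_left R X1).trans (le_max_left (max R X1) X2)]
    have b2 : X1 + |R| ≤ x := by linarith [(le_max_right R X1).trans (le_max_left (max R X1) X2)]
    have b3 : X2 + |R| ≤ x := by linarith [le_max_right (max R X1) X2]
    rw [← e1]
    refine hR x b1 fun x' hx' m hm => ?_
    have hx'' := abs_le.1 hx'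
    refine hX1 x' (by linarith) m (le_trans ?_ hm)
    exact (hX2 x' (by linarith) x (by rw [abs_sub_comm]; exact hx')).2.2.2.1
  constructor
  · intro ε hε
    obtain ⟨X, hX⟩ := key ε hε
    refine Pool.Agent.Helper68.LQ.glue (D := 1) (T := X) (by positivity) zero_le_one fun t ht ht1 => ?_
    rw [one_mul]
    exact (hX t ht).2 t (by simp)
  · intro ε hε
    obtain ⟨X, hX⟩ := key ε hε
    exact few_of_noZ fun x hx => (hX x hx).1

/-- the integers `n ≤ T` such that a zero `1/2 + b + iγ`, `b > B`, has `γ ∈ [n, n+1]` -/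
def Zbad (B T : ℝ) : Set ℕ := {n : ℕ | (n : ℝ) ≤ T ∧ ∃ s : ℂ, riemannZeta s = 0 ∧ (n : ℝ) ≤ s.im ∧ s.im ≤ n + 1 ∧
  1 / 2 + B < s.re}

lemma Zbad_fin (B T : ℝ) : (Zbad B T).Finite :=
  (Set.finite_le_nat ⌊T⌋₊).subset fun _ hn => Nat.le_floor hn.1

/-- two sets of integers, each element of the first one close to an element of the second one -/
lemma count_le {S S' : Set ℕ} (hS : S.Finite) (hS' : S'.Finite) {R : ℝ} (hR : 0 ≤ R)
    (h : ∀ n ∈ S, (n : ℝ) < R + 2 ∨ ∃ k ∈ S', |(n : ℝ) - k| ≤ R + 1) :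
    (S.ncard : ℝ) ≤ (2 * R + 5) * (1 + S'.ncard) := by
  classical
  rw [Set.ncard_eq_toFinset_card _ hS, Set.ncard_eq_toFinset_card _ hS']
  have h1 := near_card (S := hS.toFinset) (Z := hS'.toFinset.image (fun k : ℕ => (k : ℂ) * I)) hR (by
    intro n hn
    rcases h n ((Set.Finite.mem_toFinset _).1 hn) with h1 | ⟨k, hk, h1⟩
    · exact Or.inl h1
    · refine Or.inr ⟨(k : ℂ) * I, ?_, by simpa using h1⟩
      rw [Finset.mem_image]
      exact ⟨k, (Set.Finite.mem_toFinset _).2 hk, rfl⟩)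
  have h2 : ((hS'.toFinset.image (fun k : ℕ => (k : ℂ) * I)).card : ℝ) ≤ (hS'.toFinset.card : ℝ) := by
    exact_mod_cast Finset.card_image_le
  have h3 : (2 * R + 5) * ((hS'.toFinset.image (fun k : ℕ => (k : ℂ) * I)).card : ℝ) ≤
      (2 * R + 5) * (hS'.toFinset.card : ℝ) := by gcongr
  nlinarith

/-- failures of the Laguerre inequalities are controlled by the zeros -/
theorem bad_le_Z {κ B : ℝ} (hκ : 0 < κ) (hB : B < 2 * κ) : ∃ C : ℝ, ∀ T : ℝ, 1 ≤ T →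
    ((Ebad κ T).ncard : ℝ) ≤ C * (1 + (Zbad B (2 * T)).ncard) := by
  obtain ⟨R0, h5⟩ := hy5 B κ hκ hB
  obtain ⟨R, hR⟩ : ∃ R : ℝ, R = max R0 1 + 1 := ⟨_, rfl⟩
  have hR1 : 2 ≤ R := by rw [hR]; linarith [le_max_right R0 1]
  have hR2 : R0 + 1 ≤ R := by rw [hR]; linarith [le_max_left R0 1]
  refine ⟨2 * R + 5, fun T hT => ?_⟩
  refine count_le (Ebad_fin κ T) (Zbad_fin _ _) (by linarith) ?_
  rintro n ⟨hnT, x, hx1, hx2, m, hm, hL⟩
  rw [or_iff_not_imp_left, not_lt]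
  intro hnR
  have h6 : ¬ NoZ B x R0 := fun hno => absurd (h5 x (by linarith) hno m hm) (not_lt.2 hL)
  unfold NoZ at h6
  push Not at h6
  obtain ⟨ρ, hρ, h7, h8⟩ := h6
  obtain ⟨a1, a2⟩ := abs_le.1 h7
  have him : 0 ≤ ρ.im := by linarith
  have f1 := Nat.floor_le him
  have f2 := Nat.lt_floor_add_one ρ.im
  refine ⟨⌊ρ.im⌋₊, ⟨by linarith, ρ, hρ, f1, f2.le, h8⟩, ?_⟩
  rw [abs_le]
  constructor <;> linarith

/-- zeros are controlled by the failures of the Laguerre inequalities -/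
theorem Z_le_bad {K : ℝ} (h : LocK K) {κ κ' : ℝ} (hκ : 0 < κ) (hκ' : κ < κ') : ∃ C : ℝ, ∀ T : ℝ, 1 ≤ T →
    ((Zbad (K * κ') T).ncard : ℝ) ≤ C * (1 + (Ebad κ (2 * T)).ncard) := by
  obtain ⟨R0, h5⟩ := h κ' (hκ.trans hκ')
  obtain ⟨X, hX⟩ := cmp (a := κ) (a' := κ') hκ.le hκ' R0
  obtain ⟨R, hR⟩ : ∃ R : ℝ, R = max (2 * max R0 X) 1 + 1 := ⟨_, rfl⟩
  have hR1 : 2 ≤ R := by rw [hR]; linarith [le_max_right (2 * max R0 X) 1]
  have hR2 : 2 * max R0 X + 1 ≤ R := by rw [hR]; linarith [le_max_left (2 * max R0 X) 1]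
  have hR3 := le_max_left R0 X
  have hR4 := le_max_right R0 X
  refine ⟨2 * R + 5, fun T hT => ?_⟩
  refine count_le (Zbad_fin _ _) (Ebad_fin _ _) (by linarith) ?_
  rintro n ⟨hnT, ρ, hρ, h1, h2, h3⟩
  rw [or_iff_not_imp_left, not_lt]
  intro hnR
  have h6 : ¬ LagX κ' ρ.im R0 := by
    intro hl
    have := (h5 ρ.im (by linarith) hl).1 ρ hρ (by simp)
    linarith
  unfold LagX at h6
  push Not at h6
  obtain ⟨x, hx, m, hm, hL⟩ := h6
  obtain ⟨a1, a2⟩ := abs_le.1 hx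
  have hx0 : 0 ≤ x := by linarith
  have f1 := Nat.floor_le hx0
  have f2 := Nat.lt_floor_add_one x
  have hm' : κ * Real.log x ≤ m :=
    ((hX x (by linarith) ρ.im (by rw [abs_sub_comm]; exact hx)).2.2.2.1).trans hm
  refine ⟨⌊x⌋₊, ⟨by linarith, x, f1, f2.le, m, hm', hL.le⟩, ?_⟩
  rw [abs_le]
  constructor <;> linarith

/-- **Laguerre inequalities at almost all heights, unconditional** -/
theorem bad_density {κ ε : ℝ} (hκ : 0 < κ) (hκ1 : κ ≤ 1 / 4) (hε : 0 < ε) : ∃ C : ℝ, ∀ T : ℝ, 1 ≤ T →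
    ((Ebad κ T).ncard : ℝ) ≤ C * T ^ (1 - 8 / 3 * κ + ε) := by
  obtain ⟨δ, hδ⟩ : ∃ δ : ℝ, δ = min (ε / 8) κ := ⟨_, rfl⟩
  have hδ0 : 0 < δ := by rw [hδ]; exact lt_min (by linarith) hκ
  have hδε : δ ≤ ε / 8 := by rw [hδ]; exact min_le_left _ _
  have hδκ : δ ≤ κ := by rw [hδ]; exact min_le_right _ _
  obtain ⟨R, hR1, hR⟩ := bad_le hy5 (B := 2 * κ - δ) hκ (by linarith) (by linarith)
  obtain ⟨C, hC⟩ := ZR_card (c := 4 / 3 - δ) (by linarith)
  have hexp : 1 - (4 / 3 - δ) * (1 / 2 + (2 * κ - δ) - 1 / 2) ≤ 1 - 8 / 3 * κ + ε / 2 := by nlinarith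
  have hexp0 : 0 ≤ 1 - 8 / 3 * κ + ε / 2 := by linarith
  have hlog : ∀ y : ℝ, 1 ≤ y → Real.log y ≤ y ^ (ε / 2) / (ε / 2) := fun y hy =>
    Real.log_le_rpow_div (by linarith) (by linarith)
  refine ⟨R + R * (|C| * (2 * R) ^ (1 - 8 / 3 * κ + ε / 2) * ((2 * R) ^ (ε / 2) / (ε / 2))), fun T hT => ?_⟩
  have hT0 : 0 < T := by linarith
  have h2RT : 2 ≤ 2 * R * T := by nlinarith
  have hmono : ((ZR_fin (1 / 2 + (2 * κ - δ)) (R * T)).toFinset.card : ℝ) ≤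
      ((ZR_fin (1 / 2 + (2 * κ - δ)) (2 * R * T)).toFinset.card : ℝ) := by
    have : (ZR_fin (1 / 2 + (2 * κ - δ)) (R * T)).toFinset ⊆ (ZR_fin (1 / 2 + (2 * κ - δ)) (2 * R * T)).toFinset := by
      intro ρ hρ
      rw [Set.Finite.mem_toFinset] at hρ ⊢
      obtain ⟨⟨z1, z2, z3, z4, z5⟩, z6⟩ := hρ
      exact ⟨⟨z1, z2, z3, z4, z5.trans (by nlinarith)⟩, z6⟩
    exact_mod_cast Finset.card_le_card this
  have h1 := hC (1 / 2 + (2 * κ - δ)) (2 * R * T) (by linarith) (by linarith) h2RT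
  have hlogT : 0 ≤ Real.log (2 * R * T) := Real.log_nonneg (by linarith)
  have h2 : C * (2 * R * T) ^ (1 - (4 / 3 - δ) * (1 / 2 + (2 * κ - δ) - 1 / 2)) * Real.log (2 * R * T) ≤
      |C| * (2 * R * T) ^ (1 - 8 / 3 * κ + ε / 2) * ((2 * R * T) ^ (ε / 2) / (ε / 2)) := by
    have g1 : (2 * R * T) ^ (1 - (4 / 3 - δ) * (1 / 2 + (2 * κ - δ) - 1 / 2)) ≤
        (2 * R * T) ^ (1 - 8 / 3 * κ + ε / 2) := Real.rpow_le_rpow_of_exponent_le (by linarith) hexp
    have g2 := hlog (2 * R * T) (by linarith)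
    have g3 := le_abs_self C
    have g4 : 0 ≤ (2 * R * T) ^ (1 - (4 / 3 - δ) * (1 / 2 + (2 * κ - δ) - 1 / 2)) :=
      Real.rpow_nonneg (by linarith) _
    gcongr
  have h3 : |C| * (2 * R * T) ^ (1 - 8 / 3 * κ + ε / 2) * ((2 * R * T) ^ (ε / 2) / (ε / 2)) =
      (|C| * (2 * R) ^ (1 - 8 / 3 * κ + ε / 2) * ((2 * R) ^ (ε / 2) / (ε / 2))) *
        T ^ (1 - 8 / 3 * κ + ε) := by
    rw [Real.mul_rpow (by linarith) hT0.le, Real.mul_rpow (by linarith) hT0.le]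
    have e : T ^ (1 - 8 / 3 * κ + ε) = T ^ (1 - 8 / 3 * κ + ε / 2) * T ^ (ε / 2) := by
      rw [← Real.rpow_add hT0]; ring_nf
    rw [e]; ring
  have hP : 1 ≤ T ^ (1 - 8 / 3 * κ + ε) := Real.one_le_rpow hT (by linarith)
  have h4 := hR T hT
  have hR0 : 0 < R := by linarith
  calc ((Ebad κ T).ncard : ℝ) ≤ R + R * ((ZR_fin (1 / 2 + (2 * κ - δ)) (R * T)).toFinset.card : ℝ) := h4
    _ ≤ R * T ^ (1 - 8 / 3 * κ + ε) + R * ((|C| * (2 * R) ^ (1 - 8 / 3 * κ + ε / 2) *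
          ((2 * R) ^ (ε / 2) / (ε / 2))) * T ^ (1 - 8 / 3 * κ + ε)) := by
        have h5 := (hmono.trans h1).trans (h2.trans h3.le)
        have h6 : R ≤ R * T ^ (1 - 8 / 3 * κ + ε) := by nlinarith
        have h7 := mul_le_mul_of_nonneg_left h5 hR0.le
        linarith
    _ = _ := by ring

/-- explicit form, in terms of the size on the critical line -/
theorem expl_loc {a κ ε : ℝ} (ha0 : 0 ≤ a) (ha1 : a ≤ 1 / 2) (hκ : 0 < κ) (hκ1 : κ ≤ 1 / 4) (hε : 0 < ε) :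
    ∃ R : ℝ, ∀ x : ℝ, R ≤ x → LagX κ x R → LineB a x R →
      NoZ (2 * a + 2 * κ * (1 + Real.log (1 / (4 * κ))) + ε) x 1 := by
  by_contra hcon
  push Not at hcon
  choose x hx1 hx2 hx3 hx4 using fun j : ℕ => hcon (j + 1)
  have hx : Tendsto x atTop atTop :=
    tendsto_atTop_mono (fun n => (le_add_of_nonneg_right zero_le_one).trans (hx1 n)) tendsto_natCast_atTop_atTop
  have hUL : ULag κ x := by
    intro η hη R
    filter_upwards [eventually_ge_atTop ⌈R⌉₊, hx.eventually_ge_atTop 1] with n hR hx1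
    have hR' : R ≤ (n : ℝ) := (Nat.le_ceil _).trans (by exact_mod_cast hR)
    refine (hx2 n).shift (by simpa using by linarith) ?_
    have : 0 ≤ Real.log (x n) := Real.log_nonneg hx1
    gcongr
    linarith
  have hUU : ULine a x := by
    intro η hη R
    filter_upwards [eventually_ge_atTop ⌈R⌉₊, hx.eventually_ge_atTop 1] with n hR hx1
    have hR' : R ≤ (n : ℝ) := (Nat.le_ceil _).trans (by exact_mod_cast hR)
    refine (hx3 n).shift (by simpa using by linarith) ?_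
    exact Real.rpow_le_rpow_of_exponent_le hx1 (by linarith)
  have hlog : 0 ≤ Real.log (1 / (4 * κ)) := Real.log_nonneg (by rw [le_div_iff₀ (by linarith)]; linarith)
  have hN : UNoZ (2 * a + 2 * κ * (1 + Real.log (1 / (4 * κ)))) x := by
    refine unoz_core hy4 ha0 ha1 hκ.le (by norm_num) le_rfl hx hUU hUL (unoZ_half x) fun B hB hB2 => ?_
    have h1 : 0 ≤ 2 * κ * Real.log (1 / (4 * κ)) := by positivity
    have h2 : 2 * κ < B := by linarith
    refine ⟨2 * κ, by positivity, h2.le, ?_⟩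
    have h3 : Real.log (B / (2 * κ)) ≤ Real.log (1 / (4 * κ)) := by
      have hB0 : 0 < B := by linarith
      apply Real.log_le_log (by positivity)
      rw [div_le_div_iff₀ (by positivity) (by positivity)]
      nlinarith
    have h4 : 2 * κ * Real.log (B / (2 * κ)) ≤ 2 * κ * Real.log (1 / (4 * κ)) := by gcongr
    linarith
  obtain ⟨j, f1⟩ := (hN ε hε 1).exists
  exact hx4 j f1

end Pool.Agent.Helper75.LQ
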