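import Pool.Agent.Helper75.LQ.Yst
import Pool.Agent.Helper68.LQ.Z1

/-! The local linear law from its packages. -/

set_option autoImplicit false
set_option maxHeartbeats 1000000

open Complex MeasureTheory Filter Topology

namespace Pool.Agent.Helper75.LQ

open Pool.Agent.Helper75.JE Pool.Agent.Helper85.LG

/-- heights at bounded distance have the same size -/
lemma cmp {a a' : ℝ} (ha : 0 ≤ a) (haa : a < a') (R : ℝ) : ∃ X : ℝ, ∀ x : ℝ, X ≤ x → ∀ t : ℝ, |t - x| ≤ R →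
    1 ≤ x ∧ 1 ≤ t ∧ x ^ a ≤ t ^ a' ∧ a * Real.log x ≤ a' * Real.log t ∧ t ^ a ≤ x ^ a' := by
  have h1 : Tendsto (fun x : ℝ => (a' - a) * Real.log x) atTop atTop :=
    Real.tendsto_log_atTop.const_mul_atTop (by linarith)
  obtain ⟨X, hX⟩ := eventually_atTop.1 ((h1.eventually_ge_atTop (a' * Real.log 2)).and
    ((eventually_ge_atTop (2 * |R| + 2)).and (eventually_ge_atTop (1:ℝ))))
  refine ⟨X, fun x hx t ht => ?_⟩
  obtain ⟨h2, h3, h4⟩ := hX x hx
  have hR := le_abs_self R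
  have hR0 := abs_nonneg R
  obtain ⟨t1, t2⟩ := abs_le.1 ht
  have hx0 : 0 < x := by linarith
  have ht1 : 1 ≤ t := by linarith
  have ht0 : 0 < t := by linarith
  have l2 : 0 < Real.log 2 := Real.log_pos (by norm_num)
  have e1 : Real.log x ≤ Real.log 2 + Real.log t := by
    rw [← Real.log_mul (by norm_num) ht0.ne']
    exact Real.log_le_log hx0 (by linarith)
  have e2 : Real.log t ≤ Real.log 2 + Real.log x := by
    rw [← Real.log_mul (by norm_num) hx0.ne']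
    exact Real.log_le_log ht0 (by linarith)
  have e3 : a * Real.log x ≤ a' * Real.log t := by
    have : a' * Real.log x ≤ a' * (Real.log 2 + Real.log t) := by
      apply mul_le_mul_of_nonneg_left e1; linarith
    nlinarith
  have e4 : a * Real.log t ≤ a' * Real.log x := by
    have : a * Real.log t ≤ a * (Real.log 2 + Real.log x) := mul_le_mul_of_nonneg_left e2 ha
    have h5 : a * Real.log 2 ≤ a' * Real.log 2 := by gcongr
    nlinarith
  refine ⟨h4, ht1, ?_, e3, ?_⟩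
  · rw [Real.rpow_def_of_pos hx0, Real.rpow_def_of_pos ht0]
    exact Real.exp_le_exp.2 (by linarith [mul_comm (Real.log x) a, mul_comm (Real.log t) a'])
  · rw [Real.rpow_def_of_pos hx0, Real.rpow_def_of_pos ht0]
    exact Real.exp_le_exp.2 (by linarith [mul_comm (Real.log x) a', mul_comm (Real.log t) a])

lemma LineB.shift {A x R : ℝ} (h : LineB A x R) {A' x' R' : ℝ} (hx : |x' - x| + R' ≤ R)
    (hp : x ^ A ≤ x' ^ A') : LineB A' x' R' := by
  intro t ht
  refine (h t ?_).trans hp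
  have := abs_add_le (t - x') (x' - x)
  have e : t - x' + (x' - x) = t - x := by ring
  rw [e] at this
  linarith

lemma NoZ.shift {B x R : ℝ} (h : NoZ B x R) {B' x' R' : ℝ} (hx : |x' - x| + R' ≤ R) (hB : B ≤ B') : NoZ B' x' R' := by
  intro s hs ht
  refine (h s hs ?_).trans (by linarith)
  have := abs_add_le (s.im - x') (x' - x)
  have e : s.im - x' + (x' - x) = s.im - x := by ring
  rw [e] at this
  linarith

lemma LagX.shift {κ x R : ℝ} (h : LagX κ x R) {κ' x' R' : ℝ} (hx : |x' - x| + R' ≤ R)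
    (hp : κ * Real.log x ≤ κ' * Real.log x') : LagX κ' x' R' := by
  intro t ht m hm
  refine h t ?_ m (hp.trans hm)
  have := abs_add_le (t - x') (x' - x)
  have e : t - x' + (x' - x) = t - x := by ring
  rw [e] at this
  linarith

lemma noZ_half {x R : ℝ} : NoZ (1 / 2) x R := by
  intro s hs _
  by_contra hcon
  rw [not_le] at hcon
  exact riemannZeta_ne_zero_of_one_lt_re (by norm_num at hcon ⊢; linarith) hs

lemma unoZ_half (t : ℕ → ℝ) : UNoZ (1 / 2) t := fun η hη R => Eventually.of_forall fun j =>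
  (noZ_half (x := t j) (R := R)).shift (by simp) (by linarith)

lemma UNoZ.mono {B B' : ℝ} {t : ℕ → ℝ} (h : UNoZ B t) (hB : B ≤ B') : UNoZ B' t := fun η hη R => by
  filter_upwards [h η hη R] with j hj
  exact hj.shift (R := R) (by simp) (by linarith)

/-- zeros near the points of a sequence, from the core of the argument -/
theorem unoz_core (hY4 : St_Y4) {A κ b0 b1 : ℝ} (hA0 : 0 ≤ A) (hA1 : A ≤ 1 / 2) (hκ : 0 ≤ κ)
    (hb1 : 0 ≤ b1) (hb2 : b1 ≤ 1 / 2) {t : ℕ → ℝ} (ht : Tendsto t atTop atTop) (hU : ULine A t) (hL : ULag κ t)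
    (hN : UNoZ b1 t) (h : ∀ B : ℝ, b0 < B → B ≤ b1 → ∃ r : ℝ, 0 < r ∧ r ≤ B ∧ 2 * A + r + 2 * κ * Real.log (B / r) < B) :
    UNoZ b0 t := by
  set S : Set ℝ := {b : ℝ | 0 ≤ b ∧ UNoZ b t} with hS
  have hmem : b1 ∈ S := ⟨hb1, hN⟩
  have hbd : BddBelow S := ⟨0, fun b hb => hb.1⟩
  have hne : S.Nonempty := ⟨_, hmem⟩
  obtain ⟨B, hB⟩ : ∃ B : ℝ, B = sInf S := ⟨_, rfl⟩
  have hB0 : 0 ≤ B := by rw [hB]; exact le_csInf hne fun b hb => hb.1
  have hBb : B ≤ b1 := by rw [hB]; exact csInf_le hbd hmem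
  have hBN : UNoZ B t := by
    intro η hη R
    obtain ⟨b, hb, hbB⟩ := exists_lt_of_csInf_lt hne (show sInf S < B + η / 2 by rw [← hB]; linarith)
    filter_upwards [hb.2 (η / 2) (by linarith) R] with j hj
    exact hj.shift (R := R) (by simp) (by linarith)
  rcases le_or_gt B b0 with hcon | hcon
  · exact hBN.mono hcon
  exfalso
  obtain ⟨r, hr0, hrB, hrr⟩ := h B hcon hBb
  obtain ⟨τ, hτ, hτB, R, h4⟩ := hY4 A κ r B hA0 hA1 hκ hr0 hrB (hBb.trans hb2) hrr
  have hnew : UNoZ (B - τ) t := by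
    intro η hη R'
    obtain ⟨X1, hX1⟩ := cmp (a := A + τ / 2) (a' := A + τ) (by linarith) (by linarith) R'
    obtain ⟨X2, hX2⟩ := cmp (a := κ + τ / 2) (a' := κ + τ) (by linarith) (by linarith) R'
    filter_upwards [hU (τ / 2) (by linarith) (R' + |R|), hBN τ hτ (R' + |R|), hL (τ / 2) (by linarith) (R' + 2),
      ht.eventually_ge_atTop (R + R'), ht.eventually_ge_atTop X1, ht.eventually_ge_atTop X2] with j f1 f2 f3 f4 f5 f6
    intro s hs hsi
    have g1 := hX1 (t j) f5 s.im hsi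
    have g2 := hX2 (t j) f6 s.im hsi
    have hR := le_abs_self R
    have a1 : LineB (A + τ) s.im R := f1.shift (by linarith) g1.2.2.1
    have a2 : NoZ (B + τ) s.im R := f2.shift (by linarith) le_rfl
    have a3 : LagX (κ + τ) s.im 2 := f3.shift (by linarith) g2.2.2.2.1
    have a4 := h4 s.im (by linarith [(abs_le.1 hsi).1]) a1 a2 a3 s hs (by simp)
    linarith
  have hm2 : B - τ ∈ S := ⟨by linarith, hnew⟩
  have : B ≤ B - τ := by
    conv_lhs => rw [hB]
    exact csInf_le hbd hm2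
  linarith

theorem unoz_four (hY4 : St_Y4) {A κ : ℝ} (hA0 : 0 ≤ A) (hA1 : A ≤ 1 / 2) (hκ : 0 ≤ κ) {t : ℕ → ℝ}
    (ht : Tendsto t atTop atTop) (hU : ULine A t) (hL : ULag κ t) : UNoZ (4 * A + 16 * κ) t := by
  refine unoz_core hY4 hA0 hA1 hκ (by norm_num) le_rfl ht hU hL (unoZ_half t) ?_
  intro B hB _
  have hBpos : 0 < B := lt_of_le_of_lt (by positivity) hB
  refine ⟨B / 8, by positivity, by linarith, ?_⟩
  have hlog : Real.log (B / (B / 8)) ≤ 21 / 10 := by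
    have e : B / (B / 8) = 2 ^ 3 := by field_simp; norm_num
    rw [e, Real.log_pow]
    have := Real.log_two_lt_d9
    push_cast
    linarith
  have : 2 * κ * Real.log (B / (B / 8)) ≤ 2 * κ * (21 / 10) := by gcongr
  linarith

theorem unoz_two (hY4 : St_Y4) {ρ : ℝ} (hρ : 0 < ρ) : ∃ ρ' : ℝ, 0 < ρ' ∧ ρ' ≤ ρ ∧ ∀ (A κ : ℝ) (t : ℕ → ℝ),
    0 < A → A ≤ 1 / 2 → 0 ≤ κ → κ ≤ ρ' * A → Tendsto t atTop atTop → ULine A t → ULag κ t →
      UNoZ (2 * A * (1 + ρ)) t := by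
  obtain ⟨ρ1, hρ1⟩ : ∃ ρ1 : ℝ, ρ1 = min ρ 1 := ⟨_, rfl⟩
  have hp1 : 0 < ρ1 := by rw [hρ1]; exact lt_min hρ one_pos
  have hp2 : ρ1 ≤ 1 := by rw [hρ1]; exact min_le_right _ _
  have hp3 : ρ1 ≤ ρ := by rw [hρ1]; exact min_le_left _ _
  have hlog : 0 < Real.log (20 / ρ1) := Real.log_pos (by rw [lt_div_iff₀ hp1]; linarith)
  refine ⟨min ρ1 (ρ1 / (4 * Real.log (20 / ρ1))), by positivity, (min_le_left _ _).trans hp3, ?_⟩
  intro A κ t hA0 hA1 hκ hκA ht hU hL
  have hk1 : κ ≤ ρ1 * A := hκA.trans (by gcongr; exact min_le_left _ _)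
  have hk2 : κ ≤ ρ1 / (4 * Real.log (20 / ρ1)) * A := hκA.trans (by gcongr; exact min_le_right _ _)
  have h4 := unoz_four hY4 hA0.le hA1 hκ ht hU hL
  refine unoz_core hY4 hA0.le hA1 hκ (b1 := min (4 * A + 16 * κ) (1 / 2)) (by positivity)
    (min_le_right _ _) ht hU hL ?_ ?_
  · rcases le_total (4 * A + 16 * κ) (1 / 2) with h | h
    · rw [min_eq_left h]; exact h4
    · rw [min_eq_right h]; exact unoZ_half t
  intro B hB hB2
  have hB3 : B ≤ 20 * A := by
    have := hB2.trans (min_le_left _ _)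
    nlinarith
  have hBA : 2 * A * (1 + ρ1) < B := lt_of_le_of_lt (by gcongr) hB
  have hBpos : 0 < B := lt_of_le_of_lt (by positivity) hBA
  have hr1 : ρ1 * A ≤ A := by nlinarith
  refine ⟨ρ1 * A, by positivity, by nlinarith [mul_pos hp1 hA0], ?_⟩
  have h5 : Real.log (B / (ρ1 * A)) ≤ Real.log (20 / ρ1) := by
    apply Real.log_le_log (by positivity)
    rw [div_le_div_iff₀ (by positivity) hp1]
    nlinarith
  have h6 : 2 * κ * Real.log (B / (ρ1 * A)) ≤ 2 * (ρ1 / (4 * Real.log (20 / ρ1)) * A) * Real.log (20 / ρ1) := by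
    have : 2 * κ * Real.log (B / (ρ1 * A)) ≤ 2 * κ * Real.log (20 / ρ1) := by gcongr
    refine this.trans ?_
    gcongr
  have h7 : 2 * (ρ1 / (4 * Real.log (20 / ρ1)) * A) * Real.log (20 / ρ1) = ρ1 * A / 2 := by
    field_simp
    ring
  rw [h7] at h6
  have : 0 < ρ1 * A := by positivity
  linarith

/-- the choice of the heights -/
theorem select {A κ : ℝ} (hA0 : 0 < A) (hκ : 0 ≤ κ) {x : ℕ → ℝ} (hx : Tendsto x atTop atTop)
    (hU : ULine A x) (hnU : ∀ d : ℝ, 0 < d → d ≤ A → ¬ ULine (A - d) x) (hL : ∀ j : ℕ, LagX κ (x j) j) :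
    ∃ t : ℕ → ℝ, Tendsto t atTop atTop ∧ ULine A t ∧ ULag κ t ∧
      ∀ δ > 0, ∀ᶠ j in atTop, (t j) ^ (A - δ) ≤ ‖riemannZeta (1 / 2 + (t j) * I)‖ := by
  have key : ∀ n : ℕ, ∃ t : ℝ, (n : ℝ) + 1 ≤ t ∧ LineB (A + 1 / (n + 1)) t n ∧ LagX (κ + 1 / (n + 1)) t n ∧
      t ^ (A - 1 / (n + 1)) ≤ ‖riemannZeta (1 / 2 + t * I)‖ := by
    intro n
    have hn : 0 < 1 / ((n : ℝ) + 1) := by positivity
    obtain ⟨d, hd⟩ : ∃ d : ℝ, d = min (1 / ((n : ℝ) + 1)) A := ⟨_, rfl⟩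
    have hd0 : 0 < d := by rw [hd]; exact lt_min hn hA0
    have hdA : d ≤ A := by rw [hd]; exact min_le_right _ _
    have hdn : d ≤ 1 / ((n : ℝ) + 1) := by rw [hd]; exact min_le_left _ _
    have h1 := hnU d hd0 hdA
    unfold ULine at h1
    push Not at h1
    obtain ⟨η, hη, R, hR⟩ := h1
    obtain ⟨X1, hX1⟩ := cmp (a := A - d) (a' := A - d + η) (by linarith) (by linarith) R
    obtain ⟨X2, hX2⟩ := cmp (a := A + 1 / (n + 1) / 2) (a' := A + 1 / (n + 1)) (by positivity) (by linarith) R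
    obtain ⟨X3, hX3⟩ := cmp (a := κ) (a' := κ + 1 / (n + 1)) hκ (by linarith) R
    have hev := (hU (1 / (n + 1) / 2) (by positivity) (R + n)).and ((hx.eventually_ge_atTop X1).and
      ((hx.eventually_ge_atTop X2).and ((hx.eventually_ge_atTop X3).and
      ((hx.eventually_ge_atTop (R + n + 1)).and (eventually_ge_atTop (⌈R + n⌉₊))))))
    obtain ⟨j, hj, f1, f2, f3, f4, f5, f6⟩ := (hR.and_eventually hev).exists
    unfold LineB at hj
    push Not at hj
    obtain ⟨t, ht1, ht2⟩ := hj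
    have g1 := hX1 (x j) f2 t ht1
    have g2 := hX2 (x j) f3 t ht1
    have g3 := hX3 (x j) f4 t ht1
    have hjR : R + n ≤ (j : ℝ) := (Nat.le_ceil _).trans (by exact_mod_cast f6)
    refine ⟨t, by linarith [(abs_le.1 ht1).1], f1.shift (by linarith) g2.2.2.1,
      (hL j).shift (by linarith) g3.2.2.2.1, ?_⟩
    calc t ^ (A - 1 / ((n : ℝ) + 1)) ≤ t ^ (A - d) := Real.rpow_le_rpow_of_exponent_le g1.2.1 (by linarith)
      _ ≤ (x j) ^ (A - d + η) := g1.2.2.2.2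
      _ ≤ _ := ht2.le
  choose t ht1 ht2 ht3 ht4 using key
  have h0 : Tendsto (fun n : ℕ => 1 / ((n : ℝ) + 1)) atTop (𝓝 0) := tendsto_one_div_add_atTop_nhds_zero_nat
  refine ⟨t, ?_, ?_, ?_, ?_⟩
  · refine tendsto_atTop_mono (fun n => (le_add_of_nonneg_right zero_le_one).trans (ht1 n)) tendsto_natCast_atTop_atTop
  · intro η hη R
    filter_upwards [h0.eventually_le_const hη, eventually_ge_atTop ⌈R⌉₊] with n hn hR
    have hR' : R ≤ (n : ℝ) := (Nat.le_ceil _).trans (by exact_mod_cast hR)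
    refine (ht2 n).shift (by simpa using hR') ?_
    exact Real.rpow_le_rpow_of_exponent_le (by linarith [ht1 n, n.cast_nonneg (α := ℝ)]) (by linarith)
  · intro η hη R
    filter_upwards [h0.eventually_le_const hη, eventually_ge_atTop ⌈R⌉₊] with n hn hR
    have hR' : R ≤ (n : ℝ) := (Nat.le_ceil _).trans (by exact_mod_cast hR)
    refine (ht3 n).shift (by simpa using hR') ?_
    have : 0 ≤ Real.log (t n) := Real.log_nonneg (by linarith [ht1 n, n.cast_nonneg (α := ℝ)])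
    gcongr
  · intro δ hδ
    filter_upwards [h0.eventually_le_const hδ] with n hn
    refine le_trans ?_ (ht4 n)
    exact Real.rpow_le_rpow_of_exponent_le (by linarith [ht1 n, n.cast_nonneg (α := ℝ)]) (by linarith)

/-- the bound with the exponent `1/2` -/
lemma uline_half {x : ℕ → ℝ} (hx : Tendsto x atTop atTop) : ULine (1 / 2) x := by
  intro η hη R
  obtain ⟨C, hC⟩ := Pool.Agent.Helper68.LQ.half_bound
  obtain ⟨X, hX⟩ := cmp (a := 1 / 2 + η / 2) (a' := 1 / 2 + η) (by positivity) (by linarith) R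
  have h1 : Tendsto (fun y : ℝ => y ^ (η / 2)) atTop atTop := tendsto_rpow_atTop (by linarith)
  obtain ⟨T, hT⟩ := eventually_atTop.1 (h1.eventually_ge_atTop C)
  filter_upwards [hx.eventually_ge_atTop X, hx.eventually_ge_atTop (T + R)] with j f1 f2 t ht
  have g := hX (x j) f1 t ht
  have h2 := hT t (by linarith [(abs_le.1 ht).1])
  have h3 : 0 ≤ t ^ (1 / 2 : ℝ) := Real.rpow_nonneg (by linarith [g.2.1]) _
  calc ‖riemannZeta (1 / 2 + t * I)‖ ≤ C * t ^ (1 / 2 : ℝ) := hC t g.2.1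
    _ ≤ t ^ (η / 2) * t ^ (1 / 2 : ℝ) := by gcongr
    _ = t ^ (1 / 2 + η / 2) := by rw [← Real.rpow_add (by linarith [g.2.1])]; ring_nf
    _ ≤ _ := g.2.2.2.2

/-- the exponent on the critical line near a sequence of windows with the Laguerre inequalities -/
theorem exp_seq (hY4 : St_Y4) (hY6 : St_Y6) (hY7 : St_Y7) : ∃ ρ : ℝ, 0 < ρ ∧ ∀ (κ : ℝ) (x : ℕ → ℝ), 0 ≤ κ →
    Tendsto x atTop atTop → (∀ j : ℕ, LagX κ (x j) j) → ∃ A : ℝ, 0 ≤ A ∧ A ≤ 1 / 2 ∧ A ≤ κ / ρ ∧ ULine A x := by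
  obtain ⟨B, h6⟩ := hY6
  obtain ⟨ε, hε, h7⟩ := hY7 (1 / 2) B (by norm_num) le_rfl
  obtain ⟨ρ, hρ, h6⟩ := h6 ε hε
  obtain ⟨ρ', hρ', hρρ, h2⟩ := unoz_two hY4 hρ
  refine ⟨ρ', hρ', fun κ x hκ hx hL => ?_⟩
  set S : Set ℝ := {a : ℝ | 0 ≤ a ∧ ULine a x} with hS
  have hmem : (1 / 2 : ℝ) ∈ S := ⟨by norm_num, uline_half hx⟩
  have hbd : BddBelow S := ⟨0, fun b hb => hb.1⟩
  have hne : S.Nonempty := ⟨_, hmem⟩
  obtain ⟨A, hA⟩ : ∃ A : ℝ, A = sInf S := ⟨_, rfl⟩
  have hA0 : 0 ≤ A := by rw [hA]; exact le_csInf hne fun b hb => hb.1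
  have hA1 : A ≤ 1 / 2 := by rw [hA]; exact csInf_le hbd hmem
  have hAU : ULine A x := by
    intro η hη R
    obtain ⟨a, ha, haA⟩ := exists_lt_of_csInf_lt hne (show sInf S < A + η / 2 by rw [← hA]; linarith)
    filter_upwards [ha.2 (η / 2) (by linarith) R, hx.eventually_ge_atTop 1] with j hj hx1
    exact hj.shift (R := R) (by simp) (Real.rpow_le_rpow_of_exponent_le hx1 (by linarith))
  refine ⟨A, hA0, hA1, ?_, hAU⟩
  rw [le_div_iff₀ hρ']
  by_contra hcon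
  rw [not_le] at hcon
  have hApos : 0 < A := by
    rcases hA0.lt_or_eq with h | h
    · exact h
    · rw [← h, zero_mul] at hcon; linarith
  have hκA : κ ≤ ρ' * A := by linarith
  obtain ⟨t, t1, t2, t3, t4⟩ := select hApos hκ hx hAU (fun d hd hdA hUd => by
    have : sInf S ≤ A - d := csInf_le hbd ⟨by linarith, hUd⟩
    rw [← hA] at this
    linarith) hL
  obtain ⟨g, L, hT⟩ := h6 A κ t hApos hA1 hκ (hκA.trans (by gcongr)) t1 t2 (h2 A κ t hApos hA1 hκ hκA t1 t2 t3) t3 t4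
  exact h7 g L hT

theorem loc_of (hY4 : St_Y4) (hY6 : St_Y6) (hY7 : St_Y7) : St_loc := by
  obtain ⟨ρ, hρ, h⟩ := exp_seq hY4 hY6 hY7
  refine ⟨4 / ρ + 16 + 1, by positivity, fun κ hκ => ?_⟩
  by_contra hcon
  push Not at hcon
  choose x hx1 hx2 hx3 using fun j : ℕ => hcon (j + 1)
  have hx : Tendsto x atTop atTop :=
    tendsto_atTop_mono (fun n => (le_add_of_nonneg_right zero_le_one).trans (hx1 n)) tendsto_natCast_atTop_atTop
  have hL : ∀ j : ℕ, LagX κ (x j) j := fun j => (hx2 j).shift (by simp) le_rfl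
  obtain ⟨A, hA0, hA1, hAκ, hU⟩ := h κ x hκ.le hx hL
  have hUL : ULag κ x := by
    intro η hη R
    filter_upwards [eventually_ge_atTop ⌈R⌉₊, hx.eventually_ge_atTop 1] with n hR hx1
    have hR' : R ≤ (n : ℝ) := (Nat.le_ceil _).trans (by exact_mod_cast hR)
    refine (hL n).shift (by simpa using hR') ?_
    have : 0 ≤ Real.log (x n) := Real.log_nonneg hx1
    gcongr
    linarith
  have hN := unoz_four hY4 hA0 hA1 hκ.le hx hU hUL
  have e1 : (4 / ρ + 16 + 1) * κ = 4 * (κ / ρ) + 16 * κ + κ := by ring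
  have hκρ : 0 ≤ κ / ρ := by positivity
  obtain ⟨j, f1, f2, f3⟩ := ((hN κ hκ 1).and ((hU κ hκ 1).and (hx.eventually_ge_atTop 1))).exists
  refine hx3 j (f1.shift (R := 1) (by simp) (by rw [e1]; linarith)) ?_
  exact f2.shift (R := 1) (by simp) (Real.rpow_le_rpow_of_exponent_le f3 (by rw [e1]; linarith))

end Pool.Agent.Helper75.LQ
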