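import Pool.Agent.Helper75.LQ.C2

/-! Package C1: `nn ≥ - e^((2A+η)L)`. -/

set_option autoImplicit false
set_option maxHeartbeats 2000000

open Complex MeasureTheory Filter Topology

namespace Pool.Agent.Helper75.LQ

theorem st_c1 (hB2 : St_B2) (h0a : St_C0a) (h0c : St_C0c) : St_C1 := by
  intro A C g L h
  have hA0 := h.A0
  have hA1 := h.A1
  have hC := h.C1
  obtain ⟨ca, hca⟩ := h0a A C g L h
  refine ⟨max ca (max (3 * C / A ^ 2) 1), fun c hc η hη R => ?_⟩
  have hc1 : ca ≤ c := (le_max_left _ _).trans hc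
  have hc3 : 3 * C / A ^ 2 ≤ c := ((le_max_left _ _).trans (le_max_right _ _)).trans hc
  have hc4 : 1 ≤ c := ((le_max_right _ _).trans (le_max_right _ _)).trans hc
  have hc0 : 0 < c := by linarith
  have hcA : 3 * C ≤ c * A ^ 2 := by rwa [div_le_iff₀ (by positivity)] at hc3
  obtain ⟨κ, hκ, hlow⟩ := low_sum h0c h (η := η / 2) (by positivity) R
  filter_upwards [hca c hc1 R, hlow, h.pos κ hκ R, h.lim.eventually_ge_atTop 1,
    exp_big (a := η / 2) (b := 2) (by positivity) L h.lim]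
    with j f1 f3 f4 hL1 g1 s y hs hy1 hy2
  have hL0 : 0 < L j := by linarith
  have hN := MM_le hC hL1
  set N := MM C L j with hNdef
  set T := (Finset.range N).filter (fun m : ℕ => κ * L j ≤ (m : ℝ)) with hT
  have hsplit : ∀ a : ℕ → ℝ, ∑ m ∈ Finset.range N, Lag (g j) s m * a m =
      ∑ m ∈ T, Lag (g j) s m * a m +
      ∑ m ∈ (Finset.range N).filter (fun m : ℕ => ¬ κ * L j ≤ (m : ℝ)), Lag (g j) s m * a m :=
    fun a => (Finset.sum_filter_add_sum_filter_not _ _ _).symm
  have hvv : vv c L j / 2 = 1 / (c * L j) / 2 := rfl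
  have hh : ∀ m, m < N → 0 < (hn (vv c L j / 2) y (2 * m)).re ∧
      (hn (vv c L j / 2) y (2 * m)).re ≤ y ^ (2 * m) := by
    intro m hm
    rw [hvv]
    exact hn_ok hB2 hA0 hc0 hL0 hcA hN hm (by linarith)
  have h10 : 0 ≤ ∑ m ∈ T, Lag (g j) s m * (hn (vv c L j / 2) y (2 * m)).re := by
    refine Finset.sum_nonneg fun m hm => ?_
    rw [hT, Finset.mem_filter, Finset.mem_range] at hm
    exact mul_nonneg (f4 s hs m hm.2) (hh m hm.1).1.le
  have h12 : |∑ m ∈ (Finset.range N).filter (fun m : ℕ => ¬ κ * L j ≤ (m : ℝ)),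
      Lag (g j) s m * (hn (vv c L j / 2) y (2 * m)).re| ≤ Real.exp (L j * (2 * A + η / 2)) := by
    refine (Finset.abs_sum_le_sum_abs _ _).trans (f3 s hs _ ?_)
    intro m hm
    obtain ⟨a1, a2⟩ := hh m hm
    rw [abs_of_pos a1]
    refine a2.trans ?_
    have : 0 ≤ y := by linarith
    gcongr
    linarith
  have h13 := f1 s y hs (by rw [abs_of_nonneg (by linarith)]; exact hy2)
  rw [hsplit] at h13
  have h14 := (abs_le.1 h13).1
  have h15 := (abs_le.1 h12).1
  have h16 : 1 ≤ Real.exp (L j * (2 * A + η / 2)) := Real.one_le_exp (by positivity)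
  have h17 : 2 * Real.exp (L j * (2 * A + η / 2)) ≤ Real.exp (L j * (2 * A + η)) := by
    calc 2 * Real.exp (L j * (2 * A + η / 2)) ≤ Real.exp (L j * (η / 2)) * Real.exp (L j * (2 * A + η / 2)) := by
          gcongr
      _ = _ := by rw [← Real.exp_add]; congr 1; ring
  linarith

end Pool.Agent.Helper75.LQ
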