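import Mathlib

/-! Localisation of a polynomial with nonnegative coefficients. -/

set_option autoImplicit false

open Real Finset

namespace Pool.Agent.Helper75.LQ

lemma log_one_add_ge {t : ℝ} (h0 : 0 ≤ t) : t - t ^ 2 / 2 ≤ Real.log (1 + t) := by
  -- derivative comparison; use the bound log(1+t) ≥ 2t/(2+t)
  have h1 : 2 * t / (t + 2) ≤ Real.log (1 + t) := Real.le_log_one_add_of_nonneg h0
  refine le_trans ?_ h1
  rw [le_div_iff₀ (by linarith)]
  nlinarith [pow_nonneg h0 3, pow_nonneg h0 2]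

lemma neg_log_one_sub_le {t : ℝ} (h0 : 0 ≤ t) (h1 : t ≤ 1 / 2) : -Real.log (1 - t) ≤ t + t ^ 2 := by
  have h2 : 0 < 1 - t := by linarith
  have h3 : Real.log ((1 - t)⁻¹) ≤ t + t ^ 2 := by
    rw [Real.log_le_iff_le_exp (by positivity)]
    have h4 := Real.quadratic_le_exp_of_nonneg (show 0 ≤ t + t ^ 2 by positivity)
    refine le_trans ?_ h4
    rw [inv_le_iff_one_le_mul₀ h2]
    nlinarith [pow_nonneg h0 2, pow_nonneg h0 3, pow_nonneg h0 4, pow_nonneg h0 5,
      mul_nonneg (pow_nonneg h0 2) (show 0 ≤ 1 / 2 - t by linarith),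
      mul_nonneg (pow_nonneg h0 3) (show 0 ≤ 1 / 2 - t by linarith),
      mul_nonneg (pow_nonneg h0 4) (show 0 ≤ 1 / 2 - t by linarith)]
  rwa [Real.log_inv] at h3

/-- terms far above the saddle -/
lemma far_up {L Y h : ℝ} (hL : 0 < L) (hY : 0 < Y) (hh : 0 < h) (hhY : h ≤ Y / 2) {m : ℕ}
    (hm : L * (Y + 2 * h) ≤ 2 * m) : Y ^ (2 * m) ≤ (Y + h) ^ (2 * m) * Real.exp (-(L * (h + h ^ 2 / Y))) := by
  set t : ℝ := h / Y with ht
  have ht0 : 0 < t := by positivity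
  have ht1 : t ≤ 1 / 2 := by rw [ht, div_le_iff₀ hY]; linarith
  have e1 : Y + h = Y * (1 + t) := by rw [ht]; field_simp
  rw [e1, mul_pow, mul_assoc]
  refine le_mul_of_one_le_right (by positivity) ?_
  have e2 : (1 + t) ^ (2 * m) = Real.exp ((2 * m : ℝ) * Real.log (1 + t)) := by
    have h9 := Real.exp_nat_mul (Real.log (1 + t)) (2 * m)
    rw [Real.exp_log (by linarith)] at h9
    rw [← h9]
    push_cast
    rfl
  rw [e2, ← Real.exp_add]
  apply Real.one_le_exp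
  have h1 := log_one_add_ge ht0.le
  have h2 : 0 ≤ t - t ^ 2 / 2 := by nlinarith
  have h3 : L * (Y + 2 * h) * (t - t ^ 2 / 2) ≤ 2 * m * Real.log (1 + t) := by
    refine le_trans (mul_le_mul_of_nonneg_right hm h2) ?_
    exact mul_le_mul_of_nonneg_left h1 (by positivity)
  have e3 : h = Y * t := by rw [ht]; field_simp
  have e4 : h ^ 2 / Y = Y * t ^ 2 := by rw [ht]; field_simp
  have h4 : h + h ^ 2 / Y ≤ (Y + 2 * h) * (t - t ^ 2 / 2) := by
    rw [e4]
    nth_rewrite 1 [e3]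
    nth_rewrite 1 [e3]
    have : 0 ≤ Y * t ^ 2 * (1 / 2 - t) := mul_nonneg (by positivity) (by linarith)
    nlinarith
  nlinarith

/-- terms far below the saddle -/
lemma far_low {L Y h : ℝ} (hL : 0 < L) (hY : 0 < Y) (hh : 0 < h) (hhY : h ≤ Y / 2) {m : ℕ}
    (hm : 2 * m ≤ L * (Y - 2 * h)) : Y ^ (2 * m) ≤ (Y - h) ^ (2 * m) * Real.exp (L * (h - h ^ 2 / Y)) := by
  set t : ℝ := h / Y with ht
  have ht0 : 0 < t := by positivity
  have ht1 : t ≤ 1 / 2 := by rw [ht, div_le_iff₀ hY]; linarith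
  have e1 : Y - h = Y * (1 - t) := by rw [ht]; field_simp
  rw [e1, mul_pow, mul_assoc]
  refine le_mul_of_one_le_right (by positivity) ?_
  have e2 : (1 - t) ^ (2 * m) = Real.exp ((2 * m : ℝ) * Real.log (1 - t)) := by
    have h9 := Real.exp_nat_mul (Real.log (1 - t)) (2 * m)
    rw [Real.exp_log (by linarith)] at h9
    rw [← h9]
    push_cast
    rfl
  rw [e2, ← Real.exp_add]
  apply Real.one_le_exp
  have h1 := neg_log_one_sub_le ht0.le ht1
  have h3 : 2 * m * (-Real.log (1 - t)) ≤ L * (Y - 2 * h) * (t + t ^ 2) := by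
    refine le_trans (mul_le_mul_of_nonneg_left h1 (by positivity)) ?_
    exact mul_le_mul_of_nonneg_right hm (by positivity)
  have e3 : h = Y * t := by rw [ht]; field_simp
  have e4 : h ^ 2 / Y = Y * t ^ 2 := by rw [ht]; field_simp
  have h4 : (Y - 2 * h) * (t + t ^ 2) ≤ h - h ^ 2 / Y := by
    rw [e4, e3]
    have : 0 ≤ Y * t ^ 3 := by positivity
    nlinarith
  nlinarith

/-- **Localisation.** -/
theorem near_sum {L Y h η k : ℝ} {N : ℕ} {q : ℕ → ℝ} (hL : 0 < L) (hY : 0 < Y) (hh : 0 < h)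
    (hhY : h ≤ Y / 2) (hq : ∀ m < N, k ≤ (m : ℝ) → 0 ≤ q m)
    (h1 : ∑ m ∈ (range N).filter (fun m : ℕ => k ≤ (m : ℝ)), q m * (Y + h) ^ (2 * m) ≤ Real.exp (L * (Y + h + η)))
    (h2 : ∑ m ∈ (range N).filter (fun m : ℕ => k ≤ (m : ℝ)), q m * (Y - h) ^ (2 * m) ≤ Real.exp (L * (Y - h + η)))
    (h3 : Real.exp (L * (Y - η)) / 2 ≤ ∑ m ∈ (range N).filter (fun m : ℕ => k ≤ (m : ℝ)), q m * Y ^ (2 * m))
    (h4 : 8 * Real.exp (L * (2 * η - h ^ 2 / Y)) ≤ 1) :
    Real.exp (L * (Y - η)) / 4 ≤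
      ∑ m ∈ ((range N).filter (fun m : ℕ => k ≤ (m : ℝ))).filter
        (fun m : ℕ => |2 * (m : ℝ) - L * Y| ≤ 2 * h * L), q m * Y ^ (2 * m) := by
  classical
  set T := (range N).filter (fun m : ℕ => k ≤ (m : ℝ)) with hT
  have hqT : ∀ m ∈ T, 0 ≤ q m := by
    intro m hm
    rw [hT, mem_filter, mem_range] at hm
    exact hq m hm.1 hm.2
  -- every term of the far part is bounded
  have hfar : ∀ m ∈ T, ¬ |2 * (m : ℝ) - L * Y| ≤ 2 * h * L →
      q m * Y ^ (2 * m) ≤ q m * (Y + h) ^ (2 * m) * Real.exp (-(L * (h + h ^ 2 / Y))) +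
        q m * (Y - h) ^ (2 * m) * Real.exp (L * (h - h ^ 2 / Y)) := by
    intro m hm hn
    have hq0 := hqT m hm
    rw [not_le, lt_abs] at hn
    have hYh : 0 < Y - h := by linarith
    rcases hn with hn | hn
    · have := far_up hL hY hh hhY (m := m) (by linarith)
      have h5 := mul_le_mul_of_nonneg_left this hq0
      have h6 : 0 ≤ q m * (Y - h) ^ (2 * m) * Real.exp (L * (h - h ^ 2 / Y)) := by positivity
      linarith [mul_assoc (q m) ((Y + h) ^ (2 * m)) (Real.exp (-(L * (h + h ^ 2 / Y))))]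
    · have := far_low hL hY hh hhY (m := m) (by linarith)
      have h5 := mul_le_mul_of_nonneg_left this hq0
      have h6 : 0 ≤ q m * (Y + h) ^ (2 * m) * Real.exp (-(L * (h + h ^ 2 / Y))) := by positivity
      linarith [mul_assoc (q m) ((Y - h) ^ (2 * m)) (Real.exp (L * (h - h ^ 2 / Y)))]
  have hsplit : ∑ m ∈ T, q m * Y ^ (2 * m) =
      ∑ m ∈ T.filter (fun m : ℕ => |2 * (m : ℝ) - L * Y| ≤ 2 * h * L), q m * Y ^ (2 * m) +
      ∑ m ∈ T.filter (fun m : ℕ => ¬ |2 * (m : ℝ) - L * Y| ≤ 2 * h * L), q m * Y ^ (2 * m) :=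
    (sum_filter_add_sum_filter_not _ _ _).symm
  have hfs : ∑ m ∈ T.filter (fun m : ℕ => ¬ |2 * (m : ℝ) - L * Y| ≤ 2 * h * L), q m * Y ^ (2 * m) ≤
      Real.exp (L * (Y + h + η)) * Real.exp (-(L * (h + h ^ 2 / Y))) +
        Real.exp (L * (Y - h + η)) * Real.exp (L * (h - h ^ 2 / Y)) := by
    calc _ ≤ ∑ m ∈ T.filter (fun m : ℕ => ¬ |2 * (m : ℝ) - L * Y| ≤ 2 * h * L),
          (q m * (Y + h) ^ (2 * m) * Real.exp (-(L * (h + h ^ 2 / Y))) +
            q m * (Y - h) ^ (2 * m) * Real.exp (L * (h - h ^ 2 / Y))) := by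
          refine sum_le_sum fun m hm => ?_
          rw [mem_filter] at hm
          exact hfar m hm.1 hm.2
      _ ≤ ∑ m ∈ T, (q m * (Y + h) ^ (2 * m) * Real.exp (-(L * (h + h ^ 2 / Y))) +
            q m * (Y - h) ^ (2 * m) * Real.exp (L * (h - h ^ 2 / Y))) := by
          refine sum_le_sum_of_subset_of_nonneg (filter_subset _ _) fun m hm _ => ?_
          have hq0 := hqT m hm
          have hYh : 0 < Y - h := by linarith
          positivity
      _ = (∑ m ∈ T, q m * (Y + h) ^ (2 * m)) * Real.exp (-(L * (h + h ^ 2 / Y))) +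
          (∑ m ∈ T, q m * (Y - h) ^ (2 * m)) * Real.exp (L * (h - h ^ 2 / Y)) := by
          rw [sum_add_distrib, sum_mul, sum_mul]
      _ ≤ _ := by gcongr
  have e1 : Real.exp (L * (Y + h + η)) * Real.exp (-(L * (h + h ^ 2 / Y))) =
      Real.exp (L * (Y - η)) * Real.exp (L * (2 * η - h ^ 2 / Y)) := by
    rw [← Real.exp_add, ← Real.exp_add]
    congr 1
    ring
  have e2 : Real.exp (L * (Y - h + η)) * Real.exp (L * (h - h ^ 2 / Y)) =
      Real.exp (L * (Y - η)) * Real.exp (L * (2 * η - h ^ 2 / Y)) := by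
    rw [← Real.exp_add, ← Real.exp_add]
    congr 1
    ring
  rw [e1, e2] at hfs
  have hp : 0 < Real.exp (L * (Y - η)) := Real.exp_pos _
  nlinarith

end Pool.Agent.Helper75.LQ
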