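import Pool.Agent.Helper75.LQ.Sts
import Pool.Agent.Helper75.LQ.Loc

/-! The Hermite numbers near the saddle. -/

set_option autoImplicit false
set_option maxHeartbeats 1000000

open Complex MeasureTheory Filter Topology

namespace Pool.Agent.Helper75.LQ

lemma frac_bound {x : ℝ} (h0 : 0 ≤ x) (h1 : x ≤ 1 / 20) :
    (1 + x) ^ 2 / (4 * (1 - x / 2) ^ 2) ≤ 1 / 4 + x := by
  have h2 : 0 < 1 - x / 2 := by linarith
  rw [div_le_iff₀ (by positivity)]
  nlinarith [pow_nonneg h0 2, pow_nonneg h0 3, mul_nonneg h0 (show 0 ≤ 1 / 20 - x by linarith)]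

/-- the Hermite numbers near the saddle point of the plane wave -/
theorem near_hn (hB3 : St_B3) {L c Y y h τ : ℝ} {m : ℕ} (hL : 0 < L) (hc : 0 < c) (hY : 0 < Y)
    (hy : y = Y + 1 / (2 * c)) (hh : 0 < h) (hhY : h ≤ τ / 40 * Y) (hτ : 0 < τ) (hτ1 : τ ≤ 1)
    (hcY : 80 ≤ c * Y * τ) (hm : |2 * (m : ℝ) - L * Y| ≤ 2 * h * L) :
    Y ^ (2 * m) * Real.exp (L * ((1 / 4 - τ / 4) / c)) ≤ (hn (1 / (c * L) / 2) y (2 * m)).re := by
  have hu0 : 0 < 1 / (2 * c) := by positivity
  have hy0 : 0 < y := by linarith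
  have hYy : Y ≤ y := by linarith
  obtain ⟨hm1, hm2⟩ := abs_le.1 hm
  set η : ℝ := τ / 40 with hη
  have hη0 : 0 < η := by positivity
  have hη1 : η ≤ 1 / 40 := by rw [hη]; linarith
  set v : ℝ := 1 / (c * L) / 2 with hv
  have hv0 : 0 < v := by positivity
  have hvL : v * L = 1 / (2 * c) := by rw [hv]; field_simp
  set r : ℝ := h / Y with hr
  have hr0 : 0 < r := by positivity
  have hr1 : r ≤ τ / 40 := by rw [hr, div_le_iff₀ hY]; exact hhY
  have hhr : h = r * Y := by rw [hr]; field_simp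
  -- the condition of B3
  have hcond : v * ((2 * m : ℕ) : ℝ) ≤ η * (1 - η) * y ^ 2 := by
    push_cast
    have h1 : v * (2 * m) ≤ v * (L * (Y + 2 * h)) := mul_le_mul_of_nonneg_left (by linarith) hv0.le
    have h2 : v * (L * (Y + 2 * h)) = (Y + 2 * h) / (2 * c) := by
      rw [← mul_assoc, hvL]; ring
    have h3 : (Y + 2 * h) / (2 * c) ≤ Y / c := by
      rw [div_le_div_iff₀ (by positivity) hc, hhr]
      nlinarith [mul_pos hY hc, mul_nonneg (mul_pos hY hc).le (show 0 ≤ 1 / 40 - r by linarith)]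
    have h4 : Y / c ≤ η / 2 * Y ^ 2 := by
      rw [div_le_iff₀ hc, hη]
      nlinarith
    have h5 : η / 2 * Y ^ 2 ≤ η * (1 - η) * y ^ 2 := by
      have : Y ^ 2 ≤ y ^ 2 := by gcongr
      have h6 : η / 2 ≤ η * (1 - η) := by nlinarith
      calc η / 2 * Y ^ 2 ≤ η * (1 - η) * Y ^ 2 := by gcongr
        _ ≤ _ := by
          have : 0 ≤ η * (1 - η) := by nlinarith
          gcongr
    linarith
  have hB := hB3 v y η hv0 hy0 hη0 (by linarith) (2 * m) hcond
  refine le_trans ?_ hB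
  -- compare
  set u : ℝ := 1 / (2 * c * Y) with hu
  have hu1 : 0 < u := by positivity
  have hyu : y = Y * (1 + u) := by rw [hy, hu]; field_simp
  have huc : c * Y * u = 1 / 2 := by rw [hu]; field_simp
  have hpow : y ^ (2 * m) = Y ^ (2 * m) * Real.exp ((2 * m : ℝ) * Real.log (1 + u)) := by
    rw [hyu, mul_pow]
    congr 1
    have h9 := Real.exp_nat_mul (Real.log (1 + u)) (2 * m)
    rw [Real.exp_log (by linarith)] at h9
    rw [← h9]
    push_cast
    rfl
  rw [hpow, mul_assoc, ← Real.exp_add]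
  refine mul_le_mul_of_nonneg_left (Real.exp_le_exp.2 ?_) (by positivity)
  -- the exponents
  have hu2 : u ≤ 1 / 160 := by
    have : 80 * u ≤ c * Y * τ * u := by gcongr
    have h2 : c * Y * τ * u = τ / 2 := by rw [mul_right_comm, huc]; ring
    linarith
  have hlog := log_one_add_ge hu1.le
  have hh2 : 2 * h ≤ Y := by rw [hhr]; nlinarith
  have h1 : L * (Y - 2 * h) * (u - u ^ 2 / 2) ≤ 2 * m * Real.log (1 + u) := by
    have h2 : 0 ≤ u - u ^ 2 / 2 := by nlinarith
    calc _ ≤ 2 * m * (u - u ^ 2 / 2) := by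
          refine mul_le_mul_of_nonneg_right (by linarith) h2
      _ ≤ _ := by gcongr
  have h2 : v * ((2 * m : ℕ) : ℝ) ^ 2 / (2 * (1 - η) ^ 2 * y ^ 2) ≤
      L * ((1 / 4 + τ / 20) / c) := by
    have e0 : ((2 * m : ℕ) : ℝ) ≤ L * Y * (1 + τ / 20) := by
      push_cast
      have : 2 * h * L ≤ L * Y * (τ / 20) := by
        calc 2 * h * L ≤ 2 * (τ / 40 * Y) * L := by gcongr
          _ = L * Y * (τ / 20) := by ring
      linarith
    have e1 : v * ((2 * m : ℕ) : ℝ) ^ 2 ≤ v * (L * Y * (1 + τ / 20)) ^ 2 := by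
      gcongr
    have e2 : v * (L * Y * (1 + τ / 20)) ^ 2 = L * Y ^ 2 * (1 + τ / 20) ^ 2 / (2 * c) := by
      rw [hv]; field_simp
    have e3 := frac_bound (x := τ / 20) (by positivity) (by linarith)
    have e4 : (1 - τ / 20 / 2) = 1 - η := by rw [hη]; ring
    rw [e4] at e3
    have hη2 : 0 < 1 - η := by linarith
    calc v * ((2 * m : ℕ) : ℝ) ^ 2 / (2 * (1 - η) ^ 2 * y ^ 2)
        ≤ (L * Y ^ 2 * (1 + τ / 20) ^ 2 / (2 * c)) / (2 * (1 - η) ^ 2 * Y ^ 2) := by
          rw [e2] at e1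
          gcongr
      _ = L / c * ((1 + τ / 20) ^ 2 / (4 * (1 - η) ^ 2)) := by
          field_simp
          ring
      _ ≤ L / c * (1 / 4 + τ / 20) := by gcongr
      _ = _ := by ring
  have h3 : L * ((1 / 2 - τ / 20 - τ / 40) / c) ≤ L * (Y - 2 * h) * (u - u ^ 2 / 2) := by
    rw [mul_assoc]
    refine mul_le_mul_of_nonneg_left ?_ hL.le
    rw [div_le_iff₀ hc]
    have e1 : (Y - 2 * h) * (u - u ^ 2 / 2) * c = (1 - 2 * r) * (1 / 2 - u / 4) := by
      rw [hhr]
      have : u ^ 2 * (c * Y) = u / 2 := by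
        rw [sq]
        have : u * u * (c * Y) = u * (c * Y * u) := by ring
        rw [this, huc]; ring
      have e5 : (Y - 2 * (r * Y)) * (u - u ^ 2 / 2) * c =
          (1 - 2 * r) * (c * Y * u - u ^ 2 * (c * Y) / 2) := by ring
      rw [e5, huc, this]
      ring
    rw [e1]
    have e2 : u ≤ τ / 160 := by
      have : 80 * u ≤ c * Y * τ * u := by gcongr
      have h2 : c * Y * τ * u = τ / 2 := by rw [mul_right_comm, huc]; ring
      linarith
    nlinarith
  have h4 : L * ((1 / 4 - τ / 4) / c) ≤ L * ((1 / 2 - τ / 20 - τ / 40) / c) - L * ((1 / 4 + τ / 20) / c) := by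
    have : 0 ≤ L * (τ / c) := by positivity
    have e : L * ((1 / 2 - τ / 20 - τ / 40) / c) - L * ((1 / 4 + τ / 20) / c) - L * ((1 / 4 - τ / 4) / c) =
        L * (τ / c) * (1 / 8) := by
      field_simp
      ring
    nlinarith
  linarith

end Pool.Agent.Helper75.LQ
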