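import Mathlib

/-! Definitions for the unconditional Laguerre equivalence. -/

set_option autoImplicit false

open Complex MeasureTheory Filter Topology

namespace Pool.Agent.Helper75.LQ

/-- Taylor coefficients at `0` -/
noncomputable def tc (f : ℂ → ℂ) (n : ℕ) : ℂ := iteratedDeriv n f 0 / (n.factorial : ℂ)

/-- `g (p + iη) g (p - iη)` -/
noncomputable def S (g : ℂ → ℂ) (p η : ℂ) : ℂ := g (p + I * η) * g (p - I * η)

/-- the coefficient of `η ^ (2m)` in `g (s + iη) g (s - iη)` -/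
noncomputable def Lag (g : ℂ → ℂ) (s : ℝ) (m : ℕ) : ℝ := (tc (S g s) (2 * m)).re

/-- the Gaussian density of variance `v` (at complex points) -/
noncomputable def ga (v : ℝ) (w : ℂ) : ℂ := cexp (-(w ^ 2) / (2 * v)) / (Real.sqrt (2 * Real.pi * v) : ℂ)

/-- Gaussian average -/
noncomputable def F (g : ℂ → ℂ) (v : ℝ) (z : ℂ) : ℂ := ∫ w : ℝ, g (z - w) * ga v w

/-- `E g(s + d + i y) g(s - d - i y)`, `d` Gaussian of variance `v` -/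
noncomputable def nn (g : ℂ → ℂ) (v : ℝ) (s y : ℝ) : ℂ := ∫ d : ℝ, S g s (y - I * d) * ga v d

/-- Hermite numbers: `E (y - i d)^k`, `d` Gaussian of variance `v` -/
noncomputable def hn (v y : ℝ) (k : ℕ) : ℂ := ∫ d : ℝ, ((y : ℂ) - I * d) ^ k * ga v d

/-- growth which the Gaussian average of variance `v` (and its inverse) can stand -/
def Gr (g : ℂ → ℂ) (v : ℝ) : Prop := ∃ M a : ℝ, 0 ≤ M ∧ 0 ≤ a ∧ 32 * a * v ≤ 1 ∧
  ∀ z : ℂ, ‖g z‖ ≤ M * Real.exp (a * ‖z‖ ^ 2)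

/-- A sequence of entire functions, real on the real line, with exponent `max A (|y|/2)`: the local shape of
the xi function near an extremal point if the Lindelöf exponent is `A > 0`. -/
structure TS (A C : ℝ) (g : ℕ → ℂ → ℂ) (L : ℕ → ℝ) : Prop where
  A0 : 0 < A
  A1 : A ≤ 1 / 2
  C1 : 10 ≤ C
  lim : Tendsto L atTop atTop
  ent : ∀ j, Differentiable ℂ (g j)
  re : ∀ j z, g j ((starRingEnd ℂ) z) = (starRingEnd ℂ) (g j z)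
  up0 : ∀ η > 0, ∀ R : ℝ, ∀ᶠ j in atTop, ∀ z : ℂ, |z.re| ≤ R → |z.im| ≤ 2 * A →
    ‖g j z‖ ≤ Real.exp (L j * (A + η))
  up1 : ∀ η > 0, ∀ R : ℝ, ∀ᶠ j in atTop, ∀ z : ℂ, |z.re| ≤ R → 2 * A ≤ |z.im| → |z.im| ≤ 8 →
    ‖g j z‖ ≤ Real.exp (L j * (|z.im| / 2 + η))
  lo1 : ∀ η > 0, ∀ R : ℝ, ∀ᶠ j in atTop, ∀ z : ℂ, |z.re| ≤ R → 2 * A + η ≤ z.im → z.im ≤ 8 →
    Real.exp (L j * (z.im / 2 - η)) ≤ ‖g j z‖
  big : ∀ η > 0, ∀ᶠ j in atTop, Real.exp (L j * (A - η)) ≤ ‖g j 0‖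
  strip : ∀ᶠ j in atTop, ∀ z : ℂ, |z.im| ≤ 8 → ‖g j z‖ ≤ Real.exp (C * L j + C * |z.re|)
  glob : ∀ δ > 0, ∃ B : ℝ, ∀ᶠ j in atTop, ∀ z : ℂ, ‖g j z‖ ≤ Real.exp (L j * (B + δ * ‖z‖ ^ 2))
  pos : ∀ κ > 0, ∀ R : ℝ, ∀ᶠ j in atTop, ∀ s : ℝ, |s| ≤ R → ∀ m : ℕ, κ * L j ≤ m → 0 ≤ Lag (g j) s m

/-- the variance `1 / (c L)` of the average -/
noncomputable def vv (c : ℝ) (L : ℕ → ℝ) (j : ℕ) : ℝ := 1 / (c * L j)

end Pool.Agent.Helper75.LQ
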