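import Pool.Agent.Helper75.Xi.Sad2

/-! The Laplace method and the saddle point theorem with the sign of the integral. -/

set_option autoImplicit false
set_option maxHeartbeats 1000000

open Complex Filter Topology Metric MeasureTheory intervalIntegral

namespace Pool.Agent.Helper75.LQ

open Pool.Agent.Helper75.Jen

lemma laplace_re {I : ℝ → ℂ} {c : ℂ} {B m φ1 : ℝ} (hI : Continuous I) (hm : 100 ≤ m) (hB : 0 < B)
    (hc : ‖c‖ = 1) (h0 : 1 ≤ φ1) (h1 : φ1 ≤ Real.pi - 1)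
    (hup : ∀ φ ∈ Set.Icc 0 Real.pi, ‖I φ‖ ≤ 11 / 10 * B * Real.exp (-(3 / 20) * m * (φ - φ1) ^ 2))
    (hlow : ∀ φ : ℝ, |φ - φ1| ≤ 8 / Real.sqrt m →
      9 / 10 * B * Real.exp (-(1 / 2) * m * (φ - φ1) ^ 2) ≤ (starRingEnd ℂ c * I φ).re) :
    B / Real.sqrt m ≤ (starRingEnd ℂ c * ∫ φ in (0 : ℝ)..Real.pi, I φ).re := by
  have hm0 : 0 < m := by linarith
  have hs : 0 < Real.sqrt m := Real.sqrt_pos.2 hm0
  have hss : Real.sqrt m ^ 2 = m := Real.sq_sqrt hm0.le
  have hpi := Real.pi_pos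
  set s := Real.sqrt m with hsdef
  have hs10 : 10 ≤ s := by
    rw [hsdef]; apply Real.le_sqrt_of_sq_le; norm_num; exact hm
  -- pointwise minorant
  have hmin : ∀ φ ∈ Set.Icc 0 Real.pi,
      9 / 10 * B * Real.exp (-(1 / 2) * m * (φ - φ1) ^ 2) -
        1 / 100 * B * Real.exp (-(3 / 40 * m) * (φ - φ1) ^ 2) ≤ (starRingEnd ℂ c * I φ).re := by
    intro φ hφ
    by_cases h : |φ - φ1| ≤ 8 / s
    · have := hlow φ h
      have h2 : 0 ≤ 1 / 100 * B * Real.exp (-(3 / 40 * m) * (φ - φ1) ^ 2) := by positivity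
      linarith
    · push Not at h
      have h3 : 64 ≤ m * (φ - φ1) ^ 2 := by
        have h4 : 8 < |φ - φ1| * s := by rwa [div_lt_iff₀ hs] at h
        have h5 : (64 : ℝ) ≤ (|φ - φ1| * s) ^ 2 := by nlinarith
        rw [mul_pow, sq_abs, hss] at h5
        linarith
      have h6 := hup φ hφ
      have h7 : -‖I φ‖ ≤ (starRingEnd ℂ c * I φ).re := by
        have h8 := Complex.abs_re_le_norm (starRingEnd ℂ c * I φ)
        rw [norm_mul, Complex.norm_conj, hc, one_mul] at h8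
        exact (abs_le.1 h8).1
      set X := Real.exp (-(3 / 40 * m) * (φ - φ1) ^ 2) with hX
      have hX0 : 0 < X := Real.exp_pos _
      have e1 : Real.exp (-(3 / 20) * m * (φ - φ1) ^ 2) = Real.exp (-(3 / 40) * (m * (φ - φ1) ^ 2)) * X := by
        rw [hX, ← Real.exp_add]; congr 1; ring
      have e2 : Real.exp (-(1 / 2) * m * (φ - φ1) ^ 2) = Real.exp (-(17 / 40) * (m * (φ - φ1) ^ 2)) * X := by
        rw [hX, ← Real.exp_add]; congr 1; ring
      have k4 : Real.exp (-(4.8 : ℝ)) ≤ 0.0085 := by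
        have h9 : (2.7 : ℝ) ≤ Real.exp 1 := by linarith [Real.exp_one_gt_d9]
        have h10 : Real.exp 4.8 = Real.exp 0.8 * Real.exp 1 ^ 4 := by
          rw [← Real.exp_nat_mul, ← Real.exp_add]; norm_num
        have h11 : (2.22 : ℝ) ≤ Real.exp 0.8 := by
          have := Real.sum_le_exp_of_nonneg (x := 0.8) (by norm_num) 7
          refine le_trans ?_ this
          norm_num [Finset.sum_range_succ, Nat.factorial]
        have h12 : (117.9 : ℝ) ≤ Real.exp 4.8 := by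
          rw [h10]
          calc (117.9 : ℝ) ≤ 2.22 * 2.7 ^ 4 := by norm_num
            _ ≤ _ := by gcongr
        rw [Real.exp_neg]
        rw [inv_le_comm₀ (Real.exp_pos _) (by norm_num)]
        refine le_trans ?_ h12
        norm_num
      have k1 : Real.exp (-(3 / 40) * (m * (φ - φ1) ^ 2)) ≤ 0.0085 :=
        (Real.exp_le_exp.2 (by nlinarith)).trans k4
      have k2 : Real.exp (-(17 / 40) * (m * (φ - φ1) ^ 2)) ≤ 0.0001 := by
        have k3 : Real.exp (-(17 / 40) * (m * (φ - φ1) ^ 2)) ≤ Real.exp (-(4.8 : ℝ)) ^ 2 := by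
          rw [← Real.exp_nat_mul]
          apply Real.exp_le_exp.2
          push_cast
          nlinarith
        refine k3.trans ?_
        have : 0 < Real.exp (-(4.8 : ℝ)) := Real.exp_pos _
        nlinarith
      rw [e1] at h6
      rw [e2]
      have k5 : 11 / 10 * B * (Real.exp (-(3 / 40) * (m * (φ - φ1) ^ 2)) * X) ≤
          11 / 10 * B * (0.0085 * X) := by gcongr
      have k6 : 9 / 10 * B * (Real.exp (-(17 / 40) * (m * (φ - φ1) ^ 2)) * X) ≤
          9 / 10 * B * (0.0001 * X) := by gcongr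
      have k7 : 0 ≤ B * X := by positivity
      nlinarith
  have hc1 : Continuous fun φ : ℝ => Real.exp (-(1 / 2) * m * (φ - φ1) ^ 2) := by fun_prop
  have hc2 : Continuous fun φ : ℝ => Real.exp (-(3 / 40 * m) * (φ - φ1) ^ 2) := by fun_prop
  -- lower bound
  have hre : (starRingEnd ℂ c * ∫ φ in (0 : ℝ)..Real.pi, I φ).re =
      ∫ φ in (0 : ℝ)..Real.pi, (starRingEnd ℂ c * I φ).re := by
    rw [← intervalIntegral.integral_const_mul]
    have := Complex.reCLM.intervalIntegral_comp_comm (μ := volume) (a := 0) (b := Real.pi)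
      (f := fun φ => starRingEnd ℂ c * I φ) ((continuous_const.mul hI).intervalIntegrable _ _)
    exact this.symm
  have hge : (∫ φ in (0 : ℝ)..Real.pi, (9 / 10 * B * Real.exp (-(1 / 2) * m * (φ - φ1) ^ 2) -
      1 / 100 * B * Real.exp (-(3 / 40 * m) * (φ - φ1) ^ 2))) ≤
      ∫ φ in (0 : ℝ)..Real.pi, (starRingEnd ℂ c * I φ).re := by
    refine intervalIntegral.integral_mono_on hpi.le ?_ ?_ hmin
    · exact Continuous.intervalIntegrable (by fun_prop) _ _
    · exact (Complex.continuous_re.comp (continuous_const.mul hI)).intervalIntegrable _ _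
  rw [intervalIntegral.integral_sub (Continuous.intervalIntegrable (by fun_prop) _ _)
    (Continuous.intervalIntegrable (by fun_prop) _ _), intervalIntegral.integral_const_mul,
    intervalIntegral.integral_const_mul] at hge
  have hG2 := (gauss_le (3 / 40 * m) φ1 (by positivity)).trans (sqrt_bd hm0)
  have hG1 : 1.6 / s ≤ ∫ φ in (0 : ℝ)..Real.pi, Real.exp (-(1 / 2) * m * (φ - φ1) ^ 2) := by
    have h1s : 1 / s ≤ 1 := by rw [div_le_one hs]; linarith
    have hmono : (∫ φ in (φ1 - 1 / s)..(φ1 + 1 / s), Real.exp (-(1 / 2) * m * (φ - φ1) ^ 2)) ≤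
        ∫ φ in (0 : ℝ)..Real.pi, Real.exp (-(1 / 2) * m * (φ - φ1) ^ 2) := by
      refine intervalIntegral.integral_mono_interval (by linarith) ?_ (by linarith) ?_
        (hc1.intervalIntegrable _ _)
      · have : 0 < 1 / s := by positivity
        linarith
      · exact Eventually.of_forall fun x => (Real.exp_pos _).le
    refine le_trans ?_ hmono
    have hpoly : (∫ φ in (φ1 - 1 / s)..(φ1 + 1 / s), (1 - 1 / 2 * m * (φ - φ1) ^ 2)) ≤
        ∫ φ in (φ1 - 1 / s)..(φ1 + 1 / s), Real.exp (-(1 / 2) * m * (φ - φ1) ^ 2) := by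
      refine intervalIntegral.integral_mono_on ?_ ?_ (hc1.intervalIntegrable _ _) ?_
      · have : 0 < 1 / s := by positivity
        linarith
      · exact Continuous.intervalIntegrable (by fun_prop) _ _
      · intro x _
        have := Real.add_one_le_exp (-(1 / 2) * m * (x - φ1) ^ 2)
        linarith
    refine le_trans ?_ hpoly
    rw [intervalIntegral.integral_comp_sub_right (fun x => 1 - 1 / 2 * m * x ^ 2) φ1]
    rw [show φ1 - 1 / s - φ1 = -(1 / s) by ring, show φ1 + 1 / s - φ1 = 1 / s by ring,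
      intervalIntegral.integral_sub (Continuous.intervalIntegrable (by fun_prop) _ _)
      (Continuous.intervalIntegrable (by fun_prop) _ _), intervalIntegral.integral_const_mul,
      integral_pow, intervalIntegral.integral_const]
    have e3 : m = s ^ 2 := hss.symm
    rw [e3]
    norm_num
    field_simp
    norm_num
  have hfin : B / s ≤ (starRingEnd ℂ c * ∫ φ in (0 : ℝ)..Real.pi, I φ).re := by
    rw [hre]
    refine le_trans ?_ hge
    have a1 : 9 / 10 * B * (1.6 / s) ≤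
        9 / 10 * B * ∫ φ in (0 : ℝ)..Real.pi, Real.exp (-(1 / 2) * m * (φ - φ1) ^ 2) := by gcongr
    have a2 : 1 / 100 * B * (∫ φ in (0 : ℝ)..Real.pi, Real.exp (-(3 / 40 * m) * (φ - φ1) ^ 2)) ≤
        1 / 100 * B * (6.6 / s) := by gcongr
    have a3 : B / s ≤ 9 / 10 * B * (1.6 / s) - 1 / 100 * B * (6.6 / s) := by
      have : 0 < B / s := by positivity
      have e4 : 9 / 10 * B * (1.6 / s) - 1 / 100 * B * (6.6 / s) = (B / s) * (1.44 - 0.066) := by
        ring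
      rw [e4]
      nlinarith
    linarith
  exact hfin

theorem saddle3 {F : ℂ → ℂ} (hF : Differentiable ℂ F) {m : ℕ} (hm : (10 : ℝ) ^ 9 ≤ m)
    {R L Y : ℝ} {z z0 v : ℂ} (hL : 0 ≤ L)
    (hG0 : ∀ u ∈ ball (z0 + v) R, F u ≠ 0)
    (hLip : ∀ u ∈ ball (z0 + v) R, ∀ u' ∈ ball (z0 + v) R,
      ‖logDeriv F u - logDeriv F u'‖ ≤ L * ‖u - u'‖)
    (hv : v * logDeriv F (z0 + v) = m) (him : 98 / 100 * ‖v‖ ≤ v.im)
    (hz : ‖z - z0‖ ≤ Y) (hR : Y + ‖v‖ / 2 < R)
    (he1 : ‖v‖ ^ 2 * L ≤ 1 / 10000 * m) (he2 : ‖v‖ * L * Y ≤ 1 / 200)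
    (hoff : ∀ φ ∈ Set.Icc (0 : ℝ) Real.pi, 1 / 2 < |φ - arg v| →
      ‖F (z + ‖v‖ * cexp (φ * I))‖ ≤ ‖F (z + v)‖ * Real.exp (-(3 / 20) * m * (φ - arg v) ^ 2)) :
    0 < ‖F (z + v)‖ ∧ ‖F (z + v)‖ / Real.sqrt m ≤ (starRingEnd ℂ (F (z + v) * cexp (-(m * arg v * I)) /
      (‖F (z + v)‖ : ℂ)) * AA F m ‖v‖ z).re := by
  have hm0 : (0 : ℝ) < m := by linarith
  have hv0 : v ≠ 0 := by
    rintro rfl
    rw [zero_mul] at hv
    have : (m : ℝ) = 0 := by exact_mod_cast hv.symm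
    linarith
  have hρ : 0 < ‖v‖ := norm_pos_iff.2 hv0
  set ρ := ‖v‖ with hρdef
  set φ1 := arg v with hφ1
  have hY0 : 0 ≤ Y := (norm_nonneg _).trans hz
  have hvexp : v = ρ * cexp (φ1 * I) := by rw [hρdef, hφ1, Complex.norm_mul_exp_arg_mul_I]
  have hsin : 98 / 100 ≤ Real.sin φ1 := by
    rw [hφ1, Complex.sin_arg, le_div_iff₀ hρ]
    exact him
  have himpos : 0 < v.im := lt_of_lt_of_le (by positivity) him
  have hφ0 : 0 ≤ φ1 := Complex.arg_nonneg_iff.2 himpos.le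
  obtain ⟨hφa, hφb⟩ := angle_pos hφ0 (Complex.arg_le_pi v) hsin
  set u : ℝ → ℂ := fun φ => z + ρ * cexp (φ * I) with hu
  have hu1 : u φ1 = z + v := by
    rw [hu]
    simp only
    rw [← hvexp]
  have hudist : ∀ φ : ℝ, ‖u φ - (z0 + v)‖ ≤ Y + ρ * |φ - φ1| := by
    intro φ
    have e : u φ - (z0 + v) = (z - z0) + v * (cexp (I * ((φ - φ1 : ℝ) : ℂ)) - 1) := by
      rw [hu]
      simp only
      have e2 : (ρ : ℂ) * cexp (φ * I) = v * cexp (I * ((φ - φ1 : ℝ) : ℂ)) := by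
        rw [hvexp, mul_assoc, ← Complex.exp_add]
        congr 2
        push_cast; ring
      rw [e2]
      ring
    rw [e]
    refine (norm_add_le _ _).trans (add_le_add hz ?_)
    rw [norm_mul]
    refine mul_le_mul_of_nonneg_left ?_ hρ.le
    refine Real.norm_exp_I_mul_ofReal_sub_one_le.trans ?_
    rw [Real.norm_eq_abs]
  have hub : ∀ φ : ℝ, |φ - φ1| ≤ 1 / 2 → u φ ∈ ball (z0 + v) R := by
    intro φ hφ
    rw [mem_ball, dist_eq_norm]
    refine (hudist φ).trans_lt ?_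
    have : ρ * |φ - φ1| ≤ ρ * (1 / 2) := by gcongr
    linarith
  have hub1 : u φ1 ∈ ball (z0 + v) R := hub φ1 (by simp)
  have hRpos : 0 < R := by linarith
  have hxv : z0 + v ∈ ball (z0 + v) R := mem_ball_self hRpos
  obtain ⟨H, hH, hGH⟩ := exists_log hRpos hF.differentiableOn hG0
  -- the correction k
  set k : ℝ → ℂ := fun φ => H (u φ) - H (u φ1) - m * (cexp ((φ - φ1 : ℝ) * I) - 1) with hk
  have hk1 : k φ1 = 0 := by rw [hk]; simp
  have hkder : ∀ φ : ℝ, |φ - φ1| ≤ 1 / 2 → HasDerivAt k (I * (v * cexp ((φ - φ1 : ℝ) * I)) *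
      (logDeriv F (u φ) - logDeriv F (z0 + v))) φ := by
    intro φ hφ
    have h1 : HasDerivAt u (ρ * (cexp (φ * I) * I)) φ := by
      have h2 : HasDerivAt (fun φ : ℝ => (φ : ℂ) * I) I φ := by
        simpa using (Complex.ofRealCLM.hasDerivAt (x := φ)).mul_const I
      exact ((h2.cexp).const_mul (ρ : ℂ)).const_add z
    have h3 := (hH (u φ) (hub φ hφ)).scomp φ h1
    have h4 : HasDerivAt (fun φ : ℝ => cexp ((φ - φ1 : ℝ) * I)) (cexp ((φ - φ1 : ℝ) * I) * I) φ := by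
      have h5 : HasDerivAt (fun φ : ℝ => ((φ - φ1 : ℝ) : ℂ) * I) I φ := by
        have h6 : HasDerivAt (fun φ : ℝ => φ - φ1) 1 φ := (hasDerivAt_id φ).sub_const _
        have h7 := h6.ofReal_comp.mul_const I
        simpa using h7
      exact h5.cexp
    have h5 := (h3.sub_const (H (u φ1))).sub ((h4.sub_const 1).const_mul (m : ℂ))
    refine h5.congr_deriv ?_
    rw [smul_eq_mul, ← hv]
    have e : (ρ : ℂ) * (cexp (φ * I) * I) = I * (v * cexp ((φ - φ1 : ℝ) * I)) := by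
      rw [hvexp, mul_assoc (ρ : ℂ), ← Complex.exp_add]
      have : (φ1 * I + ((φ - φ1 : ℝ) : ℂ) * I) = φ * I := by push_cast; ring
      rw [this]; ring
    rw [e]
    ring
  have hkbd : ∀ φ : ℝ, |φ - φ1| ≤ 1 / 2 →
      ‖k φ‖ ≤ (1 / 200 + 1 / 10000 * m * |φ - φ1|) * |φ - φ1| := by
    intro φ hφ
    have hin : ∀ t ∈ Set.uIcc φ1 φ, |t - φ1| ≤ |φ - φ1| := by
      intro t ht
      rw [Set.mem_uIcc] at ht
      rcases ht with ⟨h3, h4⟩ | ⟨h3, h4⟩
      · rw [abs_of_nonneg (by linarith), abs_of_nonneg (by linarith)]; linarith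
      · rw [abs_of_nonpos (by linarith), abs_of_nonpos (by linarith)]; linarith
    have hseg : ∀ t ∈ Set.uIcc φ1 φ, ‖I * (v * cexp ((t - φ1 : ℝ) * I)) *
        (logDeriv F (u t) - logDeriv F (z0 + v))‖ ≤ 1 / 200 + 1 / 10000 * m * |φ - φ1| := by
      intro t ht
      rw [norm_mul, norm_mul, norm_mul, Complex.norm_I, Complex.norm_exp_ofReal_mul_I, one_mul,
        mul_one]
      have ht2 := hin t ht
      have h1 := hLip (u t) (hub t (ht2.trans hφ)) (z0 + v) hxv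
      have h2 : ‖u t - (z0 + v)‖ ≤ Y + ρ * |φ - φ1| := by
        refine (hudist t).trans ?_
        gcongr
      calc ‖v‖ * ‖logDeriv F (u t) - logDeriv F (z0 + v)‖ ≤ ρ * (L * (Y + ρ * |φ - φ1|)) := by
            refine mul_le_mul_of_nonneg_left (h1.trans ?_) hρ.le
            exact mul_le_mul_of_nonneg_left h2 hL
        _ = ρ * L * Y + ρ ^ 2 * L * |φ - φ1| := by ring
        _ ≤ 1 / 200 + 1 / 10000 * m * |φ - φ1| := by
            have := mul_le_mul_of_nonneg_right he1 (abs_nonneg (φ - φ1))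
            linarith
    have := (convex_uIcc φ1 φ).norm_image_sub_le_of_norm_hasDerivWithin_le
      (fun t ht => (hkder t ((hin t ht).trans hφ)).hasDerivWithinAt) hseg Set.left_mem_uIcc
      Set.right_mem_uIcc
    rw [hk1, sub_zero] at this
    exact this
  -- the value at the saddle
  set I1 : ℂ := F (u φ1) * cexp (-(m * φ1 * I)) with hI1
  set B : ℝ := ‖I1‖ with hB
  have hI1ne : I1 ≠ 0 := mul_ne_zero (hG0 _ hub1) (Complex.exp_ne_zero _)
  have hBpos : 0 < B := norm_pos_iff.2 hI1ne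
  have hrep : ∀ φ : ℝ, |φ - φ1| ≤ 1 / 2 → F (u φ) * cexp (-(m * φ * I)) =
      I1 * cexp (m * (cexp ((φ - φ1 : ℝ) * I) - 1 - ((φ - φ1 : ℝ) : ℂ) * I) + k φ) := by
    intro φ hφ
    rw [hGH (u φ1) hub1 (u φ) (hub φ hφ), hI1, mul_assoc (F (u φ1)), mul_assoc (F (u φ1)),
      ← Complex.exp_add, ← Complex.exp_add]
    congr 2
    rw [hk]
    push_cast
    ring
  have hnormI : ∀ φ : ℝ, ‖cexp (-(m * φ * I))‖ = 1 := by
    intro φ
    rw [show (-(m * φ * I) : ℂ) = ((-(m * φ) : ℝ) : ℂ) * I by push_cast; ring,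
      Complex.norm_exp_ofReal_mul_I]
  have hBF : B = ‖F (z + v)‖ := by
    rw [hB, hI1, norm_mul, hnormI, mul_one, hu1]
  have hGn : ∀ φ : ℝ, |φ - φ1| ≤ 1 / 2 →
      ‖F (u φ)‖ = B * Real.exp (m * (Real.cos (φ - φ1) - 1) + (k φ).re) := by
    intro φ hφ
    have h1 := congrArg (fun w => ‖w‖) (hrep φ hφ)
    simp only [norm_mul, hnormI, mul_one] at h1
    rw [h1, Complex.norm_exp]
    congr 2
    have e : (cexp ((φ - φ1 : ℝ) * I)).re = Real.cos (φ - φ1) := by
      rw [Complex.exp_ofReal_mul_I_re]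
    simp only [add_re, mul_re, sub_re, one_re, natCast_re, natCast_im, zero_mul, sub_zero, e,
      ofReal_re, ofReal_im, I_re, I_im, mul_zero, mul_one]
  have hpi2 : Real.pi ^ 2 ≤ 10 := by
    have := Real.pi_lt_d2
    nlinarith [Real.pi_pos]
  have hGup : ∀ φ : ℝ, |φ - φ1| ≤ 1 / 2 → ‖F (u φ)‖ ≤
      B * Real.exp (-(1999 / 10000) * m * (φ - φ1) ^ 2 + 2 / 100) := by
    intro φ hφ
    have hϑ : |φ - φ1| ≤ Real.pi := by linarith [Real.pi_gt_three]
    rw [hGn φ hφ]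
    refine mul_le_mul_of_nonneg_left (Real.exp_le_exp.2 ?_) hBpos.le
    have h1 := Real.cos_le_one_sub_mul_cos_sq hϑ
    have h2 : (k φ).re ≤ (1 / 200 + 1 / 10000 * m * |φ - φ1|) * |φ - φ1| :=
      (Complex.re_le_norm _).trans (hkbd φ hφ)
    have h3 : 1 / 5 ≤ 2 / Real.pi ^ 2 := by
      rw [div_le_div_iff₀ (by norm_num) (by positivity)]; linarith
    have h4 : m * (Real.cos (φ - φ1) - 1) ≤ -(1 / 5) * m * (φ - φ1) ^ 2 := by
      have h5 : Real.cos (φ - φ1) - 1 ≤ -(1 / 5) * (φ - φ1) ^ 2 := by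
        have := mul_le_mul_of_nonneg_right h3 (sq_nonneg (φ - φ1))
        linarith
      have := mul_le_mul_of_nonneg_left h5 hm0.le
      linarith
    have h6 : |φ - φ1| * |φ - φ1| = (φ - φ1) ^ 2 := by rw [← sq, sq_abs]
    have h7 : 1 / 200 * |φ - φ1| ≤ 2 / 100 := by linarith
    have h8 : (1 / 200 + 1 / 10000 * m * |φ - φ1|) * |φ - φ1| =
        1 / 200 * |φ - φ1| + 1 / 10000 * m * (φ - φ1) ^ 2 := by rw [← h6]; ring
    rw [h8] at h2
    linarith
  have hIcn : ∀ φ : ℝ, ‖Ic F m ρ z φ‖ = ‖F (u φ)‖ := by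
    intro φ
    unfold Ic
    rw [norm_mul, hnormI, mul_one]
  have he02 : Real.exp (2 / 100) ≤ 105 / 100 := by
    have := Real.exp_bound' (x := 2 / 100) (by norm_num) (by norm_num) (n := 3) (by norm_num)
    refine this.trans ?_
    norm_num [Finset.sum_range_succ, Nat.factorial]
  have hup : ∀ φ ∈ Set.Icc (0 : ℝ) Real.pi, ‖Ic F m ρ z φ‖ ≤
      11 / 10 * B * Real.exp (-(3 / 20) * m * (φ - φ1) ^ 2) := by
    intro φ hφ
    rw [hIcn]
    have hmq : 0 ≤ m * (φ - φ1) ^ 2 := by positivity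
    by_cases hc : |φ - φ1| ≤ 1 / 2
    · have g1 := hGup φ hc
      have g4 : Real.exp (-(1999 / 10000) * m * (φ - φ1) ^ 2 + 2 / 100) ≤
          105 / 100 * Real.exp (-(3 / 20) * m * (φ - φ1) ^ 2) := by
        rw [Real.exp_add, mul_comm]
        exact mul_le_mul he02 (Real.exp_le_exp.2 (by nlinarith)) (Real.exp_pos _).le (by norm_num)
      calc ‖F (u φ)‖ ≤ B * (105 / 100 * Real.exp (-(3 / 20) * m * (φ - φ1) ^ 2)) := by
            exact g1.trans (mul_le_mul_of_nonneg_left g4 hBpos.le)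
        _ = 105 / 100 * (B * Real.exp (-(3 / 20) * m * (φ - φ1) ^ 2)) := by ring
        _ ≤ 11 / 10 * (B * Real.exp (-(3 / 20) * m * (φ - φ1) ^ 2)) :=
            mul_le_mul_of_nonneg_right (by norm_num) (by positivity)
        _ = _ := by ring
    · push Not at hc
      have g2 := hoff φ hφ hc
      rw [← hBF] at g2
      calc ‖F (u φ)‖ ≤ B * Real.exp (-(3 / 20) * m * (φ - φ1) ^ 2) := g2
        _ ≤ _ := by
            have : 0 < B * Real.exp (-(3 / 20) * m * (φ - φ1) ^ 2) := by positivity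
            nlinarith
  have hs0 : 0 < Real.sqrt m := Real.sqrt_pos.2 hm0
  have hsm : Real.sqrt m ^ 2 = m := Real.sq_sqrt hm0.le
  have hs1 : (30000 : ℝ) ≤ Real.sqrt m := by
    apply Real.le_sqrt_of_sq_le
    linarith
  set c : ℂ := I1 / B with hc
  have hBne : (B : ℂ) ≠ 0 := by exact_mod_cast hBpos.ne'
  have hcn : ‖c‖ = 1 := by
    rw [hc, norm_div, Complex.norm_real, Real.norm_of_nonneg hBpos.le, div_self hBpos.ne']
  have hlow : ∀ φ : ℝ, |φ - φ1| ≤ 8 / Real.sqrt m →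
      9 / 10 * B * Real.exp (-(1 / 2) * m * (φ - φ1) ^ 2) ≤ (starRingEnd ℂ c * Ic F m ρ z φ).re := by
    intro φ hφ
    have h8 : 8 / Real.sqrt m ≤ 1 / 3000 := by
      rw [div_le_div_iff₀ hs0 (by norm_num)]; linarith
    have hφh : |φ - φ1| ≤ 1 / 2 := by linarith
    have hkb := hkbd φ hφh
    have hrepφ := hrep φ hφh
    set ϑ := φ - φ1 with hϑ
    have hϑ1 : |ϑ| ≤ 1 / 3000 := hφ.trans h8
    have hϑs : |ϑ| * Real.sqrt m ≤ 8 := by rwa [le_div_iff₀ hs0] at hφ
    have hϑm : m * |ϑ| ^ 2 ≤ 64 := by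
      have : (|ϑ| * Real.sqrt m) ^ 2 ≤ 8 ^ 2 := by gcongr
      rw [mul_pow, hsm] at this
      linarith
    set X : ℂ := m * (cexp (ϑ * I) - 1 - ϑ * I + ϑ ^ 2 / 2) + k φ with hX
    have hXn : ‖X‖ ≤ 1 / 30 := by
      have a1 := exp_third (ϑ := ϑ) (by linarith)
      have a2 := hkb
      rw [hX]
      refine (norm_add_le _ _).trans ?_
      rw [norm_mul, Complex.norm_natCast]
      have a3 : (m : ℝ) * ‖cexp (ϑ * I) - 1 - ϑ * I + ϑ ^ 2 / 2‖ ≤ m * |ϑ| ^ 3 := by gcongr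
      have a4 : (m : ℝ) * |ϑ| ^ 3 ≤ 64 * (8 / Real.sqrt m) := by
        calc (m : ℝ) * |ϑ| ^ 3 = m * |ϑ| ^ 2 * |ϑ| := by ring
          _ ≤ 64 * (8 / Real.sqrt m) := by
            refine mul_le_mul hϑm hφ (abs_nonneg _) (by norm_num)
      have a5 : 64 * (8 / Real.sqrt m) ≤ 1 / 57 := by
        have : 8 / Real.sqrt m ≤ 8 / 30000 := by gcongr
        have h9 : Real.sqrt m ≥ 31000 := by
          apply Real.le_sqrt_of_sq_le
          linarith
        have : 8 / Real.sqrt m ≤ 8 / 31000 := by gcongr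
        linarith
      have a6 : (1 / 200 + 1 / 10000 * m * |ϑ|) * |ϑ| ≤ 1 / 500 + 64 / 10000 := by
        have : (1 / 200 + 1 / 10000 * m * |ϑ|) * |ϑ| = 1 / 200 * |ϑ| + 1 / 10000 * (m * |ϑ| ^ 2) := by
          ring
        rw [this]
        linarith
      linarith
    have hfull : Ic F m ρ z φ = I1 * (Real.exp (-(1 / 2) * m * ϑ ^ 2) : ℂ) * cexp X := by
      have b1 : Ic F m ρ z φ = F (u φ) * cexp (-(m * φ * I)) := rfl
      rw [b1, hrepφ]
      have b2 : cexp (m * (cexp ((φ - φ1 : ℝ) * I) - 1 - ((φ - φ1 : ℝ) : ℂ) * I) + k φ) =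
          (Real.exp (-(1 / 2) * m * ϑ ^ 2) : ℂ) * cexp X := by
        rw [← hϑ, Complex.ofReal_exp, ← Complex.exp_add, hX]
        congr 1
        push_cast
        ring
      rw [b2]
      ring
    have hX2 := exp_small hXn
    have hre : 9 / 10 ≤ (cexp X).re := by
      have b6 := Complex.abs_re_le_norm (cexp X - 1)
      have b7 := (abs_le.1 (b6.trans hX2)).1
      rw [sub_re, one_re] at b7
      linarith
    have hcI : starRingEnd ℂ c * I1 = (B : ℂ) := by
      rw [hc, map_div₀, Complex.conj_ofReal, div_mul_eq_mul_div, mul_comm (starRingEnd ℂ I1),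
        Complex.mul_conj, Complex.normSq_eq_norm_sq, ← hB]
      push_cast
      field_simp
    rw [hfull]
    have b8 : starRingEnd ℂ c * (I1 * (Real.exp (-(1 / 2) * m * ϑ ^ 2) : ℂ) * cexp X) =
        ((B * Real.exp (-(1 / 2) * m * ϑ ^ 2) : ℝ) : ℂ) * cexp X := by
      push_cast
      rw [← hcI]
      ring
    rw [b8, Complex.re_ofReal_mul]
    have b9 : 0 ≤ B * Real.exp (-(1 / 2) * m * ϑ ^ 2) := by positivity
    calc 9 / 10 * B * Real.exp (-(1 / 2) * m * ϑ ^ 2) =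
        B * Real.exp (-(1 / 2) * m * ϑ ^ 2) * (9 / 10) := by ring
      _ ≤ _ := by gcongr
  have hfin := laplace_re (Ic_cont hF m ρ z) (by linarith) hBpos hcn hφa hφb hup hlow
  refine ⟨by rw [← hBF]; exact hBpos, ?_⟩
  rw [← hBF, ← hu1]
  exact hfin

end Pool.Agent.Helper75.LQ
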