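import Pool.Agent.Helper75.Xi.Det4
import Pool.Agent.Helper75.LQ.Sad3

/-! The Laguerre coefficients at the centre of a good window are positive. -/

set_option autoImplicit false
set_option maxHeartbeats 1000000

open Complex Filter Topology Metric MeasureTheory intervalIntegral

namespace Pool.Agent.Helper75.LQ

open Pool.Agent.Helper75.Jen Pool.Agent.Helper75.Xi

/-- the reflection in the imaginary axis -/
noncomputable def sg (z : ℂ) : ℂ := -(starRingEnd ℂ z)

lemma sg_re (z : ℂ) : (sg z).re = -z.re := by simp [sg]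
lemma sg_im (z : ℂ) : (sg z).im = z.im := by simp [sg]
lemma conj_sg (z : ℂ) : (starRingEnd ℂ) (sg z) = -z := by simp [sg]
lemma sg_sub (z w : ℂ) : sg z - sg w = sg (z - w) := by simp [sg]; ring
lemma norm_sg (z : ℂ) : ‖sg z‖ = ‖z‖ := by rw [sg, norm_neg, Complex.norm_conj]
lemma sg_I (y : ℝ) : sg (y * I) = y * I := by
  apply Complex.ext <;> simp [sg]

lemma sg_mem {M H : ℝ} {z : ℂ} (h : z ∈ Kc M H) : sg z ∈ Kc M H := by
  obtain ⟨h1, h2, h3⟩ := h
  refine ⟨by rw [sg_im]; exact h1, by rw [sg_im]; exact h2, ?_⟩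
  rw [sg_re, sg_im, abs_neg]; exact h3

section

variable {G : ℂ → ℂ} (hG : Differentiable ℂ G) (hsym : ∀ z, G (starRingEnd ℂ z) = starRingEnd ℂ (G z))

/-- the function whose Taylor coefficients are the Laguerre coefficients -/
noncomputable def FF (G : ℂ → ℂ) (z : ℂ) : ℂ := G z * G (-z)

include hsym in
lemma neg_eq (z : ℂ) : G (-z) = (starRingEnd ℂ) (G (sg z)) := by
  rw [← hsym, conj_sg]

include hG in
lemma FF_diff : Differentiable ℂ (FF G) := by
  unfold FF
  exact hG.mul (hG.comp differentiable_neg)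

include hsym in
lemma FF_sym (z : ℂ) : FF G (starRingEnd ℂ z) = starRingEnd ℂ (FF G z) := by
  unfold FF
  rw [map_mul, ← hsym, ← hsym, map_neg]

include hG hsym in
lemma deriv_conj (z : ℂ) : deriv G ((starRingEnd ℂ) z) = (starRingEnd ℂ) (deriv G z) := by
  have := (iter_conj hG hsym 1).2 z
  simpa [iteratedDeriv_one] using this

include hG hsym in
lemma ld_neg (z : ℂ) : logDeriv G (-z) = (starRingEnd ℂ) (logDeriv G (sg z)) := by
  unfold logDeriv
  simp only [Pi.div_apply]
  rw [map_div₀, ← deriv_conj hG hsym, ← hsym, conj_sg]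

include hG hsym in
lemma ld_FF {z : ℂ} (h1 : G z ≠ 0) (h2 : G (sg z) ≠ 0) :
    logDeriv (FF G) z = logDeriv G z - (starRingEnd ℂ) (logDeriv G (sg z)) := by
  have h3 : G (-z) ≠ 0 := by
    rw [neg_eq hsym]
    exact (map_ne_zero _).2 h2
  have e : FF G = fun z => G z * (fun z => G (-z)) z := rfl
  have hd : DifferentiableAt ℂ (fun z => G (-z)) z := (hG.comp differentiable_neg) z
  rw [e, logDeriv_mul (g := fun z => G (-z)) z h1 h3 (hG z) hd, ← ld_neg hG hsym]
  have h4 : logDeriv (fun z => G (-z)) z = -logDeriv G (-z) := by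
    unfold logDeriv
    simp only [Pi.div_apply]
    have : deriv (fun z => G (-z)) z = -deriv G (-z) := by
      simpa using deriv_comp_neg G z
    rw [this, neg_div]
  rw [h4]
  ring

end

/-- the Laguerre coefficients at the centre of a good window are positive -/
theorem det_lag {G : ℂ → ℂ} (hG : Differentiable ℂ G)
    (hsym : ∀ z, G (starRingEnd ℂ z) = starRingEnd ℂ (G z)) {m : ℕ} {H : ℝ}
    (hm : (10 : ℝ) ^ 9 ≤ m) (hH : 8 * m ≤ H) (h : Cone G m H ee) (hlow : Low G m (1 / 1000)) :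
    0 < (-1) ^ m * (iteratedDeriv (2 * m) (FF G) 0).re := by
  have hm0 : (0 : ℝ) < m := by linarith
  have he := ee_pos
  have heq : ee = 1 / 10 ^ 6 := rfl
  have hin : ∀ u : ℂ, ‖u - m * I‖ < 3 / 4 * m → u ∈ Kc m H := by
    intro u hu
    have a1 := (Complex.abs_re_le_norm (u - m * I)).trans hu.le
    have a2 := (Complex.abs_im_le_norm (u - m * I)).trans hu.le
    simp only [sub_re, mul_re, natCast_re, natCast_im, I_re, I_im, mul_zero,
      sub_zero, sub_im, mul_im, mul_one, add_zero] at a1 a2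
    rw [abs_le] at a1 a2
    refine ⟨by linarith [a2.1], by linarith [a2.2], ?_⟩
    rw [abs_le]
    constructor <;> linarith [a2.1, a1.1, a1.2]
  have hlip0 := cone_lip hG h he.le (c := m * I) (R := 65 / 100 * m) (r := m / 10)
    (by positivity) (fun u hu => hin u (by
      rw [mem_ball, dist_eq_norm] at hu
      linarith))
  have hconst : ee / (m / 10 / 2) = (2 / 10 ^ 5) / m := by
    rw [heq]; field_simp
  rw [hconst] at hlip0
  -- the saddle point
  obtain ⟨y, hy1, hy2, hy3⟩ : ∃ y : ℝ, m * (1 - 2 * ee) ≤ y ∧ y ≤ m * (1 + 2 * ee) ∧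
      -(y * (logDeriv G (y * I)).im) = m := by
    have hmem : ∀ y ∈ Set.Icc ((m : ℝ) * (1 - 2 * ee)) (m * (1 + 2 * ee)), ((y : ℂ) * I) ∈ Kc m H := by
      intro y hy
      refine hin _ ?_
      have : ((y : ℂ) * I - m * I) = ((y - m : ℝ) : ℂ) * I := by push_cast; ring
      rw [this, norm_mul, norm_I, mul_one, norm_real, Real.norm_eq_abs, abs_lt]
      rw [heq] at hy
      constructor <;> nlinarith [hy.1, hy.2]
    have him : ∀ y ∈ Set.Icc ((m : ℝ) * (1 - 2 * ee)) (m * (1 + 2 * ee)),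
        -(1 + ee) ≤ (logDeriv G (y * I)).im ∧ (logDeriv G (y * I)).im ≤ -(1 - ee) := by
      intro y hy
      have h1 := (Complex.abs_im_le_norm (logDeriv G (y * I) + I)).trans (h.ld _ (hmem y hy))
      rw [add_im, I_im, abs_le] at h1
      constructor <;> linarith [h1.1, h1.2]
    have hcont : ContinuousOn (fun y : ℝ => -(y * (logDeriv G (y * I)).im))
        (Set.Icc ((m : ℝ) * (1 - 2 * ee)) (m * (1 + 2 * ee))) := by
      intro y hy
      have h1 : AnalyticAt ℂ G (y * I) := hG.analyticAt _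
      have h2 : ContinuousAt (logDeriv G) ((y : ℂ) * I) :=
        (h1.deriv.div h1 (h.ne _ (hmem y hy))).continuousAt
      have h3 : ContinuousAt (fun y : ℝ => (y : ℂ) * I) y := by fun_prop
      have h4 : ContinuousAt (fun y : ℝ => logDeriv G ((y : ℂ) * I)) y :=
        ContinuousAt.comp (g := logDeriv G) (f := fun y : ℝ => (y : ℂ) * I) h2 h3
      exact ((continuousAt_id.mul (Complex.continuous_im.continuousAt.comp h4)).neg).continuousWithinAt
    have hab : (m : ℝ) * (1 - 2 * ee) ≤ m * (1 + 2 * ee) := by nlinarith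
    have ha := him _ (Set.left_mem_Icc.2 hab)
    have hb := him _ (Set.right_mem_Icc.2 hab)
    have hee : ee ≤ 1 / 10 := by rw [heq]; norm_num
    have hiv := intermediate_value_Icc hab hcont
    obtain ⟨y, hy, hy'⟩ := hiv (show (m : ℝ) ∈ Set.Icc _ _ from ⟨by
      have h1 : 0 ≤ (m : ℝ) * (1 - 2 * ee) := mul_nonneg hm0.le (by linarith)
      calc -((m : ℝ) * (1 - 2 * ee) * (logDeriv G (((m : ℝ) * (1 - 2 * ee) : ℝ) * I)).im) =
            (m : ℝ) * (1 - 2 * ee) * -(logDeriv G (((m : ℝ) * (1 - 2 * ee) : ℝ) * I)).im := by ring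
        _ ≤ (m : ℝ) * (1 - 2 * ee) * (1 + ee) := mul_le_mul_of_nonneg_left (by linarith [ha.1]) h1
        _ ≤ m * 1 := by
            rw [mul_assoc]
            exact mul_le_mul_of_nonneg_left (by nlinarith) hm0.le
        _ = m := mul_one _, by
      have h1 : 0 ≤ (m : ℝ) * (1 + 2 * ee) := by positivity
      calc (m : ℝ) = m * 1 := (mul_one _).symm
        _ ≤ (m : ℝ) * ((1 + 2 * ee) * (1 - ee)) := mul_le_mul_of_nonneg_left (by nlinarith) hm0.le
        _ = (m : ℝ) * (1 + 2 * ee) * (1 - ee) := by ring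
        _ ≤ (m : ℝ) * (1 + 2 * ee) * -(logDeriv G (((m : ℝ) * (1 + 2 * ee) : ℝ) * I)).im :=
            mul_le_mul_of_nonneg_left (by linarith [hb.2]) h1
        _ = _ := by ring⟩)
    exact ⟨y, hy.1, hy.2, hy'⟩
  have hylo : 99 / 100 * m ≤ y := by rw [heq] at hy1; nlinarith
  have hyhi : y ≤ 101 / 100 * m := by rw [heq] at hy2; nlinarith
  have hy0 : 0 < y := by linarith
  obtain ⟨v, hv⟩ : ∃ v : ℂ, v = y * I := ⟨_, rfl⟩
  have hvre : v.re = 0 := by rw [hv]; simp
  have hvim : v.im = y := by rw [hv]; simp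
  have hvn : ‖v‖ = y := by rw [hv, norm_mul, norm_I, mul_one, norm_real, Real.norm_of_nonneg hy0.le]
  have hvarg : arg v = Real.pi / 2 := by rw [hv, Complex.arg_real_mul _ hy0, Complex.arg_I]
  have hsv : sg v = v := by rw [hv]; exact sg_I y
  have hvm : ‖v - m * I‖ ≤ 2 * ee * m := by
    have : v - m * I = ((y - m : ℝ) : ℂ) * I := by rw [hv]; push_cast; ring
    rw [this, norm_mul, norm_I, mul_one, norm_real, Real.norm_eq_abs, abs_le]
    constructor <;> linarith
  have hballin : ∀ u ∈ ball (0 + v) (6 / 10 * m), u ∈ ball (m * I : ℂ) (65 / 100 * m) := by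
    intro u hu
    rw [mem_ball, dist_eq_norm, zero_add] at hu
    rw [mem_ball, dist_eq_norm]
    have : u - (m * I) = (u - v) + (v - m * I) := by ring
    rw [this]
    refine (norm_add_le _ _).trans_lt ?_
    have : 2 * ee * m ≤ 5 / 100 * m := by rw [heq]; nlinarith
    linarith
  have hballK : ∀ u ∈ ball (0 + v) (6 / 10 * m), u ∈ Kc m H := by
    intro u hu
    have := hballin u hu
    rw [mem_ball, dist_eq_norm] at this
    exact hin u (by linarith)
  have hballsg : ∀ u ∈ ball (0 + v) (6 / 10 * m), sg u ∈ ball (0 + v) (6 / 10 * m) := by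
    intro u hu
    rw [mem_ball, dist_eq_norm, zero_add] at hu ⊢
    rw [← hsv, sg_sub, norm_sg]
    exact hu
  have hvK : v ∈ Kc m H := hballK v (by rw [zero_add]; exact mem_ball_self (by positivity))
  have hGv : G v ≠ 0 := h.ne v hvK
  -- the value at the saddle
  have hFv : FF G v = ((‖G v‖ ^ 2 : ℝ) : ℂ) := by
    unfold FF
    rw [neg_eq hsym, hsv, Complex.mul_conj, Complex.normSq_eq_norm_sq]
  have hFvn : ‖FF G v‖ = ‖G v‖ ^ 2 := by
    rw [hFv, norm_real, Real.norm_of_nonneg (by positivity)]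
  have hF := FF_diff hG
  have hnorm : ∀ p : ℂ, ‖FF G p‖ = ‖G p‖ * ‖G (sg p)‖ := by
    intro p
    unfold FF
    rw [norm_mul, neg_eq hsym, Complex.norm_conj]
  obtain ⟨hpos, hmain⟩ := saddle3 hF (m := 2 * m) (z := 0) (z0 := 0) (v := v) (R := 6 / 10 * m)
    (L := 2 * ((2 / 10 ^ 5) / m)) (Y := 0) (by push_cast; linarith) (by positivity) (by
      intro u hu
      unfold FF
      refine mul_ne_zero (h.ne u (hballK u hu)) ?_
      rw [neg_eq hsym]
      exact (map_ne_zero _).2 (h.ne _ (hballK _ (hballsg u hu)))) (by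
      intro u hu u' hu'
      rw [ld_FF hG hsym (h.ne u (hballK u hu)) (h.ne _ (hballK _ (hballsg u hu))),
        ld_FF hG hsym (h.ne u' (hballK u' hu')) (h.ne _ (hballK _ (hballsg u' hu')))]
      have e : logDeriv G u - (starRingEnd ℂ) (logDeriv G (sg u)) -
          (logDeriv G u' - (starRingEnd ℂ) (logDeriv G (sg u'))) =
          (logDeriv G u - logDeriv G u') - (starRingEnd ℂ) (logDeriv G (sg u) - logDeriv G (sg u')) := by
        rw [map_sub]; ring
      rw [e]
      refine (norm_sub_le _ _).trans ?_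
      rw [Complex.norm_conj]
      have a1 := hlip0 u (hballin u hu) u' (hballin u' hu')
      have a2 := hlip0 _ (hballin _ (hballsg u hu)) _ (hballin _ (hballsg u' hu'))
      rw [sg_sub, norm_sg] at a2
      linarith) (by
      rw [zero_add, ld_FF hG hsym hGv (by rw [hsv]; exact hGv), hsv, Complex.sub_conj, hv]
      have h1 : ((y : ℂ) * I) * (((2 * (logDeriv G (y * I)).im : ℝ) : ℂ) * I) =
          ((2 * -(y * (logDeriv G (y * I)).im) : ℝ) : ℂ) := by
        push_cast
        linear_combination (2 * (y : ℂ) * ((logDeriv G (y * I)).im : ℂ)) * I_sq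
      rw [h1, hy3]
      push_cast; ring) (by rw [hvim, hvn]; linarith) (by simp)
    (by rw [hvn]; linarith) (by
      rw [hvn]
      push_cast
      calc y ^ 2 * (2 * (2 / 10 ^ 5 / (m : ℝ))) ≤ (101 / 100 * (m : ℝ)) ^ 2 * (2 * (2 / 10 ^ 5 / (m : ℝ))) := by
            gcongr
        _ = (101 / 100) ^ 2 * (4 / 10 ^ 5) * (m : ℝ) := by field_simp; ring
        _ ≤ 1 / 10000 * (2 * (m : ℝ)) := by linarith) (by simp) (by
      intro φ hφ hoff
      rw [hvarg] at hoff ⊢
      rw [zero_add, zero_add, hvn, hFvn, hnorm]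
      have hpi : |φ - arg v| ≤ Real.pi := by
        rw [hvarg, abs_le]; constructor <;> linarith [hφ.1, hφ.2, Real.pi_pos]
      have h7 := (gain hm0 hvm hpi).1
      rw [hvarg, hvn, hvim] at h7
      have h8 : 1 / 4 ≤ (φ - Real.pi / 2) ^ 2 := by rw [← sq_abs]; nlinarith
      have hsinn : 0 ≤ Real.sin φ := Real.sin_nonneg_of_mem_Icc hφ
      have hs1 := Real.sin_le_one φ
      obtain ⟨p, hp⟩ : ∃ p : ℂ, p = (y : ℂ) * cexp (φ * I) := ⟨_, rfl⟩
      have hpre : p.re = y * Real.cos φ := by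
        rw [hp, re_ofReal_mul, Complex.exp_ofReal_mul_I_re]
      have hpim : p.im = y * Real.sin φ := by
        rw [hp, im_ofReal_mul, Complex.exp_ofReal_mul_I_im]
      rw [← hp]
      have hcos : |y * Real.cos φ| ≤ y := by
        rw [abs_mul, abs_of_pos hy0]
        have := Real.abs_cos_le_one φ
        nlinarith
      have hsin0 : 0 ≤ y * Real.sin φ := by positivity
      have hsin1 : y * Real.sin φ ≤ y := by nlinarith
      have c1 := cmp (D := 6 * m) hG hsym h hlow hm0 (by linarith) (by norm_num)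
        (p := p) (q := v) (by rw [hpre]; linarith) (by rw [hpim, abs_of_nonneg hsin0]; linarith) hvK
        (by rw [hpre, hpim, hvre, hvim, abs_of_nonneg hsin0, abs_zero]; linarith) (by linarith)
      have c2 := cmp (D := 6 * m) hG hsym h hlow hm0 (by linarith) (by norm_num)
        (p := sg p) (q := v) (by rw [sg_re, abs_neg, hpre]; linarith)
        (by rw [sg_im, hpim, abs_of_nonneg hsin0]; linarith) hvK
        (by rw [sg_re, sg_im, abs_neg, hpre, hpim, hvre, hvim, abs_of_nonneg hsin0, abs_zero]; linarith)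
        (by linarith)
      rw [hpim, hvim, abs_of_nonneg hsin0] at c1
      rw [sg_im, hpim, hvim, abs_of_nonneg hsin0] at c2
      have c3 := mul_le_mul c1 c2 (norm_nonneg _) (by positivity)
      refine c3.trans ?_
      have e : ∀ a X : ℝ, a * Real.exp X * (a * Real.exp X) = a ^ 2 * Real.exp (2 * X) := by
        intro a X
        rw [two_mul, Real.exp_add]; ring
      rw [e]
      refine mul_le_mul_of_nonneg_left (Real.exp_le_exp.2 ?_) (by positivity)
      rw [heq]
      push_cast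
      nlinarith)
  -- conclusion
  rw [zero_add, hvn] at hmain
  rw [zero_add] at hpos
  have hc := cauchy_form hF (FF_sym hsym) (2 * m) hy0 0
  rw [map_zero] at hc
  have hcc : FF G v * cexp (-(((2 * m : ℕ) : ℂ) * arg v * I)) / (‖FF G v‖ : ℂ) = (((-1) ^ m : ℝ) : ℂ) := by
    have h1 : cexp (-(((2 * m : ℕ) : ℂ) * arg v * I)) = (((-1) ^ m : ℝ) : ℂ) := by
      rw [hvarg]
      have : (-(((2 * m : ℕ) : ℂ) * ((Real.pi / 2 : ℝ) : ℂ) * I)) = (m : ℂ) * (-(Real.pi * I)) := by
        push_cast; ring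
      rw [this, Complex.exp_nat_mul, Complex.exp_neg, Complex.exp_pi_mul_I]
      push_cast
      norm_num
    have h2 : (FF G v : ℂ) = (‖FF G v‖ : ℂ) := by rw [hFvn, hFv]
    have h3 : (‖FF G v‖ : ℂ) ≠ 0 := by exact_mod_cast hpos.ne'
    rw [h1]
    nth_rewrite 1 [h2]
    field_simp
  rw [hcc, Complex.conj_ofReal, Complex.re_ofReal_mul] at hmain
  have hposm : 0 < (-1) ^ m * (AA (FF G) (2 * m) y 0).re := by
    refine lt_of_lt_of_le ?_ hmain
    have : (0 : ℝ) < ((2 * m : ℕ) : ℝ) := by push_cast; linarith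
    positivity
  have hc2 := congrArg Complex.re hc
  have hK : (2 * (Real.pi : ℂ) * (y : ℂ) ^ (2 * m) / ((2 * m).factorial : ℂ)) =
      ((2 * Real.pi * y ^ (2 * m) / ((2 * m).factorial : ℝ) : ℝ) : ℂ) := by push_cast; rfl
  rw [hK, Complex.re_mul_ofReal, add_re, Complex.conj_re] at hc2
  have hKpos : 0 < 2 * Real.pi * y ^ (2 * m) / ((2 * m).factorial : ℝ) := by positivity
  have h4 : (-1) ^ m * (iteratedDeriv (2 * m) (FF G) 0).re * (2 * Real.pi * y ^ (2 * m) / ((2 * m).factorial : ℝ)) =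
      2 * ((-1) ^ m * (AA (FF G) (2 * m) y 0).re) := by
    rw [mul_assoc, hc2]; ring
  have h5 : 0 < (-1) ^ m * (iteratedDeriv (2 * m) (FF G) 0).re * (2 * Real.pi * y ^ (2 * m) / ((2 * m).factorial : ℝ)) := by
    rw [h4]; linarith
  exact pos_of_mul_pos_left h5 hKpos.le

end Pool.Agent.Helper75.LQ
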