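import Pool.Agent.Helper75.LQ.G2

/-! The contradiction. -/

set_option autoImplicit false
set_option maxHeartbeats 1000000

open Complex MeasureTheory Filter Topology

namespace Pool.Agent.Helper75.LQ

lemma div_aux (a b x y : ℝ) {D : ℝ} (hD : D ≠ 0) : (a / D * x + b / D * y) * D = a * x + b * y := by
  field_simp

theorem fin_of (hA1 : St_A1) (hgr : ∀ (A C : ℝ) (g : ℕ → ℂ → ℂ) (L : ℕ → ℝ), TS A C g L → ∀ c : ℝ, 32 ≤ c →
      ∀ᶠ j in atTop, Gr (g j) (vv c L j))
    (hD2 : St_D2) (hD3 : St_D3) (hG1 : St_G1) (hG2 : St_G2) : St_fin := by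
  intro A C g L h
  have hA0 := h.A0
  have hAh := h.A1
  obtain ⟨c2, hc2⟩ := hD2 A C g L h
  obtain ⟨c3, hc3⟩ := hD3 A C g L h (1 / 1000) (by norm_num)
  obtain ⟨c4, hc4⟩ := hG2 A C g L h
  obtain ⟨c, hcdef⟩ : ∃ c : ℝ, c = max c2 (max c3 (max c4 (max (1 / A) 32))) := ⟨_, rfl⟩
  have k2 : c2 ≤ c := by rw [hcdef]; exact le_max_left _ _
  have k3 : c3 ≤ c := by rw [hcdef]; exact (le_max_left _ _).trans (le_max_right _ _)
  have k4 : c4 ≤ c := by
    rw [hcdef]; exact ((le_max_left _ _).trans (le_max_right _ _)).trans (le_max_right _ _)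
  have k7 : 32 ≤ c := by
    rw [hcdef]
    exact (((le_max_right _ _).trans (le_max_right _ _)).trans (le_max_right _ _)).trans (le_max_right _ _)
  have hc0 : 0 < c := by linarith
  obtain ⟨u, hu⟩ : ∃ u : ℝ, u = 1 / c := ⟨_, rfl⟩
  have hu0 : 0 < u := by rw [hu]; positivity
  have hu1 : u ≤ 1 / 10 := by rw [hu]; apply one_div_le_one_div_of_le <;> linarith
  have hdiv : ∀ x : ℝ, x / c = x * u := by intro x; rw [hu]; field_simp
  have e5 : 1 / (5 * c) = u / 5 := by rw [hu]; field_simp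
  have e80 : 1 / (80 * c) = u / 80 := by rw [hu]; field_simp
  have e8 : 1 / (8 * c) = u / 8 := by rw [hu]; field_simp
  have e2 : 1 / (2 * c) = u / 2 := by rw [hu]; field_simp
  obtain ⟨R, hR0, hR⟩ := hG1 (2 * A + u / 5) (2 * A + u * (501 / 1000)) 2 (A + u / 80)
    (1 - u * (126 / 1000)) 0 (u / 1000) (by linarith) (by linarith) (by positivity)
  have hev := (hgr A C g L h c k7).and ((hc2 c k2 (u / 1000) (by positivity) 0).and
    ((hc3 c k3 R).and ((hc4 c k4 R).and (h.lim.eventually_ge_atTop 1))))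
  obtain ⟨j, jgr, j2, j3, j4, hL1⟩ := hev.exists
  have hL0 : 0 < L j := by linarith
  have hv : 0 < vv c L j := by rw [vv]; positivity
  have hdiff : Differentiable ℂ (F (g j) (vv c L j)) := hA1 (g j) (vv c L j) (h.ent j) hv jgr
  have hform : ∀ z : ℂ, z = (z.re : ℂ) + I * (z.im : ℂ) := by
    intro z
    apply Complex.ext <;> simp
  have hlow : ∀ z : ℂ, |z.re| ≤ R → 2 * A + u / 5 ≤ z.im → z.im ≤ 2 →
      Real.exp (L j * (A + u / 80)) ≤ ‖F (g j) (vv c L j) z‖ := by
    intro z h1 h2 h3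
    have h4 := j4 z.re z.im h1 (by rw [e5]; exact h2) h3
    rw [← hform z, e80] at h4
    exact h4
  have hG := hR (F (g j) (vv c L j)) (L j) hL0 hdiff (fun z h1 h2 h3 => by
      refine le_trans ?_ (hlow z h1 h2 h3)
      apply Real.exp_le_exp.2
      have : 0 ≤ L j * (A + u / 80) := by positivity
      linarith) (fun z h1 h2 => hlow z h1 (by rw [h2]) (by rw [h2]; linarith)) (fun z h1 h2 => by
      have h3 := j3 z h1 (by rw [hdiv, h2]; linarith) (by rw [h2])
      rw [hdiv, h2] at h3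
      refine le_trans (Real.exp_le_exp.2 ?_) h3
      refine mul_le_mul_of_nonneg_left ?_ hL0.le
      linarith)
  have him : (I * ((2 * A + u * (501 / 1000) : ℝ) : ℂ)).im = 2 * A + u * (501 / 1000) := by simp
  have hre : (I * ((2 * A + u * (501 / 1000) : ℝ) : ℂ)).re = 0 := by simp
  have hU := j2 (I * ((2 * A + u * (501 / 1000) : ℝ) : ℂ)) (by rw [hre]; simp)
    (by rw [him, e2]; linarith) (by rw [him]; linarith)
  rw [him, e8] at hU
  have hcmp := Real.exp_le_exp.1 (hG.trans hU)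
  have hcmp2 := le_of_mul_le_mul_left hcmp hL0
  have hD : 0 < 2 - (2 * A + u / 5) := by linarith
  have key : (2 - (2 * A + u * (501 / 1000))) * (A + u / 80) +
      ((2 * A + u * (501 / 1000)) - (2 * A + u / 5)) * (1 - u * (126 / 1000)) ≤
      ((2 * A + u * (501 / 1000)) / 2 - u / 8 + u / 1000 + u / 1000) * (2 - (2 * A + u / 5)) := by
    have h1 : (2 - (2 * A + u * (501 / 1000))) / (2 - (2 * A + u / 5)) * (A + u / 80) +
        ((2 * A + u * (501 / 1000)) - (2 * A + u / 5)) / (2 - (2 * A + u / 5)) * (1 - u * (126 / 1000)) ≤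
        (2 * A + u * (501 / 1000)) / 2 - u / 8 + u / 1000 + u / 1000 := by linarith
    have h2 := mul_le_mul_of_nonneg_right h1 hD.le
    rwa [div_aux _ _ _ _ hD.ne'] at h2
  nlinarith [mul_pos hu0 (show 0 < 1 - A by linarith)]

end Pool.Agent.Helper75.LQ
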