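import Pool.Agent.Helper75.LQ.Low

/-! Package G2: lower bound for `F` above the height `2A + 1/(5c)`. -/

set_option autoImplicit false
set_option maxHeartbeats 2000000

open Complex MeasureTheory Filter Topology

namespace Pool.Agent.Helper75.LQ

lemma ga_conj (v : ℝ) (w : ℝ) : (starRingEnd ℂ) (ga v w) = ga v w := by
  unfold ga
  rw [map_div₀, ← Complex.exp_conj, Complex.conj_ofReal]
  congr 2
  simp [map_div₀, map_neg, map_pow, map_mul, Complex.conj_ofReal, Complex.conj_ofNat]

lemma F_conj {g : ℂ → ℂ} (hg : ∀ z, g ((starRingEnd ℂ) z) = (starRingEnd ℂ) (g z)) (v : ℝ) (z : ℂ) :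
    F g v ((starRingEnd ℂ) z) = (starRingEnd ℂ) (F g v z) := by
  unfold F
  rw [← integral_conj]
  congr 1
  funext w
  rw [map_mul, ga_conj, ← hg, map_sub, Complex.conj_ofReal]

lemma norm_F_conj {g : ℂ → ℂ} (hg : ∀ z, g ((starRingEnd ℂ) z) = (starRingEnd ℂ) (g z)) (v : ℝ) (z : ℂ) :
    ‖F g v ((starRingEnd ℂ) z)‖ = ‖F g v z‖ := by
  rw [F_conj hg, Complex.norm_conj]

theorem st_g2 (hD3 : St_D3) (hD4 : St_D4) (hE3 : St_E3) : St_G2 := by
  intro A C g L h
  have hA0 := h.A0
  have hA1 := h.A1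
  obtain ⟨c3, hc3⟩ := hD3 A C g L h (1 / 1000) (by norm_num)
  obtain ⟨c4, hc4⟩ := hD4 A C g L h
  obtain ⟨c5, hc5⟩ := hE3 A C g L h
  refine ⟨max c3 (max c4 (max c5 (max (1 / A) 10))), fun c hc R => ?_⟩
  have k3 : c3 ≤ c := (le_max_left _ _).trans hc
  have k4 : c4 ≤ c := ((le_max_left _ _).trans (le_max_right _ _)).trans hc
  have k5 : c5 ≤ c := (((le_max_left _ _).trans (le_max_right _ _)).trans (le_max_right _ _)).trans hc
  have k6 : 1 / A ≤ c :=
    ((((le_max_left _ _).trans (le_max_right _ _)).trans (le_max_right _ _)).trans (le_max_right _ _)).trans hc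
  have k7 : 10 ≤ c :=
    ((((le_max_right _ _).trans (le_max_right _ _)).trans (le_max_right _ _)).trans (le_max_right _ _)).trans hc
  have hc0 : 0 < c := by linarith
  have hcA : 1 ≤ c * A := by rwa [div_le_iff₀ hA0] at k6
  -- `u = 1 / c`
  obtain ⟨u, hu⟩ : ∃ u : ℝ, u = 1 / c := ⟨_, rfl⟩
  have hu0 : 0 < u := by rw [hu]; positivity
  have huc : u * c = 1 := by rw [hu]; field_simp
  have hu1 : u ≤ 1 / 10 := by rw [hu]; apply one_div_le_one_div_of_le <;> linarith
  have huA : u ≤ A := by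
    have : u * 1 ≤ u * (c * A) := by gcongr
    nlinarith
  obtain ⟨b0, hb0⟩ : ∃ b0 : ℝ, b0 = u ^ 2 / 4000 := ⟨_, rfl⟩
  have hb00 : 0 < b0 := by rw [hb0]; positivity
  have hb1 : b0 ≤ u / 40000 := by rw [hb0]; nlinarith
  have hb2 : c * b0 = u / 4000 := by
    rw [hb0]
    calc c * (u ^ 2 / 4000) = (u * c) * u / 4000 := by ring
      _ = u / 4000 := by rw [huc]; ring
  filter_upwards [hc3 c k3 (|R| + 1), hc4 c k4 (u / 1000) (by positivity) (|R| + 1),
    hc5 c k5 (|R| + 1) (u / 500) b0 (u / 1000) (by positivity) (by positivity) (by linarith) hb00 (by positivity),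
    h.lim.eventually_ge_atTop 1, exp_big (a := u / 200) (b := 2) (by positivity) L h.lim]
    with j d3 d4 e3 hL1 g1 s y hs hy1 hy2
  have hL0 : 0 < L j := by linarith
  have hRR : |s| ≤ |R| := hs.trans (le_abs_self R)
  have e5 : 1 / (5 * c) = u / 5 := by rw [hu]; field_simp
  have e80 : 1 / (80 * c) = u / 80 := by rw [hu]; field_simp
  rw [e5] at hy1
  rw [e80]
  have hdiv : ∀ x : ℝ, x / c = x * u := by intro x; rw [hu]; field_simp
  have hsre : ∀ Z : ℝ, ((s : ℂ) + I * Z).re = s := by intro Z; simp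
  have hsim : ∀ Z : ℝ, ((s : ℂ) + I * Z).im = Z := by intro Z; simp
  rcases le_or_gt (2 * A + (1 / 2 + 1 / 1000) / c) y with hy3 | hy3
  · -- the plane wave
    have h1 := d3 (s + I * y) (by rw [hsre]; linarith) (by rw [hsim]; exact hy3) (by rw [hsim]; exact hy2)
    rw [hsim] at h1
    refine le_trans (Real.exp_le_exp.2 (mul_le_mul_of_nonneg_left ?_ hL0.le)) h1
    rw [hdiv] at hy3 ⊢
    linarith
  · rw [hdiv] at hy3
    obtain ⟨e, he⟩ : ∃ e : ℝ, e = y - 2 * A := ⟨_, rfl⟩
    have he1 : u / 5 ≤ e := by linarith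
    have he2 : e ≤ u * (501 / 1000) := by linarith
    obtain ⟨σ0, hσ0⟩ : ∃ σ0 : ℝ, σ0 = max (u * (502 / 1000) - e) (e + u / 500) := ⟨_, rfl⟩
    have hσa : u * (502 / 1000) - e ≤ σ0 := by rw [hσ0]; exact le_max_left _ _
    have hσb : e + u / 500 ≤ σ0 := by rw [hσ0]; exact le_max_right _ _
    have hσc : σ0 ≤ u * (503 / 1000) := by
      rw [hσ0]; exact max_le (by linarith) (by linarith)
    have hσpos : 0 < σ0 := by linarith
    -- the main inequality
    have hmain : u * (346 / 10000) ≤ (σ0 + e) / 2 - u / 8 - c * σ0 ^ 2 := by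
      have key : ∀ x : ℝ, c * (u * x) ^ 2 = u * x ^ 2 := by
        intro x
        calc c * (u * x) ^ 2 = (u * c) * (u * x ^ 2) := by ring
          _ = _ := by rw [huc]; ring
      obtain ⟨t, ht⟩ : ∃ t : ℝ, e = u * t := ⟨e * c, by rw [mul_comm e c, ← mul_assoc, huc, one_mul]⟩
      have ht1 : 1 / 5 ≤ t := by
        rw [ht] at he1
        have : u * (1 / 5) ≤ u * t := by linarith
        exact le_of_mul_le_mul_left this hu0
      have ht2 : t ≤ 501 / 1000 := by
        rw [ht] at he2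
        exact le_of_mul_le_mul_left he2 hu0
      rcases le_total (e + u / 500) (u * (502 / 1000) - e) with hh | hh
      · have e1 : σ0 = u * (502 / 1000 - t) := by rw [hσ0, max_eq_left hh, ht]; ring
        rw [e1, key, ht]
        have : u * (346 / 10000) ≤ u * ((502 / 1000) / 2 - 1 / 8 - (502 / 1000 - t) ^ 2) := by
          refine mul_le_mul_of_nonneg_left ?_ hu0.le
          rw [ht] at hh
          have h5 : t ≤ 1 / 4 := by
            have : u * (2 * t) ≤ u * (1 / 2) := by linarith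
            have := le_of_mul_le_mul_left this hu0
            linarith
          nlinarith
        linarith
      · have e1 : σ0 = u * (t + 1 / 500) := by rw [hσ0, max_eq_right hh, ht]; ring
        rw [e1, key, ht]
        have : u * (346 / 10000) ≤ u * ((2 * t + 1 / 500) / 2 - 1 / 8 - (t + 1 / 500) ^ 2) := by
          refine mul_le_mul_of_nonneg_left ?_ hu0.le
          rw [ht] at hh
          have h5 : 1 / 4 ≤ t := by
            have : u * (1 / 2) ≤ u * (2 * t) := by linarith
            have := le_of_mul_le_mul_left this hu0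
            linarith
          nlinarith
        linarith
    -- a point where `F` is large
    obtain ⟨z, hz1, hz2⟩ := e3 ((s : ℂ) + I * ((y - σ0 : ℝ) : ℂ)) (by rw [hsre]; linarith) (by
      rw [hsim, abs_le]
      constructor
      · linarith
      · linarith)
    obtain ⟨b, hb⟩ : ∃ b : ℝ, b = z.re - s := ⟨_, rfl⟩
    obtain ⟨σ, hσ⟩ : ∃ σ : ℝ, σ = y - z.im := ⟨_, rfl⟩
    have hbabs : |b| ≤ b0 := by
      have h1 := Complex.abs_re_le_norm (z - ((s : ℂ) + I * ((y - σ0 : ℝ) : ℂ)))
      rw [sub_re, hsre] at h1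
      rw [hb]
      linarith
    have hσabs : |σ - σ0| ≤ b0 := by
      have h1 := Complex.abs_im_le_norm (z - ((s : ℂ) + I * ((y - σ0 : ℝ) : ℂ)))
      rw [sub_im, hsim] at h1
      have e1 : σ - σ0 = -(z.im - (y - σ0)) := by rw [hσ]; ring
      rw [e1, abs_neg]
      linarith
    obtain ⟨hσ1, hσ2⟩ := abs_le.1 hσabs
    have hσ0' : 0 ≤ σ := by linarith
    have hD := d4 s y b σ (by linarith) (by linarith) hy2 (by linarith) (by rw [abs_of_nonneg hσ0']; linarith)
    -- the two factors
    have hz3 : z = (starRingEnd ℂ) ((s : ℂ) + b + I * (σ - y)) := by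
      apply Complex.ext
      · simp [hb]
      · simp [hσ]
    have hf2 : Real.exp (L j * (A - u / 1000)) ≤ ‖F (g j) (vv c L j) ((s : ℂ) + b + I * (σ - y))‖ := by
      rw [← norm_F_conj (h.re j), ← hz3]
      exact hz2
    have hre1 : ((s : ℂ) + b + I * (σ + y)).re = s + b := by simp
    have him1 : ((s : ℂ) + b + I * (σ + y)).im = σ + y := by simp
    have hsb : |s + b| ≤ |R| + 1 := (abs_add_le _ _).trans (by linarith)
    have hf1 := d3 ((s : ℂ) + b + I * (σ + y)) (by rw [hre1]; exact hsb)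
      (by rw [him1, hdiv]; linarith) (by rw [him1]; linarith)
    rw [him1, hdiv] at hf1
    have hprod : Real.exp (L j * ((σ + y) / 2 - (1 / 8 + 1 / 1000) * u)) * Real.exp (L j * (A - u / 1000)) ≤
        Real.exp (L j * (c * σ ^ 2 + 2 * c * |b|)) *
          (‖F (g j) (vv c L j) (s + I * y)‖ ^ 2 + Real.exp (L j * (2 * A + u / 1000))) :=
      (mul_le_mul hf1 hf2 (Real.exp_pos _).le (norm_nonneg _)).trans hD
    -- exponents
    have hcσ : c * σ ^ 2 ≤ c * σ0 ^ 2 + u / 2000 := by
      have h1 : σ ^ 2 ≤ (σ0 + b0) ^ 2 := by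
        apply pow_le_pow_left₀ hσ0'
        linarith
      have h2 : c * σ ^ 2 ≤ c * (σ0 + b0) ^ 2 := by gcongr
      have h3 : c * (σ0 + b0) ^ 2 = c * σ0 ^ 2 + (c * b0) * (2 * σ0 + b0) := by ring
      rw [h3, hb2] at h2
      have h4 : 2 * σ0 + b0 ≤ 1 := by linarith
      nlinarith
    have hcb : 2 * c * |b| ≤ u / 2000 := by
      have : 2 * c * |b| ≤ 2 * c * b0 := by gcongr
      nlinarith
    have hexp : 2 * A + u * (3 / 100) ≤ ((σ + y) / 2 - (1 / 8 + 1 / 1000) * u) + (A - u / 1000) -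
        (c * σ ^ 2 + 2 * c * |b|) := by
      have : y = 2 * A + e := by rw [he]; ring
      rw [this]
      linarith
    have h20 : Real.exp (L j * (2 * A + u * (3 / 100))) ≤
        ‖F (g j) (vv c L j) (s + I * y)‖ ^ 2 + Real.exp (L j * (2 * A + u / 1000)) := by
      have hp := Real.exp_pos (L j * (c * σ ^ 2 + 2 * c * |b|))
      refine le_of_mul_le_mul_left (le_trans ?_ hprod) hp
      rw [← Real.exp_add, ← Real.exp_add]
      apply Real.exp_le_exp.2
      nlinarith
    have h21 : 2 * Real.exp (L j * (2 * A + u / 40)) ≤ Real.exp (L j * (2 * A + u * (3 / 100))) := by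
      calc 2 * Real.exp (L j * (2 * A + u / 40)) ≤ Real.exp (L j * (u / 200)) * Real.exp (L j * (2 * A + u / 40)) := by
            gcongr
        _ = _ := by rw [← Real.exp_add]; congr 1; ring
    have h22 : Real.exp (L j * (2 * A + u / 1000)) ≤ Real.exp (L j * (2 * A + u / 40)) := by
      apply Real.exp_le_exp.2
      refine mul_le_mul_of_nonneg_left ?_ hL0.le
      linarith
    have h23 : Real.exp (L j * (A + u / 80)) ^ 2 ≤ ‖F (g j) (vv c L j) (s + I * y)‖ ^ 2 := by
      have : Real.exp (L j * (A + u / 80)) ^ 2 = Real.exp (L j * (2 * A + u / 40)) := by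
        rw [← Real.exp_nat_mul]; congr 1; push_cast; ring
      rw [this]
      linarith
    exact (pow_le_pow_iff_left₀ (Real.exp_pos _).le (norm_nonneg _) two_ne_zero).1 h23

end Pool.Agent.Helper75.LQ
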