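import Pool.Agent.Helper75.LQ.LinFin
import Pool.Agent.Helper75.LQ.End
import Pool.Agent.Helper82.LQ.L4
import Pool.Agent.Helper59.LQ.L3
import Pool.Agent.Helper85.LQ.Fine
import Pool.Agent.Helper85.LQ.Lin012

/-! The linear law. -/

set_option autoImplicit false

namespace Pool.Agent.Helper75.LQ

theorem lin_all (hfin : St_fin) : St_lin :=
  lin_of Helper68.LQ.st_Z1 Helper85.LQ.st_L2 (Helper59.LQ.st_L3 Helper68.LQ.st_Z3 Helper68.LQ.st_Z4
    Helper85.LQ.st_L2 Helper85.LQ.st_L5) (Helper82.LQ.st_l4 hfin)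

end Pool.Agent.Helper75.LQ
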