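import Pool.Agent.Helper75.LQ.Lin

/-! The linear law from its packages. -/

set_option autoImplicit false
set_option maxHeartbeats 1000000

open Complex MeasureTheory Filter Topology

namespace Pool.Agent.Helper75.LQ

open Pool.Agent.Helper75.JE Pool.Agent.Helper85.LG

lemma UpA.mono {A A' : ℝ} (h : UpA A) (hA : A ≤ A') : UpA A' := by
  intro ε hε
  obtain ⟨C, hC⟩ := h ε hε
  refine ⟨|C|, fun t ht => (hC t ht).trans ?_⟩
  have h1 : t ^ (A + ε) ≤ t ^ (A' + ε) := Real.rpow_le_rpow_of_exponent_le ht (by linarith)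
  have h2 : 0 ≤ t ^ (A + ε) := Real.rpow_nonneg (by linarith) _
  calc C * t ^ (A + ε) ≤ |C| * t ^ (A + ε) := by gcongr; exact le_abs_self C
    _ ≤ _ := by gcongr

/-- the rightmost zeros, from the core of the argument -/
theorem few_of_core (hL2 : St_L2) {A κ : ℝ} (hA0 : 0 ≤ A) (hA1 : A ≤ 1 / 2) (hκ : 0 ≤ κ) (hU : UpA A)
    (hL : ∀ c > κ, LagC c) : ∀ ε > 0, Few (1 / 2 + (4 * A + 16 * κ + ε)) := by
  set E : Set ℝ := {b : ℝ | 0 ≤ b ∧ Few (1 / 2 + b)} with hE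
  have hhalf : (1 / 2 : ℝ) ∈ E := ⟨by norm_num, by norm_num; exact few_one⟩
  have hbd : BddBelow E := ⟨0, fun b hb => hb.1⟩
  have hne : E.Nonempty := ⟨_, hhalf⟩
  obtain ⟨B, hB⟩ : ∃ B : ℝ, B = sInf E := ⟨_, rfl⟩
  have hB0 : 0 ≤ B := by rw [hB]; exact le_csInf hne fun b hb => hb.1
  have hB1 : B ≤ 1 / 2 := by rw [hB]; exact csInf_le hbd hhalf
  have hfew : ∀ ε > 0, Few (1 / 2 + (B + ε)) := by
    intro ε hε
    obtain ⟨b, hb, hbB⟩ := exists_lt_of_csInf_lt hne (show sInf E < B + ε by rw [← hB]; linarith)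
    exact hb.2.mono (by linarith)
  have hle : B ≤ 4 * A + 16 * κ := by
    by_contra hcon
    rw [not_le] at hcon
    have hBpos : 0 < B := by linarith
    have hlog : Real.log (B / (B / 8)) ≤ 21 / 10 := by
      have e : B / (B / 8) = 2 ^ 3 := by field_simp; norm_num
      rw [e, Real.log_pow]
      have := Real.log_two_lt_d9
      push_cast
      linarith
    obtain ⟨b', hb', hF⟩ := hL2 A κ (B / 8) B hA0 hA1 hκ (by positivity) (by linarith) hB1 hU hL hfew (by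
      have : 2 * κ * Real.log (B / (B / 8)) ≤ 2 * κ * (21 / 10) := by gcongr
      linarith)
    have hmem : max b' 0 ∈ E := ⟨le_max_right _ _, hF.mono (by linarith [le_max_left b' 0])⟩
    have h1 : B ≤ max b' 0 := by rw [hB]; exact csInf_le hbd hmem
    have h2 : max b' 0 < B := max_lt hb' hBpos
    linarith
  intro ε hε
  exact (hfew ε hε).mono (by linarith)

theorem lin_of (hZ1 : St_Z1) (hL2 : St_L2) (hL3 : St_L3) (hL4 : St_L4) : St_lin := by
  obtain ⟨C, B, hC, h3⟩ := hL3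
  obtain ⟨ε, hε, h4⟩ := hL4 (1 / 2) C B (by norm_num) le_rfl hC
  obtain ⟨ρ, hρ, h3⟩ := h3 ε hε
  refine ⟨4 / ρ + 16, by positivity, fun κ hκ hL => ?_⟩
  -- the exponent on the critical line
  obtain ⟨A, hA0, hA1, hU, hAκ⟩ : ∃ A : ℝ, 0 ≤ A ∧ A ≤ 1 / 2 ∧ UpA A ∧ ρ * A ≤ κ := by
    by_cases hLH : LHyp
    · refine ⟨0, le_rfl, by norm_num, ?_, by simpa using hκ⟩
      intro δ hδ
      obtain ⟨C', hC'⟩ := hLH δ hδ
      exact ⟨C', fun t ht => by rw [zero_add]; exact hC' t ht⟩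
    · obtain ⟨A, hA0, hA1, hU, hatt⟩ := hZ1 hLH
      refine ⟨A, hA0.le, hA1, hU, ?_⟩
      by_contra hcon
      rw [not_le] at hcon
      obtain ⟨g, L, hT⟩ := h3 A κ hA0 hA1 hκ hcon.le hU hatt hL
      exact h4 g L hT
  have hAκ' : A ≤ κ / ρ := by rw [le_div_iff₀ hρ]; linarith
  have e1 : (4 / ρ + 16) * κ = 4 * (κ / ρ) + 16 * κ := by ring
  have hκρ : 0 ≤ κ / ρ := by positivity
  refine ⟨hU.mono (by rw [e1]; linarith), fun δ hδ => ?_⟩
  exact (few_of_core hL2 hA0 hA1 hκ hU hL δ hδ).mono (by rw [e1]; linarith)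

end Pool.Agent.Helper75.LQ
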