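import Pool.Agent.Helper75.LQ.C2a

/-! The terms of low order. -/

set_option autoImplicit false
set_option maxHeartbeats 1000000

open Complex MeasureTheory Filter Topology

namespace Pool.Agent.Helper75.LQ

lemma MM_le {C : ℝ} {L : ℕ → ℝ} {j : ℕ} (hC : 10 ≤ C) (hL : 1 ≤ L j) : (MM C L j : ℝ) ≤ 3 * C * L j := by
  have h1 : (MM C L j : ℝ) < 2 * C * L j + 1 := by
    rw [MM]
    exact Nat.ceil_lt_add_one (by positivity)
  nlinarith

lemma exp_big {a b : ℝ} (ha : 0 < a) (L : ℕ → ℝ) (hL : Tendsto L atTop atTop) :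
    ∀ᶠ j in atTop, b ≤ Real.exp (L j * a) := by
  have h1 : Tendsto (fun j => Real.exp (L j * a)) atTop atTop :=
    Real.tendsto_exp_atTop.comp (hL.atTop_mul_const ha)
  exact h1.eventually_ge_atTop b

lemma lin_le_exp {a b : ℝ} (ha : 0 < a) (L : ℕ → ℝ) (hL : Tendsto L atTop atTop) :
    ∀ᶠ j in atTop, b * L j ≤ Real.exp (L j * a) := by
  filter_upwards [exp_big (b := 2 * |b| / a) (half_pos ha) L hL, hL.eventually_ge_atTop 0] with j h1 h2
  have h3 := Real.add_one_le_exp (L j * (a / 2))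
  have e : Real.exp (L j * a) = Real.exp (L j * (a / 2)) * Real.exp (L j * (a / 2)) := by
    rw [← Real.exp_add]; congr 1; ring
  rw [e]
  have h4 : L j * (a / 2) ≤ Real.exp (L j * (a / 2)) := by linarith
  calc b * L j ≤ |b| * L j := by gcongr; exact le_abs_self b
    _ = 2 * |b| / a * (L j * (a / 2)) := by field_simp
    _ ≤ _ := by gcongr

/-- terms of low order are at most `e^((2A+η)L)` -/
theorem low_sum (h0c : St_C0c) {A C : ℝ} {g : ℕ → ℂ → ℂ} {L : ℕ → ℝ} (h : TS A C g L) {η : ℝ} (hη : 0 < η)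
    (R : ℝ) : ∃ κ : ℝ, 0 < κ ∧ ∀ᶠ j in atTop, ∀ s : ℝ, |s| ≤ R → ∀ a : ℕ → ℝ, (∀ m, m < MM C L j → |a m| ≤ 3 ^ (2 * m)) →
      ∑ m ∈ (Finset.range (MM C L j)).filter (fun m : ℕ => ¬ κ * L j ≤ (m : ℝ)), |Lag (g j) s m * a m| ≤
        Real.exp (L j * (2 * A + η)) := by
  have hA0 := h.A0
  have hA1 := h.A1
  have hq : 3 ≤ 3 / (2 * A) := by
    rw [le_div_iff₀ (by linarith)]; linarith
  set b : ℝ := Real.log (3 / (2 * A)) with hb
  have hb0 : 0 < b := Real.log_pos (by linarith)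
  refine ⟨η / (8 * b), by positivity, ?_⟩
  filter_upwards [h0c A C g L h (η / 4) (by positivity) R, h.lim.eventually_ge_atTop 1,
    lin_le_exp (a := η / 4) (b := 3 * C) (by positivity) L h.lim] with j hj hL1 hlin s hs a ha
  have hC := h.C1
  have hterm : ∀ m ∈ (Finset.range (MM C L j)).filter (fun m : ℕ => ¬ η / (8 * b) * L j ≤ (m : ℝ)),
      |Lag (g j) s m * a m| ≤ Real.exp (L j * (2 * A + η / 2)) := by
    intro m hm
    rw [Finset.mem_filter, not_le, Finset.mem_range] at hm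
    have h1 := hj s m hs
    rw [abs_mul]
    have e1 : Real.exp (L j * (2 * A + η / 4)) / (2 * A) ^ (2 * m) * 3 ^ (2 * m) =
        Real.exp (L j * (2 * A + η / 4)) * (3 / (2 * A)) ^ (2 * m) := by
      rw [div_pow]
      field_simp
    have e2 : (3 / (2 * A)) ^ (2 * m) = Real.exp ((2 * m : ℝ) * b) := by
      have h9 := Real.exp_nat_mul b (2 * m)
      rw [hb, Real.exp_log (by linarith)] at h9
      rw [← h9, hb]
      push_cast
      rfl
    have h2 : (2 * m : ℝ) * b ≤ L j * (η / 4) := by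
      have : (m : ℝ) * (8 * b) ≤ η * L j := by
        have := hm.2.le
        rw [div_mul_eq_mul_div, le_div_iff₀ (by positivity)] at this
        linarith
      linarith
    calc |Lag (g j) s m| * |a m| ≤ Real.exp (L j * (2 * A + η / 4)) / (2 * A) ^ (2 * m) * 3 ^ (2 * m) :=
          mul_le_mul h1 (ha m hm.1) (abs_nonneg _) (by positivity)
      _ = Real.exp (L j * (2 * A + η / 4)) * Real.exp ((2 * m : ℝ) * b) := by rw [e1, e2]
      _ ≤ Real.exp (L j * (2 * A + η / 4)) * Real.exp (L j * (η / 4)) := by gcongr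
      _ = _ := by rw [← Real.exp_add]; congr 1; ring
  have hcard : (((Finset.range (MM C L j)).filter (fun m : ℕ => ¬ η / (8 * b) * L j ≤ (m : ℝ))).card : ℝ) ≤
      3 * C * L j := by
    refine le_trans ?_ (MM_le hC hL1)
    exact_mod_cast (Finset.card_filter_le _ _).trans (by simp)
  calc _ ≤ ∑ m ∈ (Finset.range (MM C L j)).filter (fun m : ℕ => ¬ η / (8 * b) * L j ≤ (m : ℝ)),
        Real.exp (L j * (2 * A + η / 2)) := Finset.sum_le_sum hterm
    _ = (((Finset.range (MM C L j)).filter (fun m : ℕ => ¬ η / (8 * b) * L j ≤ (m : ℝ))).card : ℝ) *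
        Real.exp (L j * (2 * A + η / 2)) := by rw [Finset.sum_const, nsmul_eq_mul]
    _ ≤ Real.exp (L j * (η / 4)) * Real.exp (L j * (2 * A + η / 2)) := by
        gcongr
        exact hcard.trans hlin
    _ ≤ _ := by
        rw [← Real.exp_add]
        apply Real.exp_le_exp.2
        nlinarith

end Pool.Agent.Helper75.LQ
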