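import Pool.Agent.Helper75.LQ.DetL
import Pool.Agent.Helper75.Xi.Fin1
import Pool.Agent.Helper85.LG.Fin
import Pool.Agent.Helper85.LQ.Lin012

/-! Laguerre inequalities of all large orders outside a set of small density. -/

set_option autoImplicit false
set_option maxHeartbeats 1000000

open Complex Filter Topology Metric MeasureTheory
open scoped ENNReal

namespace Pool.Agent.Helper75.LQ

open Pool.Agent.Helper75.Jen Pool.Agent.Helper75.Xi
open Pool.Agent.Helper85.LG (xi xi_diff G_diff Lm G)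

lemma fx_xi (w : ℂ) : fx w = 8 * xi (1 / 2 + w) := by
  unfold fx xi
  ring

/-- the product for the rescaled function -/
lemma FF_Gp (t P : ℝ) (z : ℂ) : FF (Gp t P) z = 64 * G t ((-(I / P)) * z) := by
  unfold FF Gp G
  have h1 : wp t P z = -(I / P) * z + t * I := by unfold wp; ring
  have h2 : wp t P (-z) = -(-(I / P) * z - t * I) := by unfold wp; ring
  rw [h2, fx_even, h1, fx_xi, fx_xi]
  have e1 : (1 / 2 + (-(I / P) * z + t * I) : ℂ) = 1 / 2 + -(I / P) * z + t * I := by ring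
  have e2 : (1 / 2 + (-(I / P) * z - t * I) : ℂ) = 1 / 2 + -(I / P) * z - t * I := by ring
  rw [e1, e2]
  ring

lemma iter_FF {t P : ℝ} (hP : 0 < P) (m : ℕ) : (-1) ^ m * (iteratedDeriv (2 * m) (FF (Gp t P)) 0).re =
    64 / P ^ (2 * m) * (2 * m).factorial * Lm t m := by
  have e : FF (Gp t P) = fun z => 64 * (fun z => G t ((-(I / P)) * z)) z := by
    funext z
    exact FF_Gp t P z
  have hc : ContDiff ℂ (2 * m : ℕ) (G t) := (G_diff t).contDiff
  rw [e, iteratedDeriv_const_mul_field, iteratedDeriv_comp_const_mul hc]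
  simp only [mul_zero]
  have h1 : (-(I / (P : ℂ))) ^ (2 * m) = (((-1) ^ m / P ^ (2 * m) : ℝ) : ℂ) := by
    rw [pow_mul, neg_sq, div_pow, I_sq, div_pow, ← pow_mul]
    push_cast
    rfl
  have h2 : (iteratedDeriv (2 * m) (G t) 0).re = (2 * m).factorial * Lm t m := by
    rw [Lm, Pool.Agent.Helper85.LG.tc]
    have hk : ((2 * m).factorial : ℝ) ≠ 0 := by exact_mod_cast (2 * m).factorial_ne_zero
    have : iteratedDeriv (2 * m) (G t) 0 / ((2 * m).factorial : ℂ) =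
        iteratedDeriv (2 * m) (G t) 0 / (((2 * m).factorial : ℝ) : ℂ) := by push_cast; rfl
    rw [this, Complex.div_ofReal_re]
    field_simp
  rw [h1]
  have h3 : (64 * ((((-1) ^ m / P ^ (2 * m) : ℝ) : ℂ) * iteratedDeriv (2 * m) (G t) 0)) =
      ((64 * ((-1) ^ m / P ^ (2 * m)) : ℝ) : ℂ) * iteratedDeriv (2 * m) (G t) 0 := by push_cast; ring
  rw [h3, Complex.re_ofReal_mul, h2]
  have h4 : ((-1 : ℝ) ^ m) * (-1) ^ m = 1 := by rw [← mul_pow]; norm_num
  calc (-1 : ℝ) ^ m * (64 * ((-1) ^ m / P ^ (2 * m)) * (((2 * m).factorial : ℝ) * Lm t m)) =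
      ((-1 : ℝ) ^ m * (-1) ^ m) * (64 / P ^ (2 * m) * (2 * m).factorial * Lm t m) := by ring
    _ = _ := by rw [h4, one_mul]

/-- positivity at the centre of a good window -/
lemma Lm_pos_of_good {t P H : ℝ} (hP : 0 < P) {m : ℕ} (hm : (10 : ℝ) ^ 9 ≤ m) (hH : 8 * m ≤ H)
    (h : Cone (Gp t P) m H ee) (hlow : Low (Gp t P) m (1 / 1000)) : 0 < Lm t m := by
  have h1 := det_lag (Gp_diff t P) (Gp_conj t P) hm hH h hlow
  rw [iter_FF hP] at h1
  have h2 : 0 < 64 / P ^ (2 * m) * ((2 * m).factorial : ℝ) := by positivity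
  exact pos_of_mul_pos_right h1 h2.le

/-- for each order outside a small set -/
theorem one_order : ∃ C c : ℝ, 0 ≤ C ∧ 0 < c ∧ ∀ᶠ T : ℝ in atTop, ∀ m : ℕ, (10 : ℝ) ^ 12 ≤ m →
    ∃ E : Set ℝ, MeasurableSet E ∧ volume (E ∩ Set.Icc T (2 * T)) ≤ ENNReal.ofReal (C * Real.exp (-(c * m)) * T) ∧
      (10000 * (Real.log T / 2) ≤ m → E = ∅) ∧ ∀ t ∈ Set.Icc T (2 * T), t ∉ E → 0 < Lm t m := by
  obtain ⟨C0, hC0, hZ⟩ := zeta_right
  obtain ⟨K, hK1, hK⟩ := dig_right
  obtain ⟨C1, hC1, hL1⟩ := logDeriv_Gx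
  have hLB : LB (C1 + K) := by
    refine ⟨by linarith, ?_⟩
    intro w h1 h2
    obtain ⟨a1, a2, a3⟩ := hL1 w h1 h2
    exact ⟨a1, a2, by linarith⟩
  obtain ⟨C, c, hC, hc, hgs⟩ := good_sets hLB ⟨hC0, hZ⟩
  obtain ⟨X, hX⟩ := Pool.Agent.Helper85.LQ.st_L0 1 (1 / 2) Pool.Agent.Helper75.JE.few_one (by norm_num) (by norm_num)
  refine ⟨C, c, hC, hc, ?_⟩
  filter_upwards [hgs, eventually_ge_atTop X, eventually_ge_atTop 2] with T hT hTX hT2
  intro m hm
  obtain ⟨henv, hsets⟩ := hT _ rfl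
  have hP9 := henv.P9
  have hm0 : (0 : ℝ) < m := by linarith
  rcases lt_or_ge (m : ℝ) (10000 * (Real.log T / 2)) with h1 | h1
  · obtain ⟨E, h2, h3, h4⟩ := hsets m hm h1
    refine ⟨E, h2, h3, fun h => absurd h1 (not_lt.2 h), fun t ht htE => ?_⟩
    obtain ⟨h5, h6⟩ := h4 t ht htE
    exact Lm_pos_of_good (by linarith) (by linarith) (by linarith) h5 h6
  · refine ⟨∅, MeasurableSet.empty, by simp, fun _ => rfl, fun t ht _ => ?_⟩
    refine hX t (by linarith [ht.1]) m ?_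
    have h2 : Real.log t ≤ Real.log (T * T) := Real.log_le_log (by linarith [ht.1]) (by nlinarith [ht.2])
    rw [Real.log_mul (by linarith) (by linarith)] at h2
    linarith

/-- **all orders `m ≥ n`, outside a set of density `C e^(-cn)`** -/
theorem all_orders : ∃ (C c : ℝ) (n₀ : ℕ), 0 < C ∧ 0 < c ∧ ∀ᶠ T : ℝ in atTop, ∀ n : ℕ, n₀ ≤ n →
    volume {x : ℝ | T ≤ x ∧ x ≤ 2 * T ∧ ∃ m : ℕ, n ≤ m ∧ Lm x m ≤ 0} ≤ ENNReal.ofReal (C * Real.exp (-(c * n)) * T) := by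
  obtain ⟨C, c, hC, hc, h⟩ := one_order
  have hg1 : Real.exp (-c) < 1 := by
    rw [Real.exp_lt_one_iff]; linarith
  have hg2 : 0 < 1 / (1 - Real.exp (-c)) := by
    apply one_div_pos.2; linarith
  refine ⟨(C + 1) * (1 / (1 - Real.exp (-c))), c, 10 ^ 12, by positivity, hc, ?_⟩
  filter_upwards [h, eventually_gt_atTop (0 : ℝ)] with T hT hT0
  intro n hn
  have hnR : (10 : ℝ) ^ 12 ≤ n := by exact_mod_cast hn
  have hm12 : ∀ m : ℕ, n ≤ m → (10 : ℝ) ^ 12 ≤ m := fun m hm => hnR.trans (by exact_mod_cast hm)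
  have hE : ∀ m : ℕ, ∃ E : Set ℝ, n ≤ m → (volume (E ∩ Set.Icc T (2 * T)) ≤
      ENNReal.ofReal (C * Real.exp (-(c * m)) * T) ∧ (10000 * (Real.log T / 2) ≤ m → E = ∅) ∧
        ∀ t ∈ Set.Icc T (2 * T), t ∉ E → 0 < Lm t m) := by
    intro m
    by_cases hm : n ≤ m
    · obtain ⟨E, -, h2, h3, h4⟩ := hT m (hm12 m hm)
      exact ⟨E, fun _ => ⟨h2, h3, h4⟩⟩
    · exact ⟨∅, fun h => absurd h hm⟩
  choose E hE using hE
  obtain ⟨N, hN⟩ : ∃ N : ℕ, N = ⌈10000 * (Real.log T / 2)⌉₊ := ⟨_, rfl⟩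
  have hsub : {x : ℝ | T ≤ x ∧ x ≤ 2 * T ∧ ∃ m : ℕ, n ≤ m ∧ Lm x m ≤ 0} ⊆
      ⋃ k ∈ Finset.range N, (E (n + k) ∩ Set.Icc T (2 * T)) := by
    rintro x ⟨h1, h2, m, h3, h4⟩
    have h5 : x ∈ E m := by
      by_contra hcon
      exact absurd ((hE m h3).2.2 x ⟨h1, h2⟩ hcon) (not_lt.2 h4)
    have h6 : m < N := by
      by_contra hcon
      push Not at hcon
      have : 10000 * (Real.log T / 2) ≤ (m : ℝ) := (Nat.le_ceil _).trans (by rw [← hN]; exact_mod_cast hcon)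
      rw [(hE m h3).2.1 this] at h5
      exact h5
    simp only [Set.mem_iUnion, Finset.mem_range]
    refine ⟨m - n, by omega, ?_⟩
    rw [Nat.add_sub_cancel' h3]
    exact ⟨h5, h1, h2⟩
  refine (measure_mono hsub).trans ((measure_biUnion_finset_le _ _).trans ?_)
  refine (Finset.sum_le_sum (g := fun k : ℕ => ENNReal.ofReal (C * Real.exp (-(c * (n + k))) * T))
    fun k _ => ?_).trans ?_
  · have := (hE (n + k) (by omega)).1
    push_cast at this
    exact this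
  rw [← ENNReal.ofReal_sum_of_nonneg (fun i _ => by positivity)]
  apply ENNReal.ofReal_le_ofReal
  have e1 : ∀ k : ℕ, C * Real.exp (-(c * (n + k))) * T = C * Real.exp (-(c * n)) * T * Real.exp (-c) ^ k := by
    intro k
    rw [← Real.exp_nat_mul]
    have : Real.exp (-(c * (n + k))) = Real.exp (-(c * n)) * Real.exp (k * -c) := by
      rw [← Real.exp_add]; congr 1; ring
    rw [this]; ring
  simp only [e1]
  rw [← Finset.mul_sum]
  have h7 : ∑ k ∈ Finset.range N, Real.exp (-c) ^ k ≤ 1 / (1 - Real.exp (-c)) := by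
    rw [one_div, ← tsum_geometric_of_lt_one (Real.exp_pos _).le hg1]
    exact (summable_geometric_of_lt_one (Real.exp_pos _).le hg1).sum_le_tsum _ (fun _ _ => by positivity)
  calc C * Real.exp (-(c * n)) * T * ∑ k ∈ Finset.range N, Real.exp (-c) ^ k ≤
      C * Real.exp (-(c * n)) * T * (1 / (1 - Real.exp (-c))) := by gcongr
    _ ≤ (C + 1) * Real.exp (-(c * n)) * T * (1 / (1 - Real.exp (-c))) := by gcongr; linarith
    _ = _ := by ring

end Pool.Agent.Helper75.LQ
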