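import Pool.Agent.Helper75.LQ.Def

/-! Statements of the packages. -/

set_option autoImplicit false

open Complex MeasureTheory Filter Topology

namespace Pool.Agent.Helper75.LQ

/-! ## Package A: Gaussian averages -/

/-- `F` is entire and real -/
def St_A1 : Prop := ∀ (g : ℂ → ℂ) (v : ℝ), Differentiable ℂ g → 0 < v → Gr g v → Differentiable ℂ (F g v)

/-- shift of the contour -/
def St_A2 : Prop := ∀ (g : ℂ → ℂ) (v : ℝ), Differentiable ℂ g → 0 < v → Gr g v → ∀ (z : ℂ) (σ : ℝ),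
  Integrable (fun w : ℝ => g (z - w) * ga v (w + I * σ)) ∧
    F g v (z + I * σ) = ∫ w : ℝ, g (z - w) * ga v (w + I * σ)

/-- the product formula -/
def St_A3 : Prop := ∀ (g : ℂ → ℂ) (v : ℝ), Differentiable ℂ g → 0 < v → Gr g v → ∀ s b y σ : ℝ,
  Integrable (fun a : ℝ => nn g (v / 2) (s - a) y * ga (v / 2) (a + b + I * σ)) ∧
    F g v (s + b + I * (σ + y)) * F g v (s + b + I * (σ - y)) =
      ∫ a : ℝ, nn g (v / 2) (s - a) y * ga (v / 2) (a + b + I * σ)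

/-- the inverse of the average: mean value property and Gaussian in polar coordinates -/
def St_A4 : Prop := ∀ (g : ℂ → ℂ) (v : ℝ), Differentiable ℂ g → 0 < v → Gr g v →
  Integrable (fun w : ℝ => F g v (I * w) * ga v w) ∧ g 0 = ∫ w : ℝ, F g v (I * w) * ga v w

/-! ## Package B: Hermite numbers `hn v y k = E (y - i d)^k` -/

def St_B1 : Prop := ∀ v : ℝ, 0 < v → ∀ (y : ℝ) (k : ℕ),
  Integrable (fun d : ℝ => ((y : ℂ) - I * d) ^ k * ga v d) ∧ (hn v y k).im = 0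

def St_B2 : Prop := ∀ v y : ℝ, 0 < v → 0 < y → ∀ n : ℕ, 4 * v * n ≤ y ^ 2 →
  0 < (hn v y n).re ∧ (hn v y n).re ≤ y ^ n

def St_B3 : Prop := ∀ v y η : ℝ, 0 < v → 0 < y → 0 < η → η ≤ 1 / 2 → ∀ n : ℕ, v * n ≤ η * (1 - η) * y ^ 2 →
  y ^ n * Real.exp (-(v * n ^ 2 / (2 * (1 - η) ^ 2 * y ^ 2))) ≤ (hn v y n).re

/-! ## Package C: lower bounds for `nn` (positivity of the Laguerre coefficients) -/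

/-- number of terms of the Taylor polynomial -/
noncomputable def MM (C : ℝ) (L : ℕ → ℝ) (j : ℕ) : ℕ := ⌈2 * C * L j⌉₊

/-- Taylor polynomial of `nn` -/
def St_C0a : Prop := ∀ (A C : ℝ) (g : ℕ → ℂ → ℂ) (L : ℕ → ℝ), TS A C g L → ∃ c0 : ℝ, ∀ c ≥ c0,
  ∀ R : ℝ, ∀ᶠ j in atTop, ∀ s y : ℝ, |s| ≤ R → |y| ≤ 2 →
    |(nn (g j) (vv c L j / 2) s y).re -
      ∑ m ∈ Finset.range (MM C L j), Lag (g j) s m * (hn (vv c L j / 2) y (2 * m)).re| ≤ 1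

/-- Taylor polynomial of `|g(s + iY)|²` -/
def St_C0b : Prop := ∀ (A C : ℝ) (g : ℕ → ℂ → ℂ) (L : ℕ → ℝ), TS A C g L →
  ∀ R : ℝ, ∀ᶠ j in atTop, ∀ s Y : ℝ, |s| ≤ R → |Y| ≤ 3 →
    |‖g j (s + I * Y)‖ ^ 2 - ∑ m ∈ Finset.range (MM C L j), Lag (g j) s m * Y ^ (2 * m)| ≤ 1

/-- Cauchy's estimate on the circle of radius `2A` -/
def St_C0c : Prop := ∀ (A C : ℝ) (g : ℕ → ℂ → ℂ) (L : ℕ → ℝ), TS A C g L →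
  ∀ η > 0, ∀ R : ℝ, ∀ᶠ j in atTop, ∀ (s : ℝ) (m : ℕ), |s| ≤ R →
    |Lag (g j) s m| ≤ Real.exp (L j * (2 * A + η)) / (2 * A) ^ (2 * m)

/-- `nn ≥ - e^{(2A+η)L}` -/
def St_C1 : Prop := ∀ (A C : ℝ) (g : ℕ → ℂ → ℂ) (L : ℕ → ℝ), TS A C g L → ∃ c0 : ℝ, ∀ c ≥ c0,
  ∀ η > 0, ∀ R : ℝ, ∀ᶠ j in atTop, ∀ s y : ℝ, |s| ≤ R → 2 * A ≤ y → y ≤ 2 →
    -Real.exp (L j * (2 * A + η)) ≤ (nn (g j) (vv c L j / 2) s y).re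

/-- lower bound of the size of the plane wave -/
def St_C2 : Prop := ∀ (A C : ℝ) (g : ℕ → ℂ → ℂ) (L : ℕ → ℝ), TS A C g L → ∀ τ > 0, ∃ c0 : ℝ, ∀ c ≥ c0,
  ∀ R : ℝ, ∀ᶠ j in atTop, ∀ s y : ℝ, |s| ≤ R → 2 * A + (1 / 2 + τ) / c ≤ y → y ≤ 2 →
    Real.exp (L j * (y - (1 / 4 + τ) / c)) ≤ (nn (g j) (vv c L j / 2) s y).re

/-- the tail of the integral in the product formula -/
def St_C3 : Prop := ∀ (A C : ℝ) (g : ℕ → ℂ → ℂ) (L : ℕ → ℝ), TS A C g L → ∃ c0 : ℝ, ∀ c ≥ c0,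
  ∀ R : ℝ, ∀ᶠ j in atTop, ∀ s y b σ : ℝ, |s| ≤ R → |y| ≤ 2 → |b| ≤ 1 / 4 → |σ| ≤ 1 / 4 →
    ∫ a in {a : ℝ | 1 < |a|}, ‖nn (g j) (vv c L j / 2) (s - a) y * ga (vv c L j / 2) (a + b + I * σ)‖ ≤ 1

/-! ## Package D: bounds for `F` -/

def St_D1 : Prop := ∀ (A C : ℝ) (g : ℕ → ℂ → ℂ) (L : ℕ → ℝ), TS A C g L → ∃ c0 : ℝ, ∀ c ≥ c0,
  ∀ η > 0, ∀ R : ℝ, ∀ᶠ j in atTop, ∀ z : ℂ, |z.re| ≤ R → |z.im| ≤ 2 * A →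
    ‖F (g j) (vv c L j) z‖ ≤ Real.exp (L j * (A + η))

def St_D2 : Prop := ∀ (A C : ℝ) (g : ℕ → ℂ → ℂ) (L : ℕ → ℝ), TS A C g L → ∃ c0 : ℝ, ∀ c ≥ c0,
  ∀ η > 0, ∀ R : ℝ, ∀ᶠ j in atTop, ∀ z : ℂ, |z.re| ≤ R → 2 * A + 1 / (2 * c) ≤ z.im → z.im ≤ 3 →
    ‖F (g j) (vv c L j) z‖ ≤ Real.exp (L j * (z.im / 2 - 1 / (8 * c) + η))

def St_D3 : Prop := ∀ (A C : ℝ) (g : ℕ → ℂ → ℂ) (L : ℕ → ℝ), TS A C g L → ∀ τ > 0, ∃ c0 : ℝ, ∀ c ≥ c0,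
  ∀ R : ℝ, ∀ᶠ j in atTop, ∀ z : ℂ, |z.re| ≤ R → 2 * A + (1 / 2 + τ) / c ≤ z.im → z.im ≤ 2 →
    Real.exp (L j * (z.im / 2 - (1 / 8 + τ) / c)) ≤ ‖F (g j) (vv c L j) z‖

/-- the two point inequality -/
def St_D4 : Prop := ∀ (A C : ℝ) (g : ℕ → ℂ → ℂ) (L : ℕ → ℝ), TS A C g L → ∃ c0 : ℝ, ∀ c ≥ c0,
  ∀ η > 0, ∀ R : ℝ, ∀ᶠ j in atTop, ∀ s y b σ : ℝ, |s| ≤ R → 2 * A ≤ y → y ≤ 2 → |b| ≤ 1 / 4 → |σ| ≤ 1 / 4 →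
    ‖F (g j) (vv c L j) (s + b + I * (σ + y))‖ * ‖F (g j) (vv c L j) (s + b + I * (σ - y))‖ ≤
      Real.exp (L j * (c * σ ^ 2 + 2 * c * |b|)) *
        (‖F (g j) (vv c L j) (s + I * y)‖ ^ 2 + Real.exp (L j * (2 * A + η)))

/-! ## Package E: propagation of smallness, and a point where `F` is large -/

/-- Pure complex analysis: a function which is at most `e^{η' L}` in a long part of a strip and at most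
`e^{-η L}` in a small disc is at most `e^{-η' L}` near `0`. -/
def St_E1 : Prop := ∀ H R β b η : ℝ, 0 < H → 0 < R → 0 < β → β < H → 0 < b → 0 < η →
  ∃ η' > 0, ∃ R2 L0 : ℝ, ∀ (f : ℂ → ℂ) (L : ℝ), L0 ≤ L → Differentiable ℂ f →
    (∀ z : ℂ, |z.re| ≤ R2 → |z.im| ≤ H → ‖f z‖ ≤ Real.exp (L * η')) →
    ∀ p : ℂ, |p.re| ≤ R → |p.im| ≤ H - β → (∀ z : ℂ, ‖z - p‖ ≤ b → ‖f z‖ ≤ Real.exp (-(L * η))) →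
      ∀ z : ℂ, ‖z‖ ≤ η' → ‖f z‖ < Real.exp (-(L * η'))

/-- `F` is large at a point close to `0` -/
def St_E2 : Prop := ∀ (A C : ℝ) (g : ℕ → ℂ → ℂ) (L : ℕ → ℝ), TS A C g L → ∃ c0 : ℝ, ∀ c ≥ c0,
  ∀ η > 0, ∀ᶠ j in atTop, ∃ z : ℂ, ‖z‖ ≤ η ∧ Real.exp (L j * (A - η)) ≤ ‖F (g j) (vv c L j) z‖

/-- `F` is large in every disc -/
def St_E3 : Prop := ∀ (A C : ℝ) (g : ℕ → ℂ → ℂ) (L : ℕ → ℝ), TS A C g L → ∃ c0 : ℝ, ∀ c ≥ c0,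
  ∀ R β b η : ℝ, 0 < R → 0 < β → β < 2 * A → 0 < b → 0 < η → ∀ᶠ j in atTop, ∀ p : ℂ, |p.re| ≤ R →
    |p.im| ≤ 2 * A - β → ∃ z : ℂ, ‖z - p‖ ≤ b ∧ Real.exp (L j * (A - η)) ≤ ‖F (g j) (vv c L j) z‖

/-! ## Package G: the contradiction -/

/-- pure complex analysis: three lines theorem in a long rectangle for `1/F` -/
def St_G1 : Prop := ∀ y0 y1 y2 u0 u2 B η : ℝ, y0 < y1 → y1 < y2 → 0 < η → ∃ R : ℝ, 0 < R ∧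
  ∀ (f : ℂ → ℂ) (L : ℝ), 0 < L → Differentiable ℂ f →
    (∀ z : ℂ, |z.re| ≤ R → y0 ≤ z.im → z.im ≤ y2 → Real.exp (-(L * B)) ≤ ‖f z‖) →
    (∀ z : ℂ, |z.re| ≤ R → z.im = y0 → Real.exp (L * u0) ≤ ‖f z‖) →
    (∀ z : ℂ, |z.re| ≤ R → z.im = y2 → Real.exp (L * u2) ≤ ‖f z‖) →
    Real.exp (L * ((y2 - y1) / (y2 - y0) * u0 + (y1 - y0) / (y2 - y0) * u2 - η)) ≤ ‖f (I * y1)‖

/-- lower bound for `F` above the height `2A + 0.2/c` -/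
def St_G2 : Prop := ∀ (A C : ℝ) (g : ℕ → ℂ → ℂ) (L : ℕ → ℝ), TS A C g L → ∃ c0 : ℝ, ∀ c ≥ c0,
  ∀ R : ℝ, ∀ᶠ j in atTop, ∀ s y : ℝ, |s| ≤ R → 2 * A + 1 / (5 * c) ≤ y → y ≤ 2 →
    Real.exp (L j * (A + 1 / (80 * c))) ≤ ‖F (g j) (vv c L j) (s + I * y)‖

def St_fin : Prop := ∀ (A C : ℝ) (g : ℕ → ℂ → ℂ) (L : ℕ → ℝ), ¬ TS A C g L

end Pool.Agent.Helper75.LQ
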